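import Pool.Agent.W_04c03c_h58.WfS3

/-!
# A functional vanishes on the cocycles of a cusp on which its crossed homomorphism is trivial

This is `WfS3.lean` without the assumption that the whole group is torsion-free.
-/

namespace RCan

open MulAction

variable {Γ Ξ V : Type*} [Group Γ] [MulAction Γ Ξ] [MulAction Γ V]
  {sm : V → V → Prop} {cusp : V → Option Ξ} {k : Type} [Field k]

theorem exists_transferP (hF : WFace Γ Ξ V sm cusp) (χ : Γ →* kˣ) (P : Subgroup Γ)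
    (hTP : TFree P) (n : ℕ) : ∃ T : EQf sm cusp (χ.comp P.subtype) n →ₗ[k] EQf sm cusp χ n,
      ∀ f, T (avF (hF.sub P) (χ.comp P.subtype) n f) = avF hF χ n f := by
  obtain ⟨s, hs⟩ := (avF (sm := sm) (cusp := cusp) (k := k) (hF.sub P)
    (χ.comp P.subtype) n).exists_rightInverse_of_surjective
    (LinearMap.range_eq_top.2 (avF_surj (hF.sub P) hTP _ n))
  refine ⟨(avF hF χ n).comp s, fun f => ?_⟩
  rw [LinearMap.comp_apply]
  have h1 : avF (hF.sub P) (χ.comp P.subtype) n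
      (s (avF (hF.sub P) (χ.comp P.subtype) n f) - f) = 0 := by
    rw [map_sub]
    have h2 := LinearMap.congr_fun hs (avF (hF.sub P) (χ.comp P.subtype) n f)
    rw [LinearMap.comp_apply, LinearMap.id_apply] at h2
    rw [h2, sub_self]
  have h3 := WfS3_ker hF χ P n _ h1
  rw [map_sub, sub_eq_zero] at h3
  exact h3

theorem phi_cuspP (hF : WFace Γ Ξ V sm cusp) (χ ω : Γ →* kˣ)
    (z : DSub sm cusp k 3) (hz : crW hF k 3 z = 0)
    (hz' : ∀ f : DSub sm cusp k 3, crW hF k 3 f = 0 → ∃ (c : k) (e : DSub sm cusp k 2),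
      f = c • z + crW hF k 2 e)
    (e : Γ → DSub sm cusp k 2)
    (he : ∀ g, crW hF k 2 (e g) = trW hF k 3 g z - (ω g : k) • z)
    (φ : EQf sm cusp χ 2 →ₗ[k] k) (hφ : ∀ c : EQf sm cusp χ 1, φ (crF hF χ 1 c) = 0)
    (ξ : Ξ) (hTP : TFree (stabilizer Γ ξ)) (hfull : WFull Γ sm cusp ξ)
    (h0 : ∀ g ∈ stabilizer Γ ξ, φ (avF hF χ 2 (e g)) = 0)
    {β : V → V → k} (hβ : IsBd cusp χ β)
    (hs : ∀ x y, β x y ≠ 0 → ∃ g : Γ, cusp x = some (g • ξ))
    (c : EQf sm cusp χ 2) (hc : c.1 = cr sm (bl sm β)) : φ c = 0 := by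
  obtain ⟨T₁, hT₁⟩ := exists_transferP (sm := sm) (cusp := cusp) hF χ (stabilizer Γ ξ) hTP 1
  obtain ⟨T₂, hT₂⟩ := exists_transferP (sm := sm) (cusp := cusp) hF χ (stabilizer Γ ξ) hTP 2
  have hφ' : ∀ c : EQf sm cusp (χ.comp (stabilizer Γ ξ).subtype) 1,
      (φ.comp T₂) (crF (hF.sub (stabilizer Γ ξ)) (χ.comp (stabilizer Γ ξ).subtype) 1 c) = 0 := by
    intro c
    obtain ⟨f, rfl⟩ := avF_surj (hF.sub (stabilizer Γ ξ)) hTP (χ.comp (stabilizer Γ ξ).subtype) 1 c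
    rw [crF_avF, LinearMap.comp_apply, hT₂]
    have h1 : crW (hF.sub (stabilizer Γ ξ)) k 1 f = crW hF k 1 f := rfl
    rw [h1, ← crF_avF]
    exact hφ _
  have hmem : cr sm (bl sm (bP cusp ξ β)) ∈ EQf sm cusp (χ.comp (stabilizer Γ ξ).subtype) 2 := by
    refine cr_bl_memF (hF.sub (stabilizer Γ ξ)) (ι := Unit) (fun _ => ξ) (fun _ => hfull.stab)
      (bP_isBd hF hβ ξ) ?_
    intro x y hxy
    refine ⟨(), 1, ?_⟩
    rw [one_smul]
    by_contra h
    exact hxy (if_neg fun h' => h h'.1)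
  have hc' : crF (hF.sub (stabilizer Γ ξ)) (χ.comp (stabilizer Γ ξ).subtype) 2
      ⟨_, hmem⟩ = 0 := Subtype.ext (cr_cr _)
  have key := dual_principalW (hF.sub (stabilizer Γ ξ)) hTP (χ.comp (stabilizer Γ ξ).subtype)
    (ω.comp (stabilizer Γ ξ).subtype) z hz hz' (fun g => e g) (fun g => he g) (φ.comp T₂) hφ' 0
    (fun g => by
      rw [mul_zero, LinearMap.comp_apply, hT₂]
      exact h0 g g.2) ⟨_, hmem⟩ hc'
  have hTc : T₂ ⟨_, hmem⟩ = c := by
    obtain ⟨f', hf'⟩ := avF_surj (hF.sub (stabilizer Γ ξ)) hTP (χ.comp (stabilizer Γ ξ).subtype) 2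
      ⟨_, hmem⟩
    rw [← hf', hT₂]
    apply Subtype.ext
    funext l
    show av χ f'.1 l = c.1 l
    have h2 : av (χ.comp (stabilizer Γ ξ).subtype) f'.1 = cr sm (bl sm (bP cusp ξ β)) :=
      congrArg Subtype.val hf'
    rw [av_quot hF χ (stabilizer Γ ξ) f'.2 l, h2, hc, cr_bl_quot hF hβ ξ hs l]
  rw [LinearMap.comp_apply, hTc] at key
  exact key

end RCan
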