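import Pool.Agent.W_04c03c_h62s.SHalfB

/-!
# Half lives inequalities, abstractly
-/

namespace Q62

open MulAction

/-- The stabilizer of `ξ` is isomorphic to `ℤ²`. -/
def IsTor (Γ : Type) [Group Γ] {Ξ : Type} [MulAction Γ Ξ] (ξ : Ξ) : Prop :=
  Nonempty (stabilizer Γ ξ ≃* Multiplicative (ℤ × ℤ))

/-- A sign character with values in a field. -/
noncomputable def sgnF {Γ : Type} [Group Γ] (ε : Γ →* ℤˣ) (F : Type) [Field F] : Γ →* Fˣ :=
  (Units.map (Int.castRingHom F).toMonoidHom).comp ε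

theorem sgnF_apply {Γ : Type} [Group Γ] (ε : Γ →* ℤˣ) (F : Type) [Field F] (g : Γ) :
    ((sgnF ε F g : Fˣ) : F) = (((ε g : ℤˣ) : ℤ) : F) := rfl

theorem sgnF_one {Γ : Type} [Group Γ] {ε : Γ →* ℤˣ} {F : Type} [Field F] {g : Γ} (h : ε g = 1) :
    sgnF ε F g = 1 := by
  refine Units.ext ?_
  rw [sgnF_apply, h]
  simp

theorem sgnF_two {Γ : Type} [Group Γ] (ε : Γ →* ℤˣ) (F : Type) [Field F] [CharP F 2] :
    sgnF ε F = 1 := by
  refine MonoidHom.ext fun g => Units.ext ?_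
  rw [sgnF_apply]
  rcases Int.units_eq_one_or (ε g) with h | h
  · rw [h]
    simp
  · rw [h]
    have h2 : (-1 : F) = 1 := CharTwo.neg_eq 1
    simp [h2]

/-- The half lives inequality for all fields, characters and finite families of torus points. -/
def HalfIneq (Γ : Type) [Group Γ] (Ξ : Type) [MulAction Γ Ξ] (ε : Γ →* ℤˣ) : Prop :=
  ∀ (F : Type) [Field F] (χ : Γ →* Fˣ) (I : Type) [Finite I] (x : I → Ξ),
    (∀ i, IsTor Γ (x i)) → (∀ i j, i ≠ j → x i ∉ orbit Γ (x j)) →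
    (∀ i, ∀ k ∈ stabilizer Γ (x i), χ k = 1) →
    2 * Nat.card I ≤ resRank χ x + resRank (χ⁻¹ * sgnF ε F) x

/-- A class of groups acting on `Ξ`, with sign characters, which is closed under subgroups of finite
index and satisfies the half lives inequality. -/
structure HT (Ξ : Type) where
  P : ∀ (Γ : Type) [Group Γ] [MulAction Γ Ξ], (Γ →* ℤˣ) → Prop
  sub : ∀ {Γ : Type} [Group Γ] [MulAction Γ Ξ] {ε : Γ →* ℤˣ}, P Γ ε →
    ∀ N : Subgroup Γ, N.FiniteIndex → P N (ε.comp N.subtype)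
  stab : ∀ {Γ : Type} [Group Γ] [MulAction Γ Ξ] {ε : Γ →* ℤˣ}, P Γ ε →
    ∀ ξ : Ξ, IsTor Γ ξ → ∀ k ∈ stabilizer Γ ξ, ε k = 1
  half : ∀ {Γ : Type} [Group Γ] [MulAction Γ Ξ] {ε : Γ →* ℤˣ}, P Γ ε → HalfIneq Γ Ξ ε

/-- A partial Dehn filling: the group `Q` is the quotient of `Γ` by the normal subgroup generated by
one element `R j` of the stabilizer (isomorphic to `ℤ²`) of each of finitely many inequivalent
points `η j`. -/
structure Fill (Γ : Type) [Group Γ] (Ξ : Type) [MulAction Γ Ξ] (Q : Type) [Group Q] where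
  J : Type
  fin : Finite J
  η : J → Ξ
  R : J → Γ
  π : Γ →* Q
  surj : Function.Surjective π
  ineq : ∀ j j', j ≠ j' → η j ∉ orbit Γ (η j')
  fix : ∀ j, R j • η j = η j
  z2 : ∀ j, IsTor Γ (η j)
  ker : π.ker = Subgroup.normalClosure (Set.range R)

theorem HalfIneq.le {Γ : Type} [Group Γ] {Ξ : Type} [MulAction Γ Ξ] {ε : Γ →* ℤˣ}
    (h : HalfIneq Γ Ξ ε) {F : Type} [Field F] (χ : Γ →* Fˣ) {I : Type} [Finite I] (x : I → Ξ)
    (hz : ∀ i, IsTor Γ (x i)) (hne : ∀ i j, i ≠ j → x i ∉ orbit Γ (x j))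
    (hχ : ∀ i, ∀ k ∈ stabilizer Γ (x i), χ k = 1)
    (hχ' : ∀ i, ∀ k ∈ stabilizer Γ (x i), (χ⁻¹ * sgnF ε F) k = 1) :
    2 * Nat.card I ≤ Module.finrank F (LinearMap.range (resX χ x hχ)) +
      Module.finrank F (LinearMap.range (resX (χ⁻¹ * sgnF ε F) x hχ')) := by
  rw [resRank_eq χ x hχ, resRank_eq (χ⁻¹ * sgnF ε F) x hχ']
  exact h F χ I x hz hne hχ

end Q62
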