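import Pool.Agent.W_04c03c_h62q.QOd
import Pool.Agent.W_04c03c_h62q.QAbs
import Pool.Agent.W_04c03c_h58.AlgJ1
import Pool.Agent.W_04c03c_h58.Def

/-!
# The orientation character: data
-/

namespace Q62

open RCan MulAction

/-- The data of a subgroup `Γ` of arbitrary index (torsion is allowed): `WFace`, vanishing of the cohomology in
degree one, fullness of the cusps with virtually `ℤ²` stabilizer, and the integral class `z` in degree
three on which `Γ` acts by the sign character `ε`. -/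
structure OrData (Γ Ξ V : Type) [Group Γ] [MulAction Γ Ξ] [MulAction Γ V] (sm : V → V → Prop)
    (cusp : V → Option Ξ) (ε : Γ →* ℤˣ) (z : List V → ℤ) : Prop where
  face : WFace Γ Ξ V sm cusp
  h1 : ∀ (k : Type) [Field k] (f : List V → k), IsD sm cusp k 1 f → cr sm f = 0 →
    ∃ e, IsD sm cusp k 0 e ∧ cr sm e = f
  two : ∀ ξ : Ξ, ∃ η, η ≠ ξ
  full : ∀ ξ : Ξ, VirtZ2 (stabilizer Γ ξ) → WFull Γ sm cusp ξ
  zD : IsD sm cusp ℤ 3 z
  zc : cr sm z = 0
  zg : ∀ (k : Type) [Field k] (f : List V → k), IsD sm cusp k 3 f → cr sm f = 0 →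
    ∃ (c : k) (e : List V → k), IsD sm cusp k 2 e ∧ (fun l => f l - c * (z l : k)) = cr sm e
  ze : ∀ g : Γ, ∃ e : List V → ℤ, IsD sm cusp ℤ 2 e ∧
    (fun l => z (l.map (fun x => g⁻¹ • x)) - ((ε g : ℤˣ) : ℤ) * z l) = cr sm e

section
variable {Γ Ξ V : Type} [Group Γ] [MulAction Γ Ξ] [MulAction Γ V] {sm : V → V → Prop}
  {cusp : V → Option Ξ} {ε : Γ →* ℤˣ} {z : List V → ℤ}

/-- The stabilizer of a torus point is torsion-free. -/
theorem isTor_tfree {Γ Ξ : Type} [Group Γ] [MulAction Γ Ξ] {ξ : Ξ} (h : IsTor Γ ξ) :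
    TFree (stabilizer Γ ξ) := by
  obtain ⟨e⟩ := h
  intro g n hn hg
  have h1 : (e g) ^ n = 1 := by
    rw [← map_pow, hg, map_one]
  have h2 : n • (e g).toAdd = 0 := by
    rw [← toAdd_pow, h1, toAdd_one]
  have h3 : (e g).toAdd = 0 := by
    rcases smul_eq_zero.1 h2 with h | h
    · omega
    · exact h
  have h4 : e g = 1 := h3
  rw [← map_one e] at h4
  exact e.injective h4

theorem isTor_virt {Γ Ξ : Type} [Group Γ] [MulAction Γ Ξ] {ξ : Ξ} (h : IsTor Γ ξ) :
    VirtZ2 (stabilizer Γ ξ) :=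
  ⟨stabilizer Γ ξ, le_rfl, by rw [Subgroup.relIndex_self]; exact one_ne_zero, h⟩

end

end Q62
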