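import Pool.Agent.W_04c03c_h62q.QOe4
import Pool.Agent.W_04c03c_h62q.GK

/-!
# The half lives inequality from the data
-/

namespace Q62

open RCan MulAction

section
variable {Γ Ξ V : Type} [Group Γ] [MulAction Γ Ξ] [MulAction Γ V] {sm : V → V → Prop}
  {cusp : V → Option Ξ} {ε : Γ →* ℤˣ} {z : List V → ℤ}

theorem sgnF_sq (ε : Γ →* ℤˣ) (F : Type) [Field F] (g : Γ) : sgnF ε F g * sgnF ε F g = 1 := by
  rw [← map_mul]
  apply sgnF_one
  rw [map_mul]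
  exact Int.units_mul_self _

/-- The class in degree three with coefficients in a field. -/
noncomputable def OrData.zF (D : OrData Γ Ξ V sm cusp ε z) (F : Type) [Field F] :
    DSub sm cusp F 3 := ⟨fun l => ((z l : ℤ) : F), AlgJ1_cast D.zD⟩

theorem OrData.zF_cocycle (D : OrData Γ Ξ V sm cusp ε z) (F : Type) [Field F] :
    crW D.face F 3 (D.zF F) = 0 := by
  apply Subtype.ext
  rw [crW_coe]
  change cr sm (fun l => ((z l : ℤ) : F)) = 0
  rw [AlgJ1_cr_cast, D.zc]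
  funext l
  simp

theorem OrData.zF_gen (D : OrData Γ Ξ V sm cusp ε z) (F : Type) [Field F]
    (f : DSub sm cusp F 3) (hf : crW D.face F 3 f = 0) :
    ∃ (c : F) (e : DSub sm cusp F 2), f = c • D.zF F + crW D.face F 2 e := by
  obtain ⟨c, e, he, h⟩ := D.zg F f.1 f.2 (congrArg Subtype.val hf)
  refine ⟨c, ⟨e, he⟩, ?_⟩
  apply Subtype.ext
  funext l
  have h1 := congrFun h l
  show f.1 l = c * ((z l : ℤ) : F) + cr sm e l
  rw [← h1]
  ring

theorem OrData.zF_eig (D : OrData Γ Ξ V sm cusp ε z) (F : Type) [Field F] (g : Γ) :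
    ∃ e : DSub sm cusp F 2, crW D.face F 2 e =
      trW D.face F 3 g (D.zF F) - (sgnF ε F g : F) • D.zF F := by
  obtain ⟨e, he, h⟩ := D.ze g
  refine ⟨⟨fun l => ((e l : ℤ) : F), AlgJ1_cast he⟩, ?_⟩
  apply Subtype.ext
  rw [crW_coe]
  change cr sm (fun l => ((e l : ℤ) : F)) = _
  rw [AlgJ1_cr_cast, ← h]
  funext l
  show (((z (l.map (fun x => g⁻¹ • x)) - ((ε g : ℤˣ) : ℤ) * z l : ℤ)) : F) =
    ((z (l.map (fun x => g⁻¹ • x)) : ℤ) : F) - (sgnF ε F g : F) * ((z l : ℤ) : F)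
  rw [sgnF_apply]
  push_cast
  ring

theorem OrData.half (D : OrData Γ Ξ V sm cusp ε z) : HalfIneq Γ Ξ ε := by
  intro F _ χ I _ x hz hne hχ
  refine halfWP D.face χ (sgnF ε F) (sgnF_sq ε F) (D.zF F) (D.zF_cocycle F) (D.zF_gen F)
    (D.zF_eig F) x (fun i => D.full _ (isTor_virt (hz i))) hz hne hχ ?_
  intro i g hg
  exact sgnF_one (D.eps_stab (x i) (hz i) g hg)

end

/-- The class of groups with such data. -/
def geoHT (Ξ : Type) : HT Ξ where
  P := fun Γ _ _ ε => ∃ (V : Type) (_ : MulAction Γ V) (sm : V → V → Prop) (cusp : V → Option Ξ)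
    (z : List V → ℤ), OrData Γ Ξ V sm cusp ε z
  sub := by
    rintro Γ _ _ ε ⟨V, _, sm, cusp, z, D⟩ N hN
    exact ⟨V, inferInstance, sm, cusp, z, D.sub N hN⟩
  stab := by
    rintro Γ _ _ ε ⟨V, _, sm, cusp, z, D⟩ ξ hξ
    exact D.eps_stab ξ hξ
  half := by
    rintro Γ _ _ ε ⟨V, _, sm, cusp, z, D⟩
    exact D.half

/-- A subgroup of a group with `Face` data which has a torus cusp. -/
theorem exists_orData {G Ξ V : Type} [Group G] [MulAction G Ξ] [MulAction G V]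
    {sm : V → V → Prop} {cusp : V → Option Ξ} (hF : Face G Ξ V sm cusp)
    (h1 : ∀ (k : Type) [Field k] (f : List V → k), IsD sm cusp k 1 f → cr sm f = 0 →
      ∃ e, IsD sm cusp k 0 e ∧ cr sm e = f)
    (two : ∀ ξ : Ξ, ∃ η, η ≠ ξ) (Γ : Subgroup G)
    (hfull : ∀ ξ : Ξ, VirtZ2 (stabilizer Γ ξ) → WFull Γ sm cusp ξ) (ξ : Ξ) (hξ : IsTor Γ ξ) :
    ∃ (ε : Γ →* ℤˣ) (z : List V → ℤ), OrData Γ Ξ V sm cusp ε z := by
  have hW := hF.toW Γ
  obtain ⟨z, zD, zc, zg, ze⟩ := hW.h3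
  obtain ⟨η, hη⟩ := two ξ
  have hnz := (z_torus hW ℚ hη (hfull ξ (isTor_virt hξ)) hξ (h1 ℚ) zD (zg ℚ)).1
  obtain ⟨ε, hε⟩ := exists_eps hW zD hnz ze
  exact ⟨ε, z, hW, h1, two, hfull, zD, zc, zg, hε⟩

end Q62
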