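import Pool.Agent.W_04c03c_h62q.QPh

/-! At least half of the cohomology of the cusps of any subgroup of a group of Q1 extends to the
subgroup. -/

namespace Pool.Agent.Results.MP_04c03c_gt.CuspHalfLives

open RCan Q62

/-- Let `G` be hyperbolic relative to virtually `ℤ²` subgroups `H i`, with Bowditch boundary the
two-sphere. There is an orientation character `w : G → {1, -1}`, trivial on the cusps isomorphic to
`ℤ²` of all subgroups, such that for every subgroup `Γ ≤ G`, every field `F`, every character
`χ : Γ → Fˣ` and every finite family of pairwise non-conjugate torsion-free cusps `L i` of `Γ` on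
which `χ` and `w` (in `F`) are trivial the following holds.  Consider the restriction of crossed
homomorphisms `Z¹(Γ, F_χ) → ∏ Hom(L i, F)`.  The sum of its rank and of the rank of the same map for
the dual character `χ⁻¹ w` is at least the dimension of the target. -/
theorem result (G : Type) [Group G] (k : ℕ) (H : Fin k → Subgroup G) (hH : ∀ i, VirtZ2 (H i))
    (hS : SphereRelHyp G H) :
    ∃ w : G →* ℤˣ,
      (∀ (Γ : Subgroup G) (L : Subgroup Γ), TorusCusp H Γ L → ∀ g ∈ L, w g = 1) ∧
      ∀ (Γ : Subgroup G) (F : Type) [Field F] (χ : Γ →* Fˣ) (I : Type) [Finite I]
        (L : I → Subgroup Γ),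
        (∀ i, TFreeCusp H Γ (L i)) → (∀ i j, i ≠ j → ¬ ConjBy ⊤ (L i) (L j)) →
        (∀ i, ∀ g ∈ L i, χ g = 1) → (∀ i, ∀ g ∈ L i, sgnF (w.comp Γ.subtype) F g = 1) →
        homRk F L ≤ resRk χ L + resRk (χ⁻¹ * sgnF (w.comp Γ.subtype) F) L :=
  q1_half' hH hS

end Pool.Agent.Results.MP_04c03c_gt.CuspHalfLives

/-
Withdrawn hand-in (slot used by KazhdanSubgroups). Its claim file was:

Proves: Let G be hyperbolic relative to H_1..H_k, all virtually Z^2, with Bowditch boundary S^2 (the G of Q1). There is w: G -> {1,-1}, trivial on the torus cusps of all subgroups, so that for all subgroups S of G (any index, torsion allowed), fields F, characters c: S -> F^* and finite families of pairwise non-conjugate torsion-free cusps L_j of S with c = 1 and w = 1 in F on all L_j: the ranks of the restriction Z^1(S,F_c) -> prod Hom(L_j,F) for c and for c^-1 w add up to at least dim prod Hom(L_j,F) (2 for each Z^2).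
Definitions: SphereRelHyp: isometric properly discontinuous action on a proper geodesic (IsGeod) 4-point hyperbolic (IsHyp) X, invariant family of disjoint open horoballs (IsHoroball: sublevels of Busemann functions buse), cocompact off them (Cusped), with stabilizers exactly the conjugates of the H_i; Bdry X (rays GRay mod asym, pointwise convergence) is S^2. VirtZ2: virtually Z^2. TFreeCusp (TorusCusp): S cap conjugate of an H_i, if virtually Z^2 and torsion-free, TFree (if Z^2). ConjBy: conjugate. XHom: crossed homs Z^1. resRk: the rank. homRk: dim of the product. sgnF: w in F.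
Relation: Partial: the duality (half lives half dies) of 3-manifolds, in the infinite index case an inequality as well, for all subgroups of the groups of Q1, without geometry. For torsion-free G of finite index it would follow from Tshishiku-Walsh 2020 (duality pairs). Joint work with the other hand-ins here.
-/
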