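import Pool.Agent.W_04c03c_h62q.QAbs
import Pool.Agent.W_04c03c_h62s.SFull

/-!
# Partial fillings and subgroups of finite index (abstract form)
-/

namespace Q62

open MulAction

section
variable {Γ : Type} [Group Γ] {Ξ : Type} [MulAction Γ Ξ] {Q : Type} [Group Q]

theorem QFill_comm {ξ : Ξ} (hz : Nonempty (stabilizer Γ ξ ≃* Multiplicative (ℤ × ℤ))) {a b : Γ}
    (ha : a • ξ = ξ) (hb : b • ξ = ξ) : a * b = b * a := by
  obtain ⟨e⟩ := hz
  have h1 : (⟨a, ha⟩ : stabilizer Γ ξ) * ⟨b, hb⟩ = ⟨b, hb⟩ * ⟨a, ha⟩ := by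
    apply e.injective
    rw [map_mul, map_mul, mul_comm]
  exact congrArg Subtype.val h1

/-- the orbits of `M` which meet the orbits of the points -/
def QFillJ (D : Fill Γ Ξ Q) (M : Subgroup Γ) : Type :=
  {o : orbitRel.Quotient M Ξ // ∃ (j : D.J) (g : Γ), o = (Quotient.mk (orbitRel M Ξ) (g • D.η j))}

theorem QFill_fin (D : Fill Γ Ξ Q) (M : Subgroup Γ) [M.FiniteIndex] : Finite (QFillJ D M) := by
  have h1 := D.fin
  have h2 : Finite (Γ ⧸ M) := inferInstance
  let f : D.J × (Γ ⧸ M) → QFillJ D M := fun p =>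
    ⟨Quotient.mk (orbitRel M Ξ) (p.2.out⁻¹ • D.η p.1), p.1, p.2.out⁻¹, rfl⟩
  refine Finite.of_surjective f ?_
  rintro ⟨o, j, g, rfl⟩
  refine ⟨(j, ((g⁻¹ : Γ) : Γ ⧸ M)), ?_⟩
  apply Subtype.ext
  apply Quotient.sound
  obtain ⟨m, hm⟩ := QuotientGroup.mk_out_eq_mul M g⁻¹
  refine ⟨m⁻¹, ?_⟩
  show ((m⁻¹ : M) : Γ) • (g • D.η j) = (((g⁻¹ : Γ) : Γ ⧸ M)).out⁻¹ • D.η j
  rw [hm, mul_inv_rev, inv_inv, mul_smul, Subgroup.coe_inv]

/-- A subgroup of finite index of a partial filling is a partial filling of its preimage. -/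
theorem Fill.sub (D : Fill Γ Ξ Q) (N : Subgroup Q) [N.FiniteIndex] :
    ∃ D' : Fill (N.comap D.π) Ξ N, (∀ k, ((D'.π k : N) : Q) = D.π (k : Γ)) ∧
      ∀ j', ∃ j, D'.η j' ∈ orbit Γ (D.η j) := by
  have hMf : (N.comap D.π).FiniteIndex := by
    constructor
    rw [Subgroup.index_comap_of_surjective N D.surj]
    exact Subgroup.FiniteIndex.index_ne_zero
  have hfin := QFill_fin D (N.comap D.π)
  have hex : ∀ o : QFillJ D (N.comap D.π), ∃ (j : D.J) (g : Γ),
      o.1 = (Quotient.mk (orbitRel (N.comap D.π) Ξ) (g • D.η j)) := fun o => o.2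
  choose jj gg hgg using hex
  have hRk : ∀ j, D.π (D.R j) = 1 := by
    intro j
    have h1 : D.R j ∈ D.π.ker := by
      rw [D.ker]
      exact Subgroup.subset_normalClosure ⟨j, rfl⟩
    exact h1
  have hcj : ∀ (g : Γ) (j : D.J), D.π (g * D.R j * g⁻¹) = 1 := by
    intro g j
    rw [map_mul, map_mul, map_inv, hRk, mul_one, mul_inv_cancel]
  have hmem : ∀ (g : Γ) (j : D.J), g * D.R j * g⁻¹ ∈ N.comap D.π := by
    intro g j
    rw [Subgroup.mem_comap, hcj]
    exact N.one_mem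
  have hfi : ∀ ξ : Ξ, ((N.comap D.π).subgroupOf (stabilizer Γ ξ)).FiniteIndex := fun ξ =>
    inferInstance
  refine ⟨{ J := QFillJ D (N.comap D.π)
            fin := hfin
            η := fun o => gg o • D.η (jj o)
            R := fun o => ⟨gg o * D.R (jj o) * (gg o)⁻¹, hmem _ _⟩
            π := D.π.subgroupComap N
            surj := ?_
            ineq := ?_
            fix := ?_
            z2 := ?_
            ker := ?_ }, fun k => rfl, fun o => ⟨jj o, gg o, rfl⟩⟩
  · rintro ⟨n, hn⟩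
    obtain ⟨g, rfl⟩ := D.surj n
    exact ⟨⟨g, hn⟩, rfl⟩
  · intro o o' hoo h
    apply hoo
    apply Subtype.ext
    rw [hgg o, hgg o']
    exact Quotient.sound h
  · intro o
    show (gg o * D.R (jj o) * (gg o)⁻¹) • (gg o • D.η (jj o)) = gg o • D.η (jj o)
    rw [mul_smul, mul_smul, inv_smul_smul, D.fix]
  · intro o
    obtain ⟨e⟩ := D.z2 (jj o)
    exact z2_res ⟨(stabilizerEquivStabilizer (rfl : gg o • D.η (jj o) = gg o • D.η (jj o))).symm.trans
      e⟩ _ (hfi _)
  · apply le_antisymm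
    · intro x hx
      have hx1 : D.π (x : Γ) = 1 := congrArg Subtype.val hx
      obtain ⟨NC, hNC⟩ : ∃ NC : Subgroup (N.comap D.π), NC = Subgroup.normalClosure
        (Set.range fun o : QFillJ D (N.comap D.π) =>
          (⟨gg o * D.R (jj o) * (gg o)⁻¹, hmem _ _⟩ : N.comap D.π)) := ⟨_, rfl⟩
      have hNCn : NC.Normal := by
        rw [hNC]
        infer_instance
      rw [← hNC]
      have hle : Subgroup.normalClosure (Set.range D.R) ≤ NC.map (N.comap D.π).subtype := by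
        unfold Subgroup.normalClosure
        rw [Subgroup.closure_le]
        intro y hy
        rw [Group.mem_conjugatesOfSet_iff] at hy
        obtain ⟨_, ⟨j, rfl⟩, hc⟩ := hy
        obtain ⟨γ, rfl⟩ := isConj_iff.1 hc
        obtain ⟨o, ho⟩ : ∃ o : QFillJ D (N.comap D.π),
            o.1 = (Quotient.mk (orbitRel (N.comap D.π) Ξ) (γ • D.η j)) :=
          ⟨⟨_, j, γ, rfl⟩, rfl⟩
        have h1 : (Quotient.mk (orbitRel (N.comap D.π) Ξ) (γ • D.η j)) =
            (Quotient.mk (orbitRel (N.comap D.π) Ξ) (gg o • D.η (jj o))) := by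
          rw [← ho, ← hgg o]
        obtain ⟨m, hm⟩ := Quotient.exact h1
        have hm' : (m : Γ) • (gg o • D.η (jj o)) = γ • D.η j := hm
        have hj : j = jj o := by
          by_contra hne
          refine D.ineq j (jj o) hne ⟨γ⁻¹ * ((m : Γ) * gg o), ?_⟩
          show (γ⁻¹ * ((m : Γ) * gg o)) • D.η (jj o) = D.η j
          rw [mul_smul, mul_smul, hm', inv_smul_smul]
        subst hj
        have hk : (((m : Γ) * gg o)⁻¹ * γ) • D.η (jj o) = D.η (jj o) := by
          rw [mul_smul, ← hm', ← mul_smul, ← mul_smul, mul_assoc, inv_mul_cancel, one_smul]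
        have hc := QFill_comm (D.z2 (jj o)) hk (D.fix (jj o))
        have e1 : γ * D.R (jj o) * γ⁻¹ = (m : Γ) * (gg o * D.R (jj o) * (gg o)⁻¹) * (m : Γ)⁻¹ := by
          have e2 : γ = ((m : Γ) * gg o) * (((m : Γ) * gg o)⁻¹ * γ) := by
            rw [mul_inv_cancel_left]
          calc γ * D.R (jj o) * γ⁻¹
              = ((m : Γ) * gg o) * ((((m : Γ) * gg o)⁻¹ * γ) * D.R (jj o)) * γ⁻¹ := by
                rw [← mul_assoc, ← e2]
            _ = ((m : Γ) * gg o) * (D.R (jj o) * (((m : Γ) * gg o)⁻¹ * γ)) * γ⁻¹ := by rw [hc]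
            _ = (m : Γ) * (gg o * D.R (jj o) * (gg o)⁻¹) * (m : Γ)⁻¹ := by group
        refine ⟨m * ⟨gg o * D.R (jj o) * (gg o)⁻¹, hmem _ _⟩ * m⁻¹, ?_, ?_⟩
        · refine hNCn.conj_mem _ ?_ m
          rw [hNC]
          exact Subgroup.subset_normalClosure ⟨o, rfl⟩
        · rw [e1]
          rfl
      have hx2 : (x : Γ) ∈ NC.map (N.comap D.π).subtype := by
        apply hle
        rw [← D.ker]
        exact hx1
      obtain ⟨y, hy, hyx⟩ := hx2
      have hyx' : y = x := Subtype.ext hyx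
      rw [← hyx']
      exact hy
    · apply Subgroup.normalClosure_le_normal
      rintro _ ⟨o, rfl⟩
      apply Subtype.ext
      exact hcj (gg o) (jj o)

end

end Q62
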