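import Mathlib

/-!
# Fields which are finitely generated as rings are finite
-/

namespace Q62

/-- The ring of integers is a Jacobson ring. -/
theorem isJacobsonRing_int : IsJacobsonRing ℤ := by
  rw [isJacobsonRing_iff_prime_eq]
  intro P hP
  by_cases h : P = ⊥
  · subst h
    refine le_antisymm ?_ bot_le
    intro x hx
    rw [Ideal.mem_jacobson_bot] at hx
    have h1 := hx x
    rw [Int.isUnit_iff] at h1
    have h2 : x = 0 := by
      rcases h1 with h1 | h1
      · have : x * x = 0 := by linarith
        exact mul_self_eq_zero.mp this
      · nlinarith [mul_self_nonneg x]
    simp [h2]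
  · have hm : P.IsMaximal := hP.isMaximal h
    exact Ideal.jacobson_eq_self_of_isMaximal

/-- A field which is finitely generated as a ring is finite.

Proof. `ℤ` is a Jacobson ring, so `K` is a finite `ℤ`-module
(`finite_of_finite_type_of_isJacobsonRing`). If `K` had characteristic zero then `ℤ → K` is injective and
integral, so `ℤ` would be a field (`isField_of_isIntegral_of_isField`), which is false
(`Int.not_isField`). So the characteristic is `p > 0`; `K` is a finitely generated abelian group killed by
`p`, that is a finite-dimensional vector space over `ZMod p`, hence finite. -/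
theorem finite_of_ft (K : Type) [Field K] [Algebra.FiniteType ℤ K] : Finite K := by
  have hJ : IsJacobsonRing ℤ := isJacobsonRing_int
  have hfin : Module.Finite ℤ K := finite_of_finite_type_of_isJacobsonRing ℤ K
  obtain ⟨p, hp⟩ := CharP.exists K
  rcases Nat.eq_zero_or_pos p with h0 | h0
  · subst h0
    have hc : CharZero K := CharP.charP_to_charZero K
    have hinj : Function.Injective (algebraMap ℤ K) := RingHom.injective_int _
    exact absurd (isField_of_isIntegral_of_isField hinj (Field.toIsField K)) Int.not_isField
  · have : NeZero p := ⟨h0.ne'⟩
    let : Algebra (ZMod p) K := ZMod.algebra K p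
    have : Module.Finite (ZMod p) K := Module.Finite.of_restrictScalars_finite ℤ (ZMod p) K
    exact Module.finite_of_finite (ZMod p)

end Q62
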