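import Pool.Agent.W_04c03c_h62q.QLa

/-!
# Nonzero elements of finitely generated domains survive in finite fields
-/

namespace Q62

private theorem QLb_finite_of_ft (K : Type) [Field K] (inst : Algebra ℤ K)
    (h : @Algebra.FiniteType ℤ K _ _ inst) : Finite K := by
  have e : inst = Ring.toIntAlgebra K := Subsingleton.elim _ _
  subst e
  exact finite_of_ft K

/-- Nonzero elements of finitely generated domains survive in finite fields.

Proof. The localization `S' = Localization.Away a` is finitely generated over `S`
(`IsLocalization.finiteType` or `Localization.Away` finite type), so over `ℤ`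
(`Algebra.FiniteType.trans`), and nontrivial because `a` is not nilpotent. Let `M` be a maximal ideal of `S'`
and `k = S' ⧸ M`, a field which is finitely generated as a ring, so finite by `finite_of_ft`. `φ` is
`S → S' → k`; `a` is a unit in `S'`, so `φ a` is a unit of `k`. -/
theorem exists_finite_field (S : Type) [CommRing S] [IsDomain S] [Algebra.FiniteType ℤ S] (a : S)
    (ha : a ≠ 0) : ∃ (k : Type) (_ : Field k) (_ : Finite k) (φ : S →+* k), φ a ≠ 0 := by
  let S' := Localization.Away a
  have h1 : Algebra.FiniteType S S' :=
    IsLocalization.finiteType_of_monoid_fg (Submonoid.powers a) S'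
  have h2 : Algebra.FiniteType ℤ S' := Algebra.FiniteType.trans (S := S) inferInstance h1
  have h3 : Nontrivial S' := by
    have hle : Submonoid.powers a ≤ nonZeroDivisors S := by
      rintro x ⟨n, rfl⟩
      exact mem_nonZeroDivisors_of_ne_zero (pow_ne_zero n ha)
    exact (IsLocalization.injective S' hle).nontrivial
  obtain ⟨M, hM⟩ := Ideal.exists_maximal S'
  have h4 : Algebra.FiniteType ℤ (S' ⧸ M) :=
    Algebra.FiniteType.of_surjective (Ideal.Quotient.mkₐ ℤ M) (Ideal.Quotient.mkₐ_surjective ℤ M)
  have hfin : Finite (S' ⧸ M) := @QLb_finite_of_ft (S' ⧸ M) (Ideal.Quotient.field M) _ h4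
  let _ : Field (S' ⧸ M) := Ideal.Quotient.field M
  refine ⟨S' ⧸ M, inferInstance, hfin, (Ideal.Quotient.mk M).comp (algebraMap S S'), ?_⟩
  have hu : IsUnit (algebraMap S S' a) :=
    IsLocalization.map_units S' (⟨a, Submonoid.mem_powers a⟩ : Submonoid.powers a)
  have := hu.map (Ideal.Quotient.mk M)
  exact this.ne_zero

end Q62
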