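import Mathlib

/-!
# The entries of a finitely generated linear group
-/

namespace Q62

/-- The entries of the matrices of a finitely generated linear group lie in a finitely generated ring.

Proof. `Q` is generated by a finite set `T` (`Group.fg_def`). Let `S` be the subring
(`Algebra.adjoin ℤ` of the finite set of all entries of the matrices `f t` and `f t⁻¹`, `t ∈ T`). The set of
the `q : Q` such that all entries of `f q` and `f q⁻¹` lie in `S` is a subgroup containing `T`, so it is
everything (`Subgroup.closure_induction`). `Algebra.FiniteType ℤ S` (`Subalgebra.fg_adjoin_finset`,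
`Subalgebra.fg_iff_finiteType`). -/
theorem exists_subring {Q : Type} [Group Q] [Group.FG Q] {K : Type} [Field K] {n : ℕ}
    (f : Q →* GL (Fin n) K) : ∃ S : Subalgebra ℤ K, Algebra.FiniteType ℤ S ∧
      ∀ (q : Q) (i j : Fin n), (f q).1 i j ∈ S := by
  classical
  obtain ⟨T, hT⟩ := (Group.fg_def.1 (inferInstance : Group.FG Q))
  let E : Finset K := T.biUnion fun t =>
    (Finset.univ.image fun p : Fin n × Fin n => (f t).1 p.1 p.2) ∪
    (Finset.univ.image fun p : Fin n × Fin n => (f t⁻¹).1 p.1 p.2)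
  let S : Subalgebra ℤ K := Algebra.adjoin ℤ (E : Set K)
  have hS : Algebra.FiniteType ℤ S :=
    S.fg_iff_finiteType.1 (Subalgebra.fg_adjoin_finset E)
  have hE : ∀ t ∈ T, ∀ i j, (f t).1 i j ∈ S ∧ (f t⁻¹).1 i j ∈ S := by
    intro t ht i j
    refine ⟨Algebra.subset_adjoin ?_, Algebra.subset_adjoin ?_⟩
    · refine Finset.mem_coe.2 (Finset.mem_biUnion.2 ⟨t, ht, Finset.mem_union_left _ ?_⟩)
      exact Finset.mem_image.2 ⟨(i, j), Finset.mem_univ _, rfl⟩
    · refine Finset.mem_coe.2 (Finset.mem_biUnion.2 ⟨t, ht, Finset.mem_union_right _ ?_⟩)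
      exact Finset.mem_image.2 ⟨(i, j), Finset.mem_univ _, rfl⟩
  have hmul : ∀ a b : Q, (∀ i j, (f a).1 i j ∈ S) → (∀ i j, (f b).1 i j ∈ S) →
      ∀ i j, (f (a * b)).1 i j ∈ S := by
    intro a b ha hb i j
    have h1 : (f (a * b)).1 = (f a).1 * (f b).1 := by
      rw [map_mul]
      rfl
    rw [h1, Matrix.mul_apply]
    exact Subalgebra.sum_mem _ fun l _ => Subalgebra.mul_mem _ (ha i l) (hb l j)
  have hone : ∀ i j, (f (1 : Q)).1 i j ∈ S := by
    intro i j
    have h1 : (f (1 : Q)).1 = 1 := by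
      rw [map_one]
      rfl
    rw [h1, Matrix.one_apply]
    split_ifs
    · exact Subalgebra.one_mem _
    · exact Subalgebra.zero_mem _
  have hall : ∀ q ∈ Subgroup.closure (T : Set Q),
      (∀ i j, (f q).1 i j ∈ S) ∧ ∀ i j, (f q⁻¹).1 i j ∈ S := by
    intro q hq
    induction hq using Subgroup.closure_induction with
    | mem t ht => exact ⟨fun i j => (hE t ht i j).1, fun i j => (hE t ht i j).2⟩
    | one =>
      refine ⟨hone, ?_⟩
      rw [inv_one]
      exact hone
    | mul a b _ _ ha hb =>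
      refine ⟨hmul a b ha.1 hb.1, ?_⟩
      rw [mul_inv_rev]
      exact hmul b⁻¹ a⁻¹ hb.2 ha.2
    | inv a _ ha =>
      refine ⟨ha.2, ?_⟩
      rw [inv_inv]
      exact ha.1
  refine ⟨S, hS, fun q i j => (hall q ?_).1 i j⟩
  rw [hT]
  trivial

end Q62
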