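import Pool.Agent.W_04c03c_h62q.QLb
import Pool.Agent.W_04c03c_h62q.QLc0

/-!
# Finitely generated linear groups are residually finite (Malcev)
-/

namespace Q62

/-- a homomorphism to a finite group can be replaced by one to a permutation group -/
theorem QLc_perm {Q G : Type} [Group Q] [Group G] [Finite G] (F : Q →* G) :
    ∃ (m : ℕ) (h : Q →* Equiv.Perm (Fin m)), ∀ q, h q = 1 ↔ F q = 1 := by
  let e : G ≃ Fin (Nat.card G) := Finite.equivFin G
  refine ⟨Nat.card G, ((e.permCongrHom : Equiv.Perm G →* Equiv.Perm (Fin (Nat.card G))).comp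
    (MulAction.toPermHom G G)).comp F, fun q => ?_⟩
  constructor
  · intro h
    have h1 : e.permCongrHom (MulAction.toPermHom G G (F q)) = 1 := h
    rw [map_eq_one_iff _ e.permCongrHom.injective] at h1
    have h2 := congrArg (fun σ : Equiv.Perm G => σ 1) h1
    simpa using h2
  · intro h
    show e.permCongrHom (MulAction.toPermHom G G (F q)) = 1
    rw [h, map_one, map_one]

/-- A homomorphism to a finite group which does not kill a given element.

Proof. Let `S` be as in `exists_subring`. Every `f q` is the image of an element `f' q` of `GL (Fin n) S`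
(the entries of `f q` and of `f q⁻¹` are in `S`; the two matrices over `S` are inverse to each other because
`S → K` is injective), and `f' : Q →* GL (Fin n) S` is a homomorphism (injectivity again). As `f g ≠ 1`
there are `i, j` with `a = (f' g) i j - 1 i j ≠ 0` in `S`. `exists_finite_field` gives `φ : S →+* k` with
`φ a ≠ 0`, `k` finite. Then `h' = (Matrix.GeneralLinearGroup.map φ).comp f' : Q →* GL (Fin n) k` has
`h' g ≠ 1`, and `f q = 1` implies `f' q = 1`, `h' q = 1`. The group `GL (Fin n) k` is finite, so it embeds into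
`Equiv.Perm (Fin m)` by the regular representation (`MulAction.toPermHom`, injective, and
`Finite.equivFin`, `Equiv.permCongrHom`; see `rich_of_large` in `W_04c03c_h62/Rich.lean`). -/
theorem malcev {Q : Type} [Group Q] [Group.FG Q] {K : Type} [Field K] {n : ℕ}
    (f : Q →* GL (Fin n) K) (g : Q) (hg : f g ≠ 1) :
    ∃ (m : ℕ) (h : Q →* Equiv.Perm (Fin m)), h g ≠ 1 ∧ ∀ q, f q = 1 → h q = 1 := by
  classical
  obtain ⟨S, hft, hS⟩ := exists_subring f
  let F : Q →* Matrix (Fin n) (Fin n) S :=
    { toFun := fun q => Matrix.of fun i j => (⟨(f q).1 i j, hS q i j⟩ : S)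
      map_one' := by
        ext i j
        show (f 1).1 i j = _
        rw [map_one, Units.val_one, Matrix.one_apply, Matrix.one_apply]
        split_ifs <;> rfl
      map_mul' := fun a b => by
        ext i j
        show (f (a * b)).1 i j = _
        rw [map_mul, Units.val_mul, Matrix.mul_apply, Matrix.mul_apply]
        rw [AddSubmonoidClass.coe_finsetSum]
        rfl }
  have hF : ∀ q, F q = 1 ↔ f q = 1 := by
    intro q
    constructor
    · intro h
      ext i j
      have h1 := congrArg (fun M : Matrix (Fin n) (Fin n) S => (M i j : K)) h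
      have h2 : (f q).1 i j = (((1 : Matrix (Fin n) (Fin n) S) i j : S) : K) := h1
      rw [h2, Units.val_one, Matrix.one_apply, Matrix.one_apply]
      split_ifs <;> rfl
    · intro h
      ext i j
      show (f q).1 i j = _
      rw [h, Units.val_one, Matrix.one_apply, Matrix.one_apply]
      split_ifs <;> rfl
  have hne : F g ≠ 1 := fun h => hg ((hF g).1 h)
  obtain ⟨i, j, hij⟩ : ∃ i j, (F g) i j ≠ (1 : Matrix (Fin n) (Fin n) S) i j := by
    by_contra hcon
    push Not at hcon
    exact hne (Matrix.ext hcon)
  obtain ⟨k, hk, hkf, φ, hφ⟩ := exists_finite_field S _ (sub_ne_zero.2 hij)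
  let H : Q →* Matrix (Fin n) (Fin n) k := (φ.mapMatrix : Matrix (Fin n) (Fin n) S →+*
    Matrix (Fin n) (Fin n) k).toMonoidHom.comp F
  obtain ⟨m, h, hh⟩ := QLc_perm (H.toHomUnits)
  refine ⟨m, h, fun h1 => ?_, fun q hq => ?_⟩
  · rw [hh] at h1
    have h2 : H g = 1 := congrArg Units.val h1
    have h3 : φ (F g i j) = (1 : Matrix (Fin n) (Fin n) k) i j :=
      congrArg (fun M : Matrix (Fin n) (Fin n) k => M i j) h2
    apply hφ
    rw [map_sub, h3, Matrix.one_apply, Matrix.one_apply]
    split_ifs <;> simp
  · rw [hh]
    ext1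
    show H q = 1
    show φ.mapMatrix (F q) = 1
    rw [(hF q).2 hq, map_one]

end Q62
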