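import Pool.Agent.W_04c03c_h62q.QLd0
import Pool.Agent.W_04c03c_h62q.QLc

/-!
# Rich linear representations give rich finite quotients
-/

namespace Q62

theorem QLd2_mul_mem {G : Type} [Group G] (A : Subgroup G) (h : A.index ≤ 2) (h0 : A.index ≠ 0)
    (x y : G) : x * y ∈ A ↔ (x ∈ A ↔ y ∈ A) := by
  have h1 : A.index = 1 ∨ A.index = 2 := by omega
  rcases h1 with h1 | h1
  · rw [Subgroup.index_eq_one.mp h1]
    simp
  · exact Subgroup.mul_mem_iff_of_index_two h1

theorem QLd2_finite (Q : Type) [Group Q] [Group.FG Q] :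
    Finite {A : Subgroup Q // A.index ≤ 2 ∧ A.index ≠ 0} := by
  obtain ⟨T, hT⟩ := (Group.fg_def.1 (inferInstance : Group.FG Q))
  refine Finite.of_injective (β := T → Prop) (fun A t => (t : Q) ∈ A.1) ?_
  intro A B hAB
  have h1 : ∀ q ∈ Subgroup.closure (T : Set Q), (q ∈ A.1 ↔ q ∈ B.1) := by
    intro q hq
    induction hq using Subgroup.closure_induction with
    | mem t ht => exact iff_of_eq (congrFun hAB ⟨t, ht⟩)
    | one => simp
    | mul a b _ _ ha hb =>
      rw [QLd2_mul_mem A.1 A.2.1 A.2.2, QLd2_mul_mem B.1 B.2.1 B.2.2, ha, hb]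
    | inv a _ ha => rw [inv_mem_iff, inv_mem_iff, ha]
  refine Subtype.ext (Subgroup.ext fun q => h1 q ?_)
  rw [hT]
  trivial

/-- Proof. Let `f : Q →* GL (Fin n) K` be as in `HasRichRep`, and suppose that `Q` has no rich quotient:
every homomorphism `h : Q →* Equiv.Perm (Fin m)` has in its range a commutative subgroup of index at most
two (and not zero, as the range is finite). Let `𝒜` be the set of the subgroups `A` of `f.range` with
`A.index = 1` or `A.index = 2`; it is finite, because `f.range` is finitely generated and such subgroups are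
kernels of homomorphisms to `Multiplicative (ZMod 2)`, determined on the generators (or:
`A.index ≤ 2` means `A` is normal and is the kernel of the map to the group `f.range ⧸ A` with at most two
elements; the map `A ↦ {generators in A}` is injective on `𝒜`: if `x ∈ A` is decided for all generators then
for all elements, because for `A` of index at most two `x * y ∈ A ↔ (x ∈ A ↔ y ∈ A)`,
`Subgroup.mul_mem_iff_of_index_two`). By assumption every `A ∈ 𝒜` contains `a, b` with `a * b ≠ b * a`;
choose `a = f x`, `b = f y` and by `malcev` for `g = x * y * x⁻¹ * y⁻¹` (`f g ≠ 1`) a homomorphism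
`h_A : Q →* Equiv.Perm (Fin (m A))` with `h_A g ≠ 1` and `f q = 1 → h_A q = 1`. The product of the finitely
many `h_A` is a homomorphism `h` to a finite group, embedded in a group `Equiv.Perm (Fin m)`, still with
`f q = 1 → h q = 1`, so `h = h' ∘ f` on `f.range` (`f.range ≅ Q ⧸ f.ker`). Let `B` be a commutative subgroup
of index at most two of `h.range`; its preimage `A` in `f.range` (under `f.range → h.range`, onto) has the
same index, so `A ∈ 𝒜`; the images of `a, b ∈ A` (chosen for this `A`) in `B` do not commute, because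
`h (x * y * x⁻¹ * y⁻¹) ≠ 1`: its component `h_A` is not trivial. Contradiction. -/
theorem rich_of_rep {Q : Type} [Group Q] [Group.FG Q] (h : HasRichRep Q) : HasRichQuotient Q := by
  classical
  obtain ⟨K, hK, n, f, hf⟩ := h
  have hfin := QLd2_finite Q
  have key : ∀ A : {A : Subgroup Q // A.index ≤ 2 ∧ A.index ≠ 0},
      ∃ (x y : Q) (m : ℕ) (h : Q →* Equiv.Perm (Fin m)), x ∈ A.1 ∧ y ∈ A.1 ∧
        h (x * y * x⁻¹ * y⁻¹) ≠ 1 := by
    intro A
    have hd : (A.1.map f.rangeRestrict).index ∣ A.1.index :=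
      Subgroup.index_map_dvd A.1 f.rangeRestrict_surjective
    have h1 : (A.1.map f.rangeRestrict).index ≤ 2 :=
      (Nat.le_of_dvd (Nat.pos_of_ne_zero A.2.2) hd).trans A.2.1
    have h2 : (A.1.map f.rangeRestrict).index ≠ 0 := fun h0 =>
      A.2.2 (by rw [h0] at hd; exact Nat.eq_zero_of_zero_dvd hd)
    obtain ⟨a, ha, b, hb, hab⟩ := hf _ h1 h2
    obtain ⟨x, hx, rfl⟩ := ha
    obtain ⟨y, hy, rfl⟩ := hb
    have h3 : f (x * y * x⁻¹ * y⁻¹) ≠ 1 := by
      intro h4
      apply hab
      ext1
      show f x * f y = f y * f x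
      rw [map_mul, map_mul, map_mul, map_inv, map_inv] at h4
      rw [mul_inv_eq_one, mul_inv_eq_iff_eq_mul] at h4
      exact h4
    obtain ⟨m, h, h5, _⟩ := malcev f _ h3
    exact ⟨x, y, m, h, hx, hy, h5⟩
  choose x y m h hx hy hne using key
  let H : Q →* ((A : {A : Subgroup Q // A.index ≤ 2 ∧ A.index ≠ 0}) → Equiv.Perm (Fin (m A))) :=
    MonoidHom.pi h
  obtain ⟨N, F, hF⟩ := QLc_perm H
  refine ⟨N, F, fun B hB => ?_⟩
  have hB0 : B.index ≠ 0 := Subgroup.index_ne_zero_of_finite
  have hi : (B.comap F.rangeRestrict).index = B.index :=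
    Subgroup.index_comap_of_surjective B F.rangeRestrict_surjective
  let A : {A : Subgroup Q // A.index ≤ 2 ∧ A.index ≠ 0} :=
    ⟨B.comap F.rangeRestrict, by rw [hi]; exact hB, by rw [hi]; exact hB0⟩
  refine ⟨F.rangeRestrict (x A), hx A, F.rangeRestrict (y A), hy A, fun hc => ?_⟩
  apply hne A
  have h1 : F (x A * y A * (x A)⁻¹ * (y A)⁻¹) = 1 := by
    have h2 : F (x A) * F (y A) = F (y A) * F (x A) := congrArg Subtype.val hc
    rw [map_mul, map_mul, map_mul, map_inv, map_inv, h2, mul_inv_cancel_right, mul_inv_cancel]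
  have h2 := (hF _).1 h1
  exact congrFun h2 A

end Q62
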