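import Pool.Agent.W_04c03c_h62.Rich

/-!
# Linear representations with rich image
-/

namespace Q62

/-- Some linear representation of `Q` over a field has an image without commutative subgroup of index
at most two. -/
def HasRichRep (Q : Type) [Group Q] : Prop :=
  ∃ (K : Type) (_ : Field K) (n : ℕ) (f : Q →* GL (Fin n) K),
    ∀ A : Subgroup f.range, A.index ≤ 2 → A.index ≠ 0 → ∃ a ∈ A, ∃ b ∈ A, a * b ≠ b * a

end Q62
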