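import Pool.Agent.W_04c03c_h62q.QLd0

/-!
# Rich finite quotients give rich linear representations
-/

namespace Q62

/-- The permutation representation of the symmetric group over the rationals. -/
noncomputable def QLd1_perm (n : ℕ) : Equiv.Perm (Fin n) →* GL (Fin n) ℚ :=
  MonoidHom.toHomUnits (Matrix.permMatrixHom (R := ℚ) (n := Fin n))

theorem QLd1_perm_injective (n : ℕ) : Function.Injective (QLd1_perm n) := by
  intro σ τ h
  have h1 : (QLd1_perm n σ : Matrix (Fin n) (Fin n) ℚ) = (QLd1_perm n τ : Matrix (Fin n) (Fin n) ℚ) := by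
    rw [h]
  have h2 : (Equiv.Perm.permMatrix ℚ σ⁻¹) = (Equiv.Perm.permMatrix ℚ τ⁻¹) := h1
  have h3 : (σ⁻¹).toPEquiv = (τ⁻¹).toPEquiv := PEquiv.toMatrix_injective h2
  have h4 : σ⁻¹ = τ⁻¹ := by
    refine Equiv.ext fun x => ?_
    have := congrArg (fun e : Fin n ≃. Fin n => e x) h3
    simpa [Equiv.toPEquiv_apply] using this
  exact inv_injective h4

/-- Proof. Let `f : Q →* Equiv.Perm (Fin n)` be as in `HasRichQuotient`. Compose with the injective
homomorphism `Equiv.Perm (Fin n) →* GL (Fin n) ℚ` (permutation matrices; for instance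
`Matrix.GeneralLinearGroup` of the linear automorphisms `LinearEquiv.funCongrLeft`, or
`Units.map`/`MonoidHom.toHomUnits` of `σ ↦ (σ⁻¹.toPEquiv.toMatrix : Matrix (Fin n) (Fin n) ℚ)` or of
`Equiv.Perm.permMatrix`-like maps; check the order of composition). The range of the composition is isomorphic to
`f.range` by an injective homomorphism (`MonoidHom.range_comp`, `Subgroup.equivMapOfInjective`), and the
condition on subgroups of index at most two is transported by the isomorphism
(`Subgroup.index_comap_of_surjective`). -/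
theorem rep_of_rich {Q : Type} [Group Q] (h : HasRichQuotient Q) : HasRichRep Q := by
  obtain ⟨n, f, hf⟩ := h
  refine ⟨ℚ, inferInstance, n, (QLd1_perm n).comp f, ?_⟩
  intro A hA _
  have hmem : ∀ x : f.range, QLd1_perm n (x : Equiv.Perm (Fin n)) ∈ ((QLd1_perm n).comp f).range := by
    rintro ⟨x, g, rfl⟩
    exact ⟨g, rfl⟩
  let e : f.range →* ((QLd1_perm n).comp f).range :=
    ((QLd1_perm n).comp f.range.subtype).codRestrict _ hmem
  have he : Function.Surjective e := by
    rintro ⟨y, g, rfl⟩
    exact ⟨⟨f g, g, rfl⟩, rfl⟩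
  have hi : Function.Injective e := by
    intro x y hxy
    have h1 := congrArg (Subtype.val) hxy
    exact Subtype.ext (QLd1_perm_injective n h1)
  obtain ⟨a, ha, b, hb, hab⟩ := hf (A.comap e) (by
    rw [Subgroup.index_comap_of_surjective A he]; exact hA)
  refine ⟨e a, ha, e b, hb, ?_⟩
  rw [← map_mul, ← map_mul]
  exact fun h => hab (hi h)

end Q62
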