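import Pool.Agent.W_04c03c_h62q.QLd

/-!
# Linear representations with rich image, in terms of the subgroups of the group
-/

namespace Q62

/-- Some linear representation `f` of `Q` over a field has an image without commutative subgroup of
index at most two: on every subgroup of `Q` of index at most two the image under `f` is not
commutative. -/
def RichRep (Q : Type) [Group Q] : Prop :=
  ∃ (K : Type) (_ : Field K) (n : ℕ) (f : Q →* Matrix (Fin n) (Fin n) K),
    ∀ B : Subgroup Q, B.index ≤ 2 → B.index ≠ 0 → ∃ a ∈ B, ∃ b ∈ B, f (a * b) ≠ f (b * a)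

theorem richRep_iff (Q : Type) [Group Q] : RichRep Q ↔ HasRichRep Q := by
  constructor
  · rintro ⟨K, _, n, f, hf⟩
    refine ⟨K, inferInstance, n, MonoidHom.toHomUnits f, ?_⟩
    intro A hA hA0
    have hs : Function.Surjective (MonoidHom.toHomUnits f).rangeRestrict :=
      MonoidHom.rangeRestrict_surjective _
    have hi : (A.comap (MonoidHom.toHomUnits f).rangeRestrict).index = A.index :=
      Subgroup.index_comap_of_surjective A hs
    obtain ⟨a, ha, b, hb, hab⟩ := hf (A.comap (MonoidHom.toHomUnits f).rangeRestrict)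
      (by rw [hi]; exact hA) (by rw [hi]; exact hA0)
    refine ⟨_, ha, _, hb, fun h => hab ?_⟩
    rw [← map_mul, ← map_mul] at h
    exact congrArg (fun x : (MonoidHom.toHomUnits f).range =>
      ((x : (Matrix (Fin n) (Fin n) K)ˣ) : Matrix (Fin n) (Fin n) K)) h
  · rintro ⟨K, _, n, f, hf⟩
    refine ⟨K, inferInstance, n, (Units.coeHom _).comp f, ?_⟩
    intro B hB hB0
    have hs : Function.Surjective f.rangeRestrict := MonoidHom.rangeRestrict_surjective _
    have hd : (B.map f.rangeRestrict).index ∣ B.index := Subgroup.index_map_dvd B hs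
    have h1 : (B.map f.rangeRestrict).index ≠ 0 := fun h => hB0 (by
      rw [h] at hd
      exact Nat.eq_zero_of_zero_dvd hd)
    have h2 : (B.map f.rangeRestrict).index ≤ 2 :=
      (Nat.le_of_dvd (Nat.pos_of_ne_zero hB0) hd).trans hB
    obtain ⟨_, ⟨a, ha, rfl⟩, _, ⟨b, hb, rfl⟩, hab⟩ := hf _ h2 h1
    refine ⟨a, ha, b, hb, fun h => hab ?_⟩
    rw [← map_mul, ← map_mul]
    apply Subtype.ext
    exact Units.ext h

end Q62
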