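import Pool.Agent.W_04c03c_h62q.QAbs
import Pool.Agent.W_04c03c_h62s.SNonB
import Pool.Agent.W_04c03c_h62s.SNonC

/-!
# Crossed homomorphisms from the half lives inequality
-/

namespace Q62

open MulAction

section
variable {Γ : Type} [Group Γ] {Ξ : Type} [MulAction Γ Ξ] {F : Type} [Field F] {ε : Γ →* ℤˣ}

/-- A crossed homomorphism for `χ` or `χ⁻¹ * ε` which is not principal and vanishes on the `R j`. -/
theorem HalfIneq.exists_nonprin (hh : HalfIneq Γ Ξ ε)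
    (hst : ∀ ξ : Ξ, IsTor Γ ξ → ∀ k ∈ stabilizer Γ ξ, ε k = 1)
    (χ : Γ →* Fˣ) {J : Type} [Finite J] (η : J → Ξ) (R : J → Γ)
    (hfix : ∀ j, R j • η j = η j) (hz : ∀ j, IsTor Γ (η j))
    (hne : ∀ j j', j ≠ j' → η j ∉ orbit Γ (η j')) (ξ : Ξ) (hzξ : IsTor Γ ξ)
    (hun : ∀ j, ξ ∉ orbit Γ (η j)) (hχξ : ∀ k ∈ stabilizer Γ ξ, χ k = 1)
    (hχR : ∀ j, χ (R j) = 1) :
    (∃ d ∈ XHom χ, (∀ j, d (R j) = 0) ∧ d ∉ Prin χ) ∨
      ∃ d ∈ XHom (χ⁻¹ * sgnF ε F), (∀ j, d (R j) = 0) ∧ d ∉ Prin (χ⁻¹ * sgnF ε F) := by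
  classical
  let J1 : Type := {j : J // ∀ k ∈ stabilizer Γ (η j), χ k = 1}
  let x : Option J1 → Ξ := fun o => o.elim ξ fun j => η j.1
  have hχ : ∀ i, ∀ k ∈ stabilizer Γ (x i), χ k = 1 := by
    rintro (_ | j)
    · exact hχξ
    · exact j.2
  have hz' : ∀ i, IsTor Γ (x i) := by
    rintro (_ | j)
    · exact hzξ
    · exact hz j.1
  have hne' : ∀ i j, i ≠ j → x i ∉ orbit Γ (x j) := by
    rintro (_ | i) (_ | j) hij
    · exact absurd rfl hij
    · exact hun j.1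
    · intro h
      exact hun i.1 (mem_orbit_symm.1 h)
    · exact hne i.1 j.1 fun h => hij (congrArg some (Subtype.ext h))
  obtain ⟨hfd, -⟩ := Hs_Z2 (Γ := Γ) F x hz'
  have heps : ∀ (ζ : Ξ) (k : Γ), IsTor Γ ζ → k ∈ stabilizer Γ ζ → sgnF ε F k = 1 :=
    fun ζ k hζ hk => sgnF_one (hst ζ hζ k hk)
  have hχ' : ∀ i, ∀ k ∈ stabilizer Γ (x i), (χ⁻¹ * sgnF ε F) k = 1 := by
    intro i k hk
    rw [MonoidHom.mul_apply, MonoidHom.inv_apply, hχ i k hk, heps (x i) k (hz' i) hk]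
    simp
  have h1 := hh.le (F := F) χ x hz' hne' hχ hχ'
  have hcard : Nat.card (Option J1) = Nat.card J1 + 1 := Finite.card_option
  rw [hcard] at h1
  by_cases hA : Nat.card J1 + 1 ≤ Module.finrank F (LinearMap.range (resX χ x hχ))
  · left
    refine nonprin_stepB (χ := χ) (χ' := χ) η R hfix hz hχR ?_ (fun j : J1 => j.1) ?_ hχ hA
    · intro j hj
      push Not at hj
      exact hj
    · intro j hj
      exact ⟨⟨j, hj⟩, rfl⟩
  · right
    have hB : Nat.card J1 + 1 ≤ Module.finrank F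
        (LinearMap.range (resX (χ⁻¹ * sgnF ε F) x hχ')) := by
      omega
    refine nonprin_stepB (χ := χ) (χ' := χ⁻¹ * sgnF ε F) η R hfix hz ?_ ?_ (fun j : J1 => j.1) ?_
      hχ' hB
    · intro j
      rw [MonoidHom.mul_apply, MonoidHom.inv_apply, hχR j, heps (η j) (R j) (hz j) (hfix j)]
      simp
    · intro j hj
      push Not at hj
      obtain ⟨k, hk, hk1⟩ := hj
      refine ⟨k, hk, ?_⟩
      rw [MonoidHom.mul_apply, MonoidHom.inv_apply, heps (η j) k (hz j) hk, mul_one]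
      intro h
      exact hk1 (inv_eq_one.1 h)
    · intro j hj
      exact ⟨⟨j, hj⟩, rfl⟩

/-- Homomorphisms vanishing on the `R j`, which stay independent on the stabilizers. -/
theorem HalfIneq.exists_homs (hh : HalfIneq Γ Ξ ε) (he : sgnF ε F = 1) {J : Type} [Finite J]
    (η : J → Ξ) (R : J → Γ) (hfix : ∀ j, R j • η j = η j) (hz : ∀ j, IsTor Γ (η j))
    (hne : ∀ j j', j ≠ j' → η j ∉ orbit Γ (η j')) {r : ℕ} (x : Fin r → Ξ)
    (hxz : ∀ i, IsTor Γ (x i))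
    (hxne : ∀ i i', i ≠ i' → x i ∉ orbit Γ (x i')) (hun : ∀ i j, x i ∉ orbit Γ (η j)) :
    ∃ f : Fin r → (Additive Γ →+ F), LinearIndependent F f ∧
      ∀ i j, f i (Additive.ofMul (R j)) = 0 := by
  have hzz : ∀ i, IsTor Γ (Sum.elim x η i) := by
    rintro (i | j)
    · exact hxz i
    · exact hz j
  have hfin : FiniteDimensional F (Hs Γ F (Sum.elim x η)) := (Hs_Z2 F (Sum.elim x η) hzz).1
  have hcard : Nat.card (Fin r ⊕ J) = r + Nat.card J := by
    rw [Nat.card_sum, Nat.card_fin]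
  have hχ : ∀ i, ∀ k ∈ stabilizer Γ (Sum.elim x η i), (1 : Γ →* Fˣ) k = 1 := fun _ _ _ => rfl
  have hnee : ∀ i j, i ≠ j → Sum.elim x η i ∉ orbit Γ (Sum.elim x η j) := by
    rintro (i | j) (i' | j') hij
    · exact hxne i i' (fun h => hij (by rw [h]))
    · exact hun i j'
    · intro h
      exact hun i' j (MulAction.mem_orbit_symm.1 h)
    · exact hne j j' (fun h => hij (by rw [h]))
  have h1 : (1 : Γ →* Fˣ)⁻¹ * sgnF ε F = 1 := by
    rw [he]
    ext g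
    simp
  have hχ' : ∀ i, ∀ k ∈ stabilizer Γ (Sum.elim x η i),
      ((1 : Γ →* Fˣ)⁻¹ * sgnF ε F) k = 1 := by
    intro i k _
    rw [h1]
    rfl
  have hrk := hh.le (F := F) 1 (Sum.elim x η) hzz hnee hχ hχ'
  have heq : Module.finrank F (LinearMap.range (resX ((1 : Γ →* Fˣ)⁻¹ * sgnF ε F)
      (Sum.elim x η) hχ')) =
      Module.finrank F (LinearMap.range (resX (1 : Γ →* Fˣ) (Sum.elim x η) hχ)) :=
    SNonC_congr h1 _ _ _
  rw [heq, hcard] at hrk
  obtain ⟨d, hd0, hdi⟩ := exists_vanishing (1 : Γ →* Fˣ) (Sum.elim x η) hχ Sum.inr R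
    (fun j => hfix j) (k := r) (by omega)
  refine ⟨fun i => SNonC_hom (d i), ?_, fun i j => hd0 i j⟩
  let ρ : (Additive Γ →+ F) →ₗ[F] Hs Γ F (Sum.elim x η) :=
    { toFun := fun f i => f.comp (MonoidHom.toAdditive (stabilizer Γ (Sum.elim x η i)).subtype)
      map_add' := fun _ _ => rfl
      map_smul' := fun _ _ => rfl }
  refine LinearIndependent.of_comp ρ ?_
  have h2 : (ρ ∘ fun i => SNonC_hom (d i)) = fun i => resX 1 (Sum.elim x η) hχ (d i) := rfl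
  rw [h2]
  exact hdi

end

end Q62
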