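import Pool.Agent.W_04c03c_h62q.QFill
import Pool.Agent.W_04c03c_h62q.QNon
import Pool.Agent.W_04c03c_h62s.SMain

/-!
# Partial fillings: the theorem in abstract form
-/

namespace Q62

open MulAction

section
variable {Γ : Type} [Group Γ] {Ξ : Type} [MulAction Γ Ξ] {Q : Type} [Group Q] {ε : Γ →* ℤˣ}
  {T : HT Ξ}

theorem isTor_smul {ξ : Ξ} (hz : IsTor Γ ξ) (g : Γ) : IsTor Γ (g • ξ) := z2_smul hz g

theorem isTor_res {ξ : Ξ} (hz : IsTor Γ ξ) (N : Subgroup Γ) [N.FiniteIndex] : IsTor N ξ :=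
  z2_res hz N (finiteIndex_stab _ _)

theorem Fill.map_R (D : Fill Γ Ξ Q) (j : D.J) : D.π (D.R j) = 1 := by
  have h1 : D.R j ∈ D.π.ker := by
    rw [D.ker]
    exact Subgroup.subset_normalClosure ⟨j, rfl⟩
  exact h1

/-- A nonzero homomorphism to `ℚ` which vanishes on the stabilizer of an unfilled point implies
largeness. -/
theorem Fill.large (hT : T.P Γ ε) (D : Fill Γ Ξ Q) (hfg : Group.FG Q) (hfp : FPFree Q)
    (ξ : Ξ) (hz : IsTor Γ ξ)
    (hun : ∀ j, ξ ∉ orbit Γ (D.η j)) (φ : Additive Q →+ ℚ) (hφ : φ ≠ 0)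
    (hk : ∀ k : Γ, k • ξ = ξ → φ (Additive.ofMul (D.π k)) = 0) : IsLarge Q := by
  obtain ⟨ψ, hψ, hker⟩ := exists_surj_int (fun g : Q => φ (Additive.ofMul g))
    (fun g h => by rw [ofMul_mul, map_add]) (by
      by_contra hcon
      push Not at hcon
      exact hφ (AddMonoidHom.ext fun g => hcon g.toMul))
  have hst : ∀ k ∈ stabilizer Γ ξ, ((chiT ψ).comp D.π) k = 1 := by
    intro k hk'
    have h1 : ψ (D.π k) = 1 := hker _ (hk k hk')
    rw [MonoidHom.comp_apply, chiT_apply, h1]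
    simp
  have hR : ∀ j, ((chiT ψ).comp D.π) (D.R j) = 1 := by
    intro j
    rw [MonoidHom.comp_apply, D.map_R, map_one]
  have := D.fin
  haveI : CharP LF 2 := LF_char_two
  have hprin : ∀ (χ : Q →* LFˣ) (d : Γ → LF) (d' : Q → LF), (∀ g, d' (D.π g) = d g) →
      d ∉ Prin (χ.comp D.π) → d' ∉ Prin χ := by
    rintro χ d d' hdd hd ⟨m, hm⟩
    exact hd ⟨m, fun g => by rw [← hdd, hm]; rfl⟩
  rcases (T.half hT).exists_nonprin (T.stab hT) ((chiT ψ).comp D.π) D.η D.R D.fix D.z2 D.ineq ξ hz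
    hun hst hR with ⟨d, hd, hdR, hn⟩ | ⟨d, hd, hdR, hn⟩
  · obtain ⟨d', hd', hdd⟩ := descend D.π D.surj D.R D.ker (chiT ψ) hd hdR
    exact large_of_nonprin hfg hfp ψ hψ hd' (hprin _ d d' hdd hn)
  · have he : ((chiT ψ).comp D.π)⁻¹ * sgnF ε LF = (chiT ψ⁻¹).comp D.π := by
      rw [sgnF_two ε LF, ← inv_chiT]
      refine MonoidHom.ext fun g => ?_
      rw [MonoidHom.mul_apply, MonoidHom.one_apply, mul_one]
      rfl
    rw [he] at hd hn
    obtain ⟨d', hd', hdd⟩ := descend D.π D.surj D.R D.ker (chiT ψ⁻¹) hd hdR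
    have hψ' : Function.Surjective (ψ⁻¹ : Q →* Multiplicative ℤ) := by
      intro n
      obtain ⟨g, hg⟩ := hψ n⁻¹
      exact ⟨g, by rw [MonoidHom.inv_apply, hg, inv_inv]⟩
    exact large_of_nonprin hfg hfp ψ⁻¹ hψ' hd' (hprin _ d d' hdd hn)

/-- Homomorphisms of a subgroup of a partial filling from its unfilled points. -/
theorem Fill.homs (hT : T.P Γ ε) (D : Fill Γ Ξ Q) (N : Subgroup Q) [N.FiniteIndex] {r : ℕ}
    (x : Fin r → Ξ) (hxz : ∀ i, IsTor Γ (x i))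
    (hxne : ∀ i i', i ≠ i' → x i ∉ orbit (N.comap D.π) (x i'))
    (hun : ∀ i j, x i ∉ orbit Γ (D.η j)) :
    ∃ N' : Subgroup Q, N'.FiniteIndex ∧
      ∃ f : Fin r → (Additive N' →+ ℚ), LinearIndependent ℚ f := by
  have hker : D.π.ker ≤ ε.ker := by
    rw [D.ker]
    refine Subgroup.normalClosure_le_normal ?_
    rintro _ ⟨j, rfl⟩
    exact T.stab hT (D.η j) (D.z2 j) (D.R j) (D.fix j)
  obtain ⟨eps', heps'⟩ : ∃ eps' : Q →* ℤˣ, ∀ g, eps' (D.π g) = ε g := by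
    refine ⟨D.π.liftOfSurjective D.surj ⟨ε, hker⟩, fun g => ?_⟩
    exact MonoidHom.liftOfRightInverse_comp_apply D.π _ _ ⟨ε, hker⟩ g
  have hfi : eps'.ker.FiniteIndex := by
    constructor
    rw [Subgroup.index_ker]
    exact Nat.card_pos.ne'
  let N' : Subgroup Q := N ⊓ eps'.ker
  have hN' : N'.FiniteIndex := inferInstance
  obtain ⟨D', -, hD'⟩ := D.sub N'
  have hM := finiteIndex_comap D.π D.surj N'
  have hle : N'.comap D.π ≤ N.comap D.π := Subgroup.comap_mono inf_le_left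
  have he : sgnF (ε.comp (N'.comap D.π).subtype) ℚ = 1 := by
    refine MonoidHom.ext fun g => sgnF_one ?_
    have h1 : ε (g : Γ) = 1 := by
      rw [← heps']
      exact g.2.2
    exact h1
  have hsm : ∀ a b : Ξ, a ∈ orbit (N'.comap D.π) b → a ∈ orbit (N.comap D.π) b := by
    rintro a b ⟨g, hg⟩
    exact ⟨⟨g.1, hle g.2⟩, hg⟩
  have hsm2 : ∀ a b : Ξ, a ∈ orbit (N'.comap D.π) b → a ∈ orbit Γ b := by
    rintro a b ⟨g, hg⟩
    exact ⟨g.1, hg⟩
  have := D'.fin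
  obtain ⟨f, hf, hfR⟩ := (T.half (T.sub hT _ hM)).exists_homs he D'.η D'.R D'.fix D'.z2
    D'.ineq x (fun i => isTor_res (hxz i) _)
    (fun i i' hii' h => hxne i i' hii' (hsm _ _ h)) (by
      intro i j' h
      obtain ⟨j, hj⟩ := hD' j'
      obtain ⟨g, hg⟩ := hsm2 _ _ h
      obtain ⟨g', hg'⟩ := hj
      refine hun i j ⟨g * g', ?_⟩
      simp only at hg hg' ⊢
      rw [mul_smul, hg', hg])
  obtain ⟨f', hf'⟩ := descend_homs D'.π D'.surj D'.R D'.ker f hf hfR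
  exact ⟨N', hN', f', hf'⟩

/-- The equivalences for a partial filling. -/
theorem Fill.tfae (hT : T.P Γ ε) (D : Fill Γ Ξ Q) (hfp : Group.IsFinitelyPresented Q)
    (p : ℕ) [Fact p.Prime] (ξ : Ξ) (hz : IsTor Γ ξ) (hun : ∀ j, ξ ∉ orbit Γ (D.η j)) :
    List.TFAE [IsLarge Q,
      ∃ N : Subgroup Q, N.FiniteIndex ∧ ∃ x : Fin 3 → Ξ, (∀ i, IsTor Γ (x i)) ∧
        (∀ i j, x i ∉ orbit Γ (D.η j)) ∧ ∀ i i', i ≠ i' → x i ∉ orbit (N.comap D.π) (x i'),
      ∃ N : Subgroup Q, N.FiniteIndex ∧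
        ∃ f : Fin 3 → (Additive N →+ ℚ), LinearIndependent ℚ f,
      ∃ N : Subgroup Q, N.FiniteIndex ∧
        ∃ f : Fin 4 → (Additive N →+ ZMod p), LinearIndependent (ZMod p) f,
      ∃ N : Subgroup Q, N.FiniteIndex ∧ ∃ ζ : Ξ,
        IsTor Γ ζ ∧ (∀ j, ζ ∉ orbit Γ (D.η j)) ∧
        ∃ φ : Additive N →+ ℚ, φ ≠ 0 ∧
          ∀ (k : Γ) (hk : D.π k ∈ N), k • ζ = ζ → φ (Additive.ofMul ⟨D.π k, hk⟩) = 0,
      HasRichQuotient Q] := by
  have hpt : ∀ N : Subgroup Q, N.FiniteIndex → (∃ g : Fin 3 → Γ,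
      ∀ i j, i ≠ j → g i • ξ ∉ orbit (N.comap D.π) (g j • ξ)) →
      ∃ N : Subgroup Q, N.FiniteIndex ∧ ∃ x : Fin 3 → Ξ,
        (∀ i, IsTor Γ (x i)) ∧
        (∀ i j, x i ∉ orbit Γ (D.η j)) ∧ ∀ i i', i ≠ i' → x i ∉ orbit (N.comap D.π) (x i') := by
    rintro N hN ⟨g, hg⟩
    refine ⟨N, hN, fun i => g i • ξ, fun i => isTor_smul hz (g i), ?_, hg⟩
    rintro i j ⟨k, hk⟩
    refine hun j ⟨(g i)⁻¹ * k, ?_⟩
    simp only at hk ⊢
    rw [mul_smul, hk, inv_smul_smul]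
  tfae_have 1 → 6 := rich_of_large
  tfae_have 6 → 2 := by
    intro h
    obtain ⟨N, hN, g, hg⟩ := three_of_rich h D.π D.surj ξ (z2_comm hz)
    exact hpt N hN ⟨g, hg⟩
  tfae_have 2 → 3 := by
    rintro ⟨N, hN, x, hx, hxu, hxne⟩
    exact D.homs hT N x hx hxne hxu
  tfae_have 3 → 5 := by
    rintro ⟨N, hN, f, hf⟩
    have hM := finiteIndex_comap D.π D.surj N
    obtain ⟨x, y, hxy, hgen, -⟩ := exists_basis_of_Z2
      (z2_res hz (N.comap D.π) (finiteIndex_stab _ _))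
    let π' : N.comap D.π →* N := D.π.subgroupComap N
    obtain ⟨φ, hadd, hx, hy, hne⟩ := exists_kill_two f hf (π' x) (π' y)
    obtain ⟨g0, hg0⟩ := hne
    refine ⟨N, hN, ξ, hz, hun, AddMonoidHom.mk' (fun g => φ g.toMul) (fun g h => hadd _ _), ?_, ?_⟩
    · intro h
      exact hg0 (DFunLike.congr_fun h (Additive.ofMul g0))
    · intro k hk hkξ
      obtain ⟨a, b, hab⟩ := hgen ⟨⟨k, hk⟩, hkξ⟩
      have hab' : (⟨k, hk⟩ : N.comap D.π) = (x : N.comap D.π) ^ a * (y : N.comap D.π) ^ b := by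
        have := congrArg (Subtype.val) hab
        simpa using this
      let φ' : Additive N →+ ℚ := AddMonoidHom.mk' (fun g => φ g.toMul) (fun g h => hadd _ _)
      show φ' (Additive.ofMul (π' ⟨k, hk⟩)) = 0
      have hx' : φ' (Additive.ofMul (π' x)) = 0 := hx
      have hy' : φ' (Additive.ofMul (π' y)) = 0 := hy
      rw [hab', map_mul, map_zpow, map_zpow, ofMul_mul, ofMul_zpow, ofMul_zpow, map_add, map_zsmul,
        map_zsmul, hx', hy', smul_zero, smul_zero, add_zero]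
  tfae_have 5 → 1 := by
    rintro ⟨N, hN, ζ, hzζ, hunζ, φ, hφ, hk⟩
    apply IsLarge.of_finiteIndex N
    obtain ⟨D', hπ, hD'⟩ := D.sub N
    have hM := finiteIndex_comap D.π D.surj N
    refine Fill.large (T.sub hT _ hM) D' (FG_of_FP hfp N) (FPFree.of_finiteIndex hfp N) ζ
      (isTor_res hzζ _) ?_ φ hφ ?_
    · rintro j' ⟨g, hg⟩
      obtain ⟨j, g', hg'⟩ := hD' j'
      refine hunζ j ⟨(g : Γ) * g', ?_⟩
      simp only at hg' ⊢
      rw [mul_smul, hg']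
      exact hg
    · intro k hkζ
      have h1 : D'.π k = ⟨D.π (k : Γ), k.2⟩ := Subtype.ext (hπ k)
      rw [h1]
      exact hk (k : Γ) k.2 hkζ
  tfae_have 1 → 4 := fun h => modp_of_large h p
  tfae_have 4 → 2 := by
    rintro ⟨N, hN, f, hf⟩
    obtain ⟨N', hN', g, hg⟩ := three_of_modp' p D.π D.surj ξ hz N f hf
    exact hpt N' hN' ⟨g, hg⟩
  tfae_finish

/-- The number of unfilled torus points is at most the number of generators of a filling. -/
theorem Fill.le_rank (hT : T.P Γ ε) (D : Fill Γ Ξ Q) [Group.FG Q] {r : ℕ} (x : Fin r → Ξ)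
    (hz : ∀ i, IsTor Γ (x i)) (hxne : ∀ i i', i ≠ i' → x i ∉ orbit Γ (x i'))
    (hun : ∀ i j, x i ∉ orbit Γ (D.η j)) : r ≤ Group.rank Q := by
  have hf2 : CharP (ZMod 2) 2 := inferInstance
  have := D.fin
  obtain ⟨f, hf, hfR⟩ := (T.half hT).exists_homs (F := ZMod 2) (sgnF_two ε (ZMod 2)) D.η D.R D.fix
    D.z2 D.ineq x hz hxne hun
  obtain ⟨f', hf'⟩ := descend_homs D.π D.surj D.R D.ker f hf hfR
  obtain ⟨S, hS, hgen⟩ := Group.rank_spec Q
  let L : (Additive Q →+ ZMod 2) →ₗ[ZMod 2] (S → ZMod 2) :=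
    { toFun := fun φ s => φ (Additive.ofMul (s : Q))
      map_add' := fun _ _ => rfl
      map_smul' := fun _ _ => rfl }
  have hL : Function.Injective L := by
    rw [injective_iff_map_eq_zero]
    intro φ hφ
    refine AddMonoidHom.ext fun g => ?_
    have h1 : g.toMul ∈ Subgroup.closure (S : Set Q) := by rw [hgen]; trivial
    have h2 : ∀ q ∈ Subgroup.closure (S : Set Q), φ (Additive.ofMul q) = 0 := by
      intro q hq
      induction hq using Subgroup.closure_induction with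
      | mem s hs => exact congrFun hφ ⟨s, hs⟩
      | one => rw [ofMul_one, map_zero]
      | mul a b _ _ ha hb => rw [ofMul_mul, map_add, ha, hb, add_zero]
      | inv a _ ha => rw [ofMul_inv, map_neg, ha, neg_zero]
    exact h2 _ h1
  have h3 := (hf'.map' L (LinearMap.ker_eq_bot.2 hL)).fintype_card_le_finrank
  rw [Fintype.card_fin, Module.finrank_fintype_fun_eq_card, Fintype.card_coe, hS] at h3
  exact h3

end

end Q62
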