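import Pool.Agent.W_04c03c_h58.WfF

/-!
# The kernel of the average for the trivial character
-/

namespace Q62

open RCan MulAction

variable {Γ Ξ V : Type*} [Group Γ] [MulAction Γ Ξ] [MulAction Γ V] {sm : V → V → Prop}
  {cusp : V → Option Ξ} {k : Type} [Field k]

/-- the elements `g` which move every `e` by an element of `M` -/
def QOaGrp (hF : WFace Γ Ξ V sm cusp) (n : ℕ) (M : Submodule k (DSub sm cusp k n)) :
    Subgroup Γ where
  carrier := {g | ∀ e : DSub sm cusp k n, trW hF k n g e - e ∈ M}
  one_mem' := by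
    intro e
    rw [trW_one, sub_self]
    exact M.zero_mem
  mul_mem' := by
    intro g h hg hh e
    have h1 : trW hF k n (g * h) e - e =
        (trW hF k n g (trW hF k n h e) - trW hF k n h e) + (trW hF k n h e - e) := by
      rw [trW_mul]
      abel
    rw [h1]
    exact M.add_mem (hg _) (hh _)
  inv_mem' := by
    intro g hg e
    have h1 : trW hF k n g⁻¹ e - e = -(trW hF k n g (trW hF k n g⁻¹ e) - trW hF k n g⁻¹ e) := by
      rw [← trW_mul, mul_inv_cancel, trW_one]
      abel
    rw [h1]
    exact M.neg_mem (hg _)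

/-- The kernel of the average is contained in every submodule which contains all `s • e - e`, for `s`
in a generating set.

Proof. Suppose `f ∉ M`. There is a linear functional `Ψ : DSub sm cusp k n →ₗ[k] k` which vanishes on `M`
and not at `f` (`Submodule.exists_le_ker_of_notMem`, or `Submodule.exists_dual_map_eq_bot_of_notMem`, or a
complement). The set of the `g : Γ` with `trW hF k n g e - e ∈ M` for all `e` is a subgroup:
`trW (g * h) e - e = (trW g (trW h e) - trW h e) + (trW h e - e)` (`trW_mul`), for the inverse take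
`e' = trW g⁻¹ e`: `trW g e' - e' = e - trW g⁻¹ e`; it contains `S`, so it is everything
(`Subgroup.closure_le` or `Subgroup.closure_induction`). So `Ψ (trW g e) = Ψ e` for all `g, e`, and `avF_ker`
(`WfF.lean`, with `χ = 1`) gives `Ψ f = 0`, a contradiction. -/
theorem mem_of_av_zero (hF : WFace Γ Ξ V sm cusp) (hT : TFree Γ) (n : ℕ)
    (M : Submodule k (DSub sm cusp k n)) (S : Set Γ) (hS : Subgroup.closure S = ⊤)
    (hM : ∀ s ∈ S, ∀ e : DSub sm cusp k n, trW hF k n s e - e ∈ M) {f : DSub sm cusp k n}
    (hf : avF hF (1 : Γ →* kˣ) n f = 0) : f ∈ M := by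
  by_contra hfM
  obtain ⟨Ψ, h1, h2⟩ := Submodule.exists_le_ker_of_notMem hfM
  have h3 : QOaGrp hF n M = ⊤ := by
    rw [eq_top_iff, ← hS, Subgroup.closure_le]
    exact hM
  refine h1 (avF_ker hF hT (1 : Γ →* kˣ) n Ψ ?_ hf)
  intro g e
  have h4 : g ∈ QOaGrp hF n M := by
    rw [h3]
    exact Subgroup.mem_top g
  have h5 : Ψ (trW hF k n g e - e) = 0 := h2 (h4 e)
  rw [map_sub, sub_eq_zero] at h5
  rw [h5]
  simp

end Q62
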