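import Pool.Agent.W_04c03c_h58.WfE

/-!
# Cochains of finite support are not invariant under an element of infinite order
-/

namespace Q62

open RCan MulAction

variable {Γ Ξ V : Type*} [Group Γ] [MulAction Γ Ξ] [MulAction Γ V] {sm : V → V → Prop}
  {cusp : V → Option Ξ} {k : Type} [Field k]

/-- Proof. Suppose `f.1 l ≠ 0` for a list `l`. `f.1 (l.map (y⁻¹ • ·)) = f.1 l` for all `l` (`trW_coe`,
`tr_apply`), so `f.1 (l.map ((y ^ i)⁻¹ • ·)) ≠ 0` for all `i : ℕ` by induction (`map_smul_smul`). The support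
of `f.1` is finite (`f.2.fin`), so two different `i, j` give the same list (`Set.infinite_of_injective_forall_mem`
or `Finite.exists_ne_map_eq_of_infinite`); `l` has a head `v` (`f.2.len`: length `n + 1`), so
`(y ^ i)⁻¹ • v = (y ^ j)⁻¹ • v`, `(y ^ j * (y ^ i)⁻¹) • v = v`, and `hF.free` gives `y ^ j = y ^ i`,
contradicting `hy`. -/
theorem trW_fix_zero (hF : WFace Γ Ξ V sm cusp) {y : Γ} (hy : ∀ n : ℤ, y ^ n = 1 → n = 0) {n : ℕ}
    {f : DSub sm cusp k n} (h : trW hF k n y f = f) : f = 0 := by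
  apply Subtype.ext
  funext l
  by_contra hl
  have hl : f.1 l ≠ 0 := hl
  have h1 : ∀ l : List V, f.1 (l.map (fun x => y⁻¹ • x)) = f.1 l := by
    intro l
    have h2 := congrArg (fun e => e.1 l) h
    simp only [trW_coe, tr_apply] at h2
    exact h2
  have h2 : ∀ i : ℕ, f.1 (l.map (fun x => (y ^ i)⁻¹ • x)) = f.1 l := by
    intro i
    induction i with
    | zero => rw [pow_zero, inv_one, map_one_smul]
    | succ i ih =>
      rw [← ih, ← h1 (l.map (fun x => (y ^ i)⁻¹ • x)), map_smul_smul, pow_succ, mul_inv_rev]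
  have hne : ∀ i : ℕ, l.map (fun x => (y ^ i)⁻¹ • x) ∈ Function.support f.1 := by
    intro i
    rw [Function.mem_support, h2]
    exact hl
  obtain ⟨i, j, hij, he⟩ := Set.Finite.exists_lt_map_eq_of_forall_mem
    (f := fun i : ℕ => l.map (fun x => (y ^ i)⁻¹ • x)) hne f.2.fin
  have hlen := f.2.len l hl
  obtain ⟨v, l', rfl⟩ : ∃ v l', l = v :: l' := by
    cases l with
    | nil => simp at hlen
    | cons v l' => exact ⟨v, l', rfl⟩
  have hv : (y ^ i)⁻¹ • v = (y ^ j)⁻¹ • v := by
    have h3 : ((v :: l').map (fun x => (y ^ i)⁻¹ • x)).head? =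
        ((v :: l').map (fun x => (y ^ j)⁻¹ • x)).head? := by
      rw [show (v :: l').map (fun x => (y ^ i)⁻¹ • x) =
        (v :: l').map (fun x => (y ^ j)⁻¹ • x) from he]
    simpa using h3
  have h4 : (y ^ j * (y ^ i)⁻¹) • v = v := by
    rw [mul_smul, hv, smul_inv_smul]
  have h5 := hF.free _ _ h4
  have h6 : y ^ ((j : ℤ) - i) = 1 := by
    rw [zpow_sub, zpow_natCast, zpow_natCast]
    exact h5
  have h7 := hy _ h6
  omega

end Q62
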