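import Pool.Agent.W_04c03c_h58.WfE

/-!
# Averages over an infinite cyclic group
-/

namespace Q62

open RCan MulAction

variable {Γ Ξ V : Type*} [Group Γ] [MulAction Γ Ξ] [MulAction Γ V] {sm : V → V → Prop}
  {cusp : V → Option Ξ} {k : Type} [Field k]

/-- The average over `⟨y⟩` of a cochain of finite support vanishes if it is invariant under a commuting
independent element `x`.

Proof. Put `w = av (1 : Subgroup.zpowers y →* kˣ) b.1`. Suppose `w l ≠ 0`. Then `w (l.map ((x ^ i) • ·)) ≠ 0`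
for all `i : ℕ` (induction with `hw`, `map_smul_smul`). If `w l' ≠ 0` some term of the sum is not zero, so
`b.1 (l'.map (g⁻¹ • ·)) ≠ 0` for some `g : Subgroup.zpowers y` (`AlgE_ex` in `AlgE.lean`, applied to the group
`Subgroup.zpowers y`; the action of a subgroup is by coercion, `Subgroup.smul_def`). So for each `i` there is
`g i ∈ zpowers y` with `b.1 (l.map (((g i)⁻¹ * x ^ i) • ·)) ≠ 0`. The support of `b.1` is finite, so for two
different `i, j : ℕ` the lists are equal; `l` has a head `v` (length `n + 1` by `b.2.len`), so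
`((g i)⁻¹ * x ^ i) • v = ((g j)⁻¹ * x ^ j) • v` and by `hF.free` `(g i)⁻¹ * x ^ i = (g j)⁻¹ * x ^ j`; with
`g i = y ^ a`, `g j = y ^ b` this gives `x ^ (i - j) * y ^ (b - a) = 1` (they commute by `hxy`,
`Commute.zpow_zpow`), so `i = j` by `hind`, a contradiction. -/
theorem av_zero_of_inv (hF : WFace Γ Ξ V sm cusp) {x y : Γ} (hxy : x * y = y * x)
    (hind : ∀ a b : ℤ, x ^ a * y ^ b = 1 → a = 0 ∧ b = 0) {n : ℕ} (b : DSub sm cusp k n)
    (hw : ∀ l : List V, av (1 : Subgroup.zpowers y →* kˣ) b.1 (l.map (fun v => x • v)) =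
      av (1 : Subgroup.zpowers y →* kˣ) b.1 l) :
    av (1 : Subgroup.zpowers y →* kˣ) b.1 = 0 := by
  funext l
  rw [Pi.zero_apply]
  by_contra hne
  have hit : ∀ i : ℕ, av (1 : Subgroup.zpowers y →* kˣ) b.1 (l.map (fun v => (x ^ i) • v)) ≠ 0 := by
    intro i
    induction i with
    | zero => simpa using hne
    | succ i ih =>
      have h1 : l.map (fun v => x ^ (i + 1) • v) =
          (l.map (fun v => x ^ i • v)).map (fun v => x • v) := by
        rw [map_smul_smul, pow_succ']
      rw [h1, hw]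
      exact ih
  have hex : ∀ i : ℕ, ∃ a : ℤ, b.1 (l.map (fun v => (y ^ a * x ^ i) • v)) ≠ 0 := by
    intro i
    obtain ⟨g, hg⟩ := AlgE_ex _ (hit i)
    obtain ⟨a, ha⟩ := Subgroup.mem_zpowers_iff.1 (g⁻¹).2
    refine ⟨a, ?_⟩
    have h2 : (l.map (fun v => x ^ i • v)).map (fun v => g⁻¹ • v) =
        l.map (fun v => (y ^ a * x ^ i) • v) := by
      rw [← map_smul_smul]
      congr 1
      funext v
      rw [ha]
      rfl
    rwa [h2] at hg
  choose a ha using hex
  obtain ⟨v, t, rfl⟩ : ∃ v t, l = v :: t := by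
    cases l with
    | nil =>
      exfalso
      have := b.2.len _ (ha 0)
      simp at this
    | cons v t => exact ⟨v, t, rfl⟩
  have hnotinj : ¬ Function.Injective
      (fun i : ℕ => (v :: t).map (fun w => (y ^ a i * x ^ i) • w)) := by
    intro hinj
    have h1 := b.2.fin.preimage hinj.injOn
    have huniv : (fun i : ℕ => (v :: t).map (fun w => (y ^ a i * x ^ i) • w)) ⁻¹'
        (Function.support b.1) = Set.univ := by
      ext i
      simp only [Set.mem_preimage, Function.mem_support, Set.mem_univ, iff_true]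
      exact ha i
    exact Set.infinite_univ (huniv ▸ h1)
  obtain ⟨i, j, hij, hne'⟩ := Function.not_injective_iff.1 hnotinj
  simp only [List.map_cons, List.cons.injEq] at hij
  have h3 : ((y ^ a j * x ^ j)⁻¹ * (y ^ a i * x ^ i)) • v = v := by
    rw [mul_smul, hij.1, inv_smul_smul]
  have h4 := hF.free _ _ h3
  rw [inv_mul_eq_one] at h4
  have hc : Commute x y := hxy
  have c1 : x ^ (j : ℤ) * y ^ a j = y ^ a j * x ^ (j : ℤ) := (hc.zpow_zpow (j : ℤ) (a j)).eq
  have c2 : x ^ (i : ℤ) * y ^ a i = y ^ a i * x ^ (i : ℤ) := (hc.zpow_zpow (i : ℤ) (a i)).eq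
  have h4' : y ^ a j * x ^ (j : ℤ) = y ^ a i * x ^ (i : ℤ) := by
    rw [zpow_natCast, zpow_natCast]
    exact h4
  have h5 : x ^ ((j : ℤ) - i) * y ^ (a j - a i) = 1 := by
    have e1 : x ^ ((j : ℤ) - i) = x ^ (-(i : ℤ)) * x ^ (j : ℤ) := by
      rw [← zpow_add]
      congr 1
      ring
    have e2 : y ^ (a j - a i) = y ^ a j * y ^ (-(a i)) := by
      rw [← zpow_add]
      congr 1
    calc x ^ ((j : ℤ) - i) * y ^ (a j - a i)
        = x ^ (-(i : ℤ)) * (x ^ (j : ℤ) * y ^ a j) * y ^ (-(a i)) := by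
          rw [e1, e2]
          simp only [mul_assoc]
      _ = x ^ (-(i : ℤ)) * (x ^ (i : ℤ) * y ^ a i) * y ^ (-(a i)) := by
          rw [c1, h4', ← c2]
      _ = 1 := by
          rw [zpow_neg, zpow_neg]
          group
  have h6 := (hind _ _ h5).1
  omega

end Q62
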