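import Pool.Agent.W_04c03c_h58.WfE

/-!
# Averages and translations
-/

namespace Q62

open RCan MulAction

variable {Γ Ξ V : Type*} [Group Γ] [MulAction Γ Ξ] [MulAction Γ V] {sm : V → V → Prop}
  {cusp : V → Option Ξ} {k : Type} [Field k]

/-- The average over `⟨y⟩` commutes with translation by an element `x` which commutes with `y`.

Proof. `av 1 (tr x b) l = ∑ᶠ g, 1 * b (l.map (x⁻¹ • g⁻¹ • ·))` and `x⁻¹ * g⁻¹ = g⁻¹ * x⁻¹` for `g ∈ zpowers y`
(`map_smul_smul`; `Commute`). Termwise equality. -/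
theorem av_tr_comm {x y : Γ} (hxy : x * y = y * x) (b : List V → k) (l : List V) :
    av (1 : Subgroup.zpowers y →* kˣ) (tr x b) l =
      av (1 : Subgroup.zpowers y →* kˣ) b (l.map (fun v => x⁻¹ • v)) := by
  unfold av
  refine finsum_congr fun g => ?_
  have hg : x * (g : Γ) = g * x := by
    obtain ⟨n, hn⟩ := Subgroup.mem_zpowers_iff.1 g.2
    rw [← hn]
    exact (Commute.zpow_right (show Commute x y from hxy) n).eq
  have h1 : (l.map (fun v => g⁻¹ • v)).map (fun v => x⁻¹ • v) =
      (l.map (fun v => x⁻¹ • v)).map (fun v => g⁻¹ • v) := by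
    rw [List.map_map, List.map_map]
    refine List.map_congr_left fun v _ => ?_
    simp only [Function.comp, Subgroup.smul_def, Subgroup.coe_inv]
    rw [← mul_smul, ← mul_smul, ← mul_inv_rev, ← mul_inv_rev, hg]
  rw [tr_apply, h1]

end Q62
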