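import Pool.Agent.W_04c03c_h62q.QOa
import Pool.Agent.W_04c03c_h62q.QOb1
import Pool.Agent.W_04c03c_h62q.QOb2
import Pool.Agent.W_04c03c_h62q.QOb3

/-!
# Exactness of the Koszul complex
-/

namespace Q62

open RCan MulAction

variable {Γ Ξ V : Type*} [Group Γ] [MulAction Γ Ξ] [MulAction Γ V] {sm : V → V → Prop}
  {cusp : V → Option Ξ} {k : Type} [Field k]

theorem QOb_gen (y : Γ) :
    Subgroup.closure ({⟨y, Subgroup.mem_zpowers y⟩} : Set (Subgroup.zpowers y)) = ⊤ := by
  rw [eq_top_iff]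
  rintro ⟨g, hg⟩ -
  obtain ⟨m, rfl⟩ := Subgroup.mem_zpowers_iff.1 hg
  have h1 : (⟨y ^ m, hg⟩ : Subgroup.zpowers y) =
      (⟨y, Subgroup.mem_zpowers y⟩ : Subgroup.zpowers y) ^ m := by
    apply Subtype.ext
    simp
  rw [h1]
  exact Subgroup.zpow_mem _ (Subgroup.subset_closure (Set.mem_singleton _)) m

theorem QOb_tfree (hT : TFree Γ) (y : Γ) : TFree (Subgroup.zpowers y) := by
  intro g n hn h
  apply Subtype.ext
  refine hT g.1 n hn ?_
  have := congrArg Subtype.val h
  simpa using this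

/-- Exactness of the Koszul complex of two commuting independent elements in the middle.

Proof. Let `Z = Subgroup.zpowers y`, `hZ = hF.sub Z : WFace Z Ξ V sm cusp` (the type `DSub sm cusp k n` does
not depend on the group and `trW hZ k n ⟨y, _⟩ e = trW hF k n y e` by `rfl`, the action of `Z` is by
coercion). Put `w = av (1 : Z →* kˣ) b.1`. (1) `av 1 (tr y c - c) = 0`: by `avF_trW hZ` (`WfE.lean`, `χ = 1`)
`avF hZ 1 n (trW hZ k n ⟨y, _⟩ c - c) = 0`. So by `h` (linearity of `avF hZ 1 n`)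
`av 1 (tr x b.1) = av 1 b.1`, i.e. by `av_tr_comm` `w (l.map (x⁻¹ • ·)) = w l` for all `l`, hence
`w (l.map (x • ·)) = w l` (replace `l` by `l.map (x • ·)`). `av_zero_of_inv` gives `w = 0`, i.e.
`avF hZ 1 n b = 0` (`Subtype.ext`, `avF_coe`). (2) `mem_of_av_zero hZ` (torsion-free subgroup: `TFree Z` from
`hT`) with `M` the range of the linear map `e ↦ trW hF k n y e - e` and `S = {⟨y, _⟩}` (it generates `Z`:
`Subgroup.closure` of a singleton, every element of `Z` is a power of `y`) gives `d` with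
`b = trW y d - d`. (3) `trW x b - b = trW y (trW x d - d) - (trW x d - d)` (`trW_mul` and `hxy`), so
`c' = c - (trW x d - d)` satisfies `trW y c' = c'` and `trW_fix_zero` (`y` has infinite order by `hind` with
`a = 0`) gives `c' = 0`. -/
theorem koszul (hF : WFace Γ Ξ V sm cusp) (hT : TFree Γ) {x y : Γ} (hxy : x * y = y * x)
    (hind : ∀ a b : ℤ, x ^ a * y ^ b = 1 → a = 0 ∧ b = 0) {n : ℕ} (b c : DSub sm cusp k n)
    (h : trW hF k n x b - b = trW hF k n y c - c) :
    ∃ d : DSub sm cusp k n, b = trW hF k n y d - d ∧ c = trW hF k n x d - d := by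
  classical
  let Z : Subgroup Γ := Subgroup.zpowers y
  have hZ : WFace Z Ξ V sm cusp := hF.sub Z
  let y' : Z := ⟨y, Subgroup.mem_zpowers y⟩
  have htr : ∀ e : DSub sm cusp k n, trW hZ k n y' e = trW hF k n y e := fun e => rfl
  -- (1) the average of `b`
  have h1 : avF hZ (1 : Z →* kˣ) n (trW hZ k n y' c - c) = 0 := by
    rw [map_sub, avF_trW hZ (1 : Z →* kˣ) n y' c]
    simp
  have h2 : avF hZ (1 : Z →* kˣ) n (trW hF k n x b - b) = 0 := by
    rw [h, ← htr c]
    exact h1
  have h3 : av (1 : Z →* kˣ) (tr x b.1) = av (1 : Z →* kˣ) b.1 := by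
    rw [map_sub, sub_eq_zero] at h2
    have h4 := congrArg Subtype.val h2
    exact h4
  have hw : ∀ l : List V, av (1 : Subgroup.zpowers y →* kˣ) b.1 (l.map (fun v => x • v)) =
      av (1 : Subgroup.zpowers y →* kˣ) b.1 l := by
    intro l
    have h4 := congrFun h3 (l.map (fun v => x • v))
    have h5 := av_tr_comm hxy b.1 (l.map (fun v => x • v))
    have h6 : (l.map (fun v => x • v)).map (fun v => x⁻¹ • v) = l := by
      rw [map_smul_smul, inv_mul_cancel]
      exact map_one_smul l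
    rw [h6] at h5
    exact h4.symm.trans h5
  have h7 : av (1 : Subgroup.zpowers y →* kˣ) b.1 = 0 := av_zero_of_inv hF hxy hind b hw
  have h8 : avF hZ (1 : Z →* kˣ) n b = 0 := Subtype.ext h7
  -- (2)
  let D : DSub sm cusp k n →ₗ[k] DSub sm cusp k n := trW hF k n y - LinearMap.id
  have h9 : b ∈ LinearMap.range D := by
    refine mem_of_av_zero hZ (QOb_tfree hT y) n (LinearMap.range D) {y'} (QOb_gen y) ?_ h8
    intro s hs e
    rw [Set.mem_singleton_iff.1 hs, htr]
    exact ⟨e, rfl⟩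
  obtain ⟨d, hd⟩ := h9
  have hd' : b = trW hF k n y d - d := hd.symm
  refine ⟨d, hd', ?_⟩
  -- (3)
  have hc : ∀ e : DSub sm cusp k n, trW hF k n x (trW hF k n y e) = trW hF k n y (trW hF k n x e) := by
    intro e
    rw [← trW_mul, ← trW_mul, hxy]
  have h10 : trW hF k n y (c - (trW hF k n x d - d)) = c - (trW hF k n x d - d) := by
    rw [map_sub, map_sub]
    have h11 : trW hF k n y c = trW hF k n x b - b + c := by rw [h]; abel
    rw [h11, hd', map_sub, hc]
    abel
  have hy : ∀ m : ℤ, y ^ m = 1 → m = 0 := by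
    intro m hm
    exact (hind 0 m (by rw [zpow_zero, one_mul, hm])).2
  have h12 := trW_fix_zero hF hy h10
  exact sub_eq_zero.1 h12

end Q62
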