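import Pool.Agent.W_04c03c_h62q.QOc0

/-!
# The class of a cusp in degree one is not zero
-/

namespace Q62

open RCan MulAction

variable {Γ Ξ V : Type*} [Group Γ] [MulAction Γ Ξ] [MulAction Γ V] {sm : V → V → Prop}
  {cusp : V → Option Ξ} {k : Type} [Field k]

/-- As `AlgH_const`, for `WFace`. -/
theorem QOc2_const (hF : WFace Γ Ξ V sm cusp) (F : V → k) (h : ∀ x y, sm x y → F x = F y) (x y : V) :
    F x = F y := by
  obtain ⟨rk, ps, hd⟩ := hF.dis
  have hex : ∀ (n : ℕ) (v : V), rk v ≤ n → ∃ v₀, rk v₀ = 0 ∧ F v = F v₀ := by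
    intro n
    induction n with
    | zero =>
      intro v hv
      exact ⟨v, Nat.le_zero.1 hv, rfl⟩
    | succ n ih =>
      intro v hv
      rcases Nat.eq_zero_or_pos (rk v) with h0 | h0
      · exact ⟨v, h0, rfl⟩
      · obtain ⟨h1, h2⟩ := hd.1 v h0
        obtain ⟨v₀, h3, h4⟩ := ih (ps v) (by omega)
        exact ⟨v₀, h3, (h v (ps v) (h2 v (hF.refl v) le_rfl)).trans h4⟩
  obtain ⟨x₀, h1, h2⟩ := hex _ x le_rfl
  obtain ⟨y₀, h3, h4⟩ := hex _ y le_rfl
  rw [h2, h4]
  exact h _ _ (hd.2 x₀ y₀ h1 h3)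

/-- Proof. Let `F v = ind0 k cusp ξ [v] - e.1 [v]`. For `sm v w` the equation at the small list `[v, w]`
(`cr_of_sml`, `hF.refl`, `hF.symm`; `co f [v, w] = f [w] - f [v]`) gives `F v = F w`; so `F` is constant
(`hF.dis`; the proof of `AlgH_const` in `AlgH.lean` with `WFace` instead of `Face`; copy it). Let `v` be in the
cusp `ξ` and `w` in the cusp `η` (`hF.ex`). The lists `[v]`, `[w]` are contained in one cusp, so they are not
relative and `e.1 [v] = 0 = e.1 [w]` (`e.2.1.1.rl`). So `F v = 1` and `F w = 0` (`η ≠ ξ`), a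
contradiction. -/
theorem cr_ind0_ne (hF : WFace Γ Ξ V sm cusp) {ξ η : Ξ} (hne : η ≠ ξ)
    (e : EQf sm cusp (1 : Γ →* kˣ) 0) (he : cr sm e.1 = cr sm (ind0 k cusp ξ)) : False := by
  classical
  have hco : ∀ (f : List V → k) (v w : V), co f [v, w] = f [w] - f [v] := by
    intro f v w
    rw [co_apply, dl_cons, dl_cons, dl_nil, sub_zero]
  have hconst := QOc2_const hF (fun v => ind0 k cusp ξ [v] - e.1 [v]) (by
    intro x y hxy
    have hs : Sml sm [x, y] := by
      intro a ha b hb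
      simp only [List.mem_cons, List.not_mem_nil, or_false] at ha hb
      rcases ha with rfl | rfl <;> rcases hb with rfl | rfl
      · exact hF.refl _
      · exact hxy
      · exact hF.symm _ _ hxy
      · exact hF.refl _
    have h1 := congrFun he [x, y]
    rw [cr_of_sml _ hs, cr_of_sml _ hs, hco, hco] at h1
    linear_combination h1)
  obtain ⟨v, hv⟩ := hF.ex ξ
  obtain ⟨w, hw⟩ := hF.ex η
  have h0 : ∀ (x : V) (ζ : Ξ), cusp x = some ζ → e.1 [x] = 0 := by
    intro x ζ hx
    by_contra hcon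
    apply (e.2.1.1.rl _ hcon).2
    refine ⟨ζ, fun y hy => ?_⟩
    simp only [List.mem_cons, List.not_mem_nil, or_false] at hy
    rw [hy, hx]
  have h1 := hconst v w
  have hiv : ind0 k cusp ξ [v] = 1 := by simp [ind0, hv]
  have hiw : ind0 k cusp ξ [w] = 0 := by simp [ind0, hw, hne]
  simp only [hiv, hiw, h0 v ξ hv, h0 w η hw, sub_zero] at h1
  exact one_ne_zero h1

end Q62
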