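import Pool.Agent.W_04c03c_h58.WfE

/-!
# The indicator function of a cusp
-/

namespace Q62

open RCan MulAction

variable {Γ Ξ V : Type*} [Group Γ] [MulAction Γ Ξ] [MulAction Γ V] {sm : V → V → Prop}
  {cusp : V → Option Ξ} {k : Type} [Field k]

open Classical in
/-- The indicator function of the vertices of the cusp `ξ`, as a cochain of degree zero. -/
noncomputable def ind0 (k : Type) [Field k] (cusp : V → Option Ξ) (ξ : Ξ) : List V → k
  | [v] => if cusp v = some ξ then 1 else 0
  | _ => 0

end Q62
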