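import Pool.Agent.W_04c03c_h62q.QOc0

/-!
# The class of a cusp in degree one
-/

namespace Q62

open RCan MulAction

variable {Γ Ξ V : Type*} [Group Γ] [MulAction Γ Ξ] [MulAction Γ V] {sm : V → V → Prop}
  {cusp : V → Option Ξ} {k : Type} [Field k]

theorem QOc1_len {ξ : Ξ} {l : List V} (h : ind0 k cusp ξ l ≠ 0) : l.length = 1 := by
  match l with
  | [] => exact absurd rfl h
  | [x] => rfl
  | x :: y :: l => exact absurd rfl h

theorem QOc1_co (f : List V → k) (v w : V) : co f [v, w] = f [w] - f [v] := by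
  rw [co_apply, dl_cons, dl_cons, dl_nil, sub_zero]

theorem QOc1_one {ξ : Ξ} {v : V} (h : cusp v = some ξ) : ind0 k cusp ξ [v] = 1 := by
  simp [ind0, h]

theorem QOc1_zero {ξ : Ξ} {v : V} (h : cusp v ≠ some ξ) : ind0 k cusp ξ [v] = 0 := by
  simp [ind0, h]

theorem QOc1_alt (ξ : Ξ) : Alt (ind0 k cusp ξ : List V → k) := by
  have h0 : ∀ l : List V, l.length ≠ 1 → ind0 k cusp ξ l = 0 := by
    intro l hl
    by_contra h
    exact hl (QOc1_len h)
  constructor
  · intro l₁ x y l₂
    rw [h0 _ (by simp only [List.length_append, List.length_cons]; omega),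
      h0 _ (by simp only [List.length_append, List.length_cons]; omega), neg_zero]
  · intro l₁ x l₂
    exact h0 _ (by simp only [List.length_append, List.length_cons]; omega)

theorem QOc1_map (hF : WFace Γ Ξ V sm cusp) {ξ : Ξ} (hst : ∀ g : Γ, g • ξ = ξ) (g : Γ)
    (l : List V) : ind0 k cusp ξ (l.map (fun x => g • x)) = ind0 k cusp ξ l := by
  match l with
  | [] => rfl
  | x :: y :: l => rfl
  | [x] =>
    by_cases h : cusp x = some ξ
    · have h1 : cusp (g • x) = some ξ := by rw [hF.cusp_smul, h, Option.map_some, hst]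
      show ind0 k cusp ξ [g • x] = _
      rw [QOc1_one h, QOc1_one h1]
    · have h1 : cusp (g • x) ≠ some ξ := by
        intro h2
        apply h
        have h3 := hF.cusp_smul g⁻¹ (g • x)
        rw [inv_smul_smul, h2, Option.map_some, hst] at h3
        exact h3
      show ind0 k cusp ξ [g • x] = _
      rw [QOc1_zero h, QOc1_zero h1]

/-- Proof. `EQ`: (alternating) `ind0` is alternating, because lists `l₁ ++ x :: y :: l₂` have length at least
two, and `Alt.cr` (`Inf.lean`); (length, relative) if `cr sm (ind0 k cusp ξ) l ≠ 0` then `Sml sm l` and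
`co (ind0 ..) l ≠ 0`, so some face of `l` has length one (`dl_eq_zero`), `l = [v, w]`, and
`co f [v, w] = f [w] - f [v]`, which is zero if `v, w` are in the same cusp (whatever the cusp), so `l` is
relative; (equivariance) `ind0 (l.map (g • ·)) = ind0 l` for `g : Γ` since `g • ξ = ξ`:
`cusp (g • v) = some ξ ↔ cusp v = some ξ` by `hF.cusp_smul`; then as in `crE` (`AlgE.lean`): `co_map`,
`sml_smul`. Support finite modulo `Γ`: let `F` be the finite set of `hfull`; if
`cr sm (ind0 k cusp ξ) [v, w] ≠ 0` then one of `v, w` is in the cusp `ξ`, and `hfull` gives `g`. -/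
theorem cr_ind0_mem (hF : WFace Γ Ξ V sm cusp) {ξ : Ξ} (hfull : WFull Γ sm cusp ξ)
    (hst : ∀ g : Γ, g • ξ = ξ) :
    cr sm (ind0 k cusp ξ) ∈ EQf sm cusp (1 : Γ →* kˣ) 1 := by
  -- the shape of the support
  have key : ∀ l : List V, cr sm (ind0 k cusp ξ) l ≠ 0 →
      Sml sm l ∧ ∃ v w, l = [v, w] ∧ ind0 k cusp ξ [w] - ind0 k cusp ξ [v] ≠ 0 := by
    intro l hl
    have hs : Sml sm l := by
      by_contra h
      exact hl (by simp [cr, h])
    refine ⟨hs, ?_⟩
    rw [cr_of_sml _ hs] at hl
    have hlen : l.length = 2 := by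
      by_contra hcon
      apply hl
      refine dl_eq_zero l fun l' _ h2 => ?_
      by_contra h3
      have := QOc1_len h3
      omega
    obtain ⟨v, w, rfl⟩ := List.length_eq_two.1 hlen
    rw [QOc1_co] at hl
    exact ⟨v, w, rfl, hl⟩
  have hrl : ∀ l : List V, cr sm (ind0 k cusp ξ) l ≠ 0 → Rl sm cusp l := by
    intro l hl
    obtain ⟨hs, v, w, rfl, h1⟩ := key l hl
    refine ⟨hs, ?_⟩
    rintro ⟨ζ, hζ⟩
    apply h1
    have hv : cusp v = some ζ := hζ v (by simp)
    have hw : cusp w = some ζ := hζ w (by simp)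
    by_cases h2 : ζ = ξ
    · subst h2
      rw [QOc1_one hv, QOc1_one hw, sub_self]
    · have h3 : (some ζ : Option Ξ) ≠ some ξ := fun h => h2 (Option.some.inj h)
      rw [QOc1_zero (hv.trans_ne h3), QOc1_zero (hw.trans_ne h3), sub_self]
  obtain ⟨F, hF1, hF2⟩ := hfull
  refine ⟨⟨⟨(QOc1_alt ξ).cr, ?_, hrl⟩, ?_⟩, F, hF1, ?_⟩
  · intro l hl
    obtain ⟨_, v, w, rfl, _⟩ := key l hl
    rfl
  · intro g l
    unfold cr
    rw [MonoidHom.one_apply, Units.val_one, one_mul]
    by_cases hl : Sml sm l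
    · rw [if_pos hl, if_pos ((sml_smul hF.smul_sm g l).2 hl), co_map]
      have h1 : (fun l' => ind0 k cusp ξ (l'.map (fun x => g • x))) = ind0 k cusp ξ := by
        funext l'
        exact QOc1_map hF hst g l'
      rw [h1]
    · rw [if_neg hl, if_neg (fun h1 => hl ((sml_smul hF.smul_sm g l).1 h1))]
  · intro l hl
    have h0 := hrl l hl
    obtain ⟨_, v, w, rfl, h1⟩ := key l hl
    have h2 : ∃ x ∈ [v, w], cusp x = some ξ := by
      by_contra hcon
      push Not at hcon
      apply h1
      rw [QOc1_zero (hcon v (by simp)), QOc1_zero (hcon w (by simp)), sub_self]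
    obtain ⟨g, _, hg⟩ := hF2 _ h0 h2
    exact ⟨g, hg⟩

end Q62
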