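import Pool.Agent.W_04c03c_h62q.QOb
import Pool.Agent.W_04c03c_h62q.QOc

/-!
# The class in degree three is not zero and fixed by the cusp groups
-/

namespace Q62

open RCan MulAction

variable {Γ Ξ V : Type*} [Group Γ] [MulAction Γ Ξ] [MulAction Γ V] {sm : V → V → Prop}
  {cusp : V → Option Ξ} {k : Type} [Field k]

/-- an auxiliary identity -/
theorem QOd_alg {M : Type*} [AddCommGroup M] [Module k M] (T : M →ₗ[k] M) {d z u w : M} {t : k}
    (ht : t ≠ 0) (hd : d = t • z + u) (hw : w = (T d - d) - (T u - u)) : t⁻¹ • w = T z - z := by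
  have h : w = t • (T z - z) := by
    rw [hw, hd, map_add, map_smul, smul_sub]
    abel
  rw [h, smul_smul, inv_mul_cancel₀ ht, one_smul]

/-- For a group `Γ ≅ ℤ²` which fixes a full cusp, the class `z` is not a coboundary and `Γ` acts trivially
on it.

Proof. Write `X = trW hF k _ x`, `Y = trW hF k _ y`. Let `u = cr sm (ind0 k cusp ξ)`; `cr_ind0_mem` and
`avF_surj hF hT 1 1` give `a : DSub sm cusp k 1` with `(avF hF 1 1 a).1 = u`. `crF (avF a) = avF (crW a)`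
(`crF_avF`) and `cr sm u = 0` (`cr_cr`), so `avF hF 1 2 (crW hF k 1 a) = 0`. `mem_of_av_zero` with `M` the sum
of the ranges of `e ↦ X e - e` and `e ↦ Y e - e` and `S = {x, y}` gives `b, c : DSub sm cusp k 2` with
`crW a = (X b - b) + (Y c - c)` (`Submodule.mem_sup`). Apply `crW` (`crW_crW`, `crW_trW`):
`X (crW b) - crW b = Y (-crW c) - (-crW c)`; `koszul` gives `d : DSub sm cusp k 3` with
`crW b = Y d - d` and `-crW c = X d - d`. Apply `crW` again: `Y (crW d) = crW d`, so `crW d = 0`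
(`trW_fix_zero`). (1) `d` is not a coboundary: suppose `d = crW e'`. Then
`crW (b - (Y e' - e')) = 0` and `crW (c + (X e' - e')) = 0`, so by `exists_crW` (`n = 1`)
`b = (Y e' - e') + crW b₁`, `c = -(X e' - e') + crW c₁`. As `X (Y e') = Y (X e')` (`trW_mul`, `hxy`),
`crW a = crW ((X b₁ - b₁) + (Y c₁ - c₁))`, so `crW (a - (X b₁ - b₁) - (Y c₁ - c₁)) = 0` and by `h1` it is
`crW a₀`, `a₀ : DSub sm cusp k 0`. Since `avF hF 1 1 (X b₁) = avF hF 1 1 b₁` (`avF_trW`), the same for `Y`,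
`avF hF 1 1 a = avF hF 1 1 (crW a₀) = crF hF 1 0 (avF hF 1 0 a₀)`, so `u = cr sm (avF hF 1 0 a₀).1`, and
`cr_ind0_ne` is a contradiction. (2) By `hz'` `d = t • z + crW e`; if `z` were a coboundary or `t = 0`
then `d` would be one. So `t ≠ 0` and `z = t⁻¹ • (d - crW e)`,
`Y z - z = t⁻¹ • (crW b - (Y (crW e) - crW e)) = crW (t⁻¹ • (b - (Y e - e)))`, and
`X z - z = crW (t⁻¹ • (-c - (X e - e)))`. -/
theorem orient (hF : WFace Γ Ξ V sm cusp) (hT : TFree Γ) {x y : Γ} (hxy : x * y = y * x)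
    (hgen : Subgroup.closure {x, y} = ⊤)
    (hind : ∀ a b : ℤ, x ^ a * y ^ b = 1 → a = 0 ∧ b = 0)
    {ξ η : Ξ} (hne : η ≠ ξ) (hfull : WFull Γ sm cusp ξ) (hst : ∀ g : Γ, g • ξ = ξ)
    (h1 : ∀ f : List V → k, IsD sm cusp k 1 f → cr sm f = 0 →
      ∃ e, IsD sm cusp k 0 e ∧ cr sm e = f)
    (z : DSub sm cusp k 3)
    (hz' : ∀ f : DSub sm cusp k 3, crW hF k 3 f = 0 → ∃ (c : k) (e : DSub sm cusp k 2),
      f = c • z + crW hF k 2 e) :
    (¬ ∃ e, crW hF k 2 e = z) ∧ (∃ e, crW hF k 2 e = trW hF k 3 x z - z) ∧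
      ∃ e, crW hF k 2 e = trW hF k 3 y z - z := by
  classical
  obtain ⟨a, ha⟩ := avF_surj (sm := sm) (cusp := cusp) (k := k) hF hT (1 : Γ →* kˣ) 1
    ⟨cr sm (ind0 k cusp ξ), cr_ind0_mem hF hfull hst⟩
  have h0 : avF hF (1 : Γ →* kˣ) 2 (crW hF k 1 a) = 0 := by
    have h2 := crF_avF hF (1 : Γ →* kˣ) 1 a
    rw [ha] at h2
    refine h2.symm.trans ?_
    apply Subtype.ext
    exact cr_cr (sm := sm) (ind0 k cusp ξ)
  obtain ⟨b, c, hbc⟩ : ∃ b c : DSub sm cusp k 2,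
      crW hF k 1 a = (trW hF k 2 x b - b) + (trW hF k 2 y c - c) := by
    have h2 : (crW hF k 1 a : DSub sm cusp k 2) ∈
        LinearMap.range (trW hF k 2 x - LinearMap.id) ⊔
          LinearMap.range (trW hF k 2 y - LinearMap.id) := by
      refine mem_of_av_zero hF hT 2 _ {x, y} hgen ?_ h0
      rintro s hs e
      rcases hs with rfl | hs
      · exact Submodule.mem_sup_left ⟨e, rfl⟩
      · rw [Set.mem_singleton_iff] at hs
        subst hs
        exact Submodule.mem_sup_right ⟨e, rfl⟩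
    obtain ⟨p, ⟨b, hb⟩, q, ⟨c, hc⟩, hpq⟩ := Submodule.mem_sup.1 h2
    refine ⟨b, c, ?_⟩
    rw [← hpq, ← hb, ← hc]
    rfl
  have hcrbc : trW hF k 3 x (crW hF k 2 b) - crW hF k 2 b =
      trW hF k 3 y (-crW hF k 2 c) - (-crW hF k 2 c) := by
    have h2 := crW_crW hF (n := 1) a
    rw [hbc] at h2
    simp only [map_add, map_sub] at h2
    rw [crW_trW, crW_trW] at h2
    rw [map_neg]
    rw [← sub_eq_zero]
    rw [← h2]
    abel
  obtain ⟨d, hd1, hd2⟩ := koszul hF hT hxy hind (crW hF k 2 b) (-crW hF k 2 c) hcrbc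
  have hd : crW hF k 3 d = 0 := by
    refine trW_fix_zero hF (y := y) (fun n hn => (hind 0 n (by rw [zpow_zero, one_mul, hn])).2) ?_
    have h2 := crW_crW hF (n := 2) b
    rw [hd1, map_sub, crW_trW] at h2
    exact sub_eq_zero.1 h2
  have hnd : ¬ ∃ e, crW hF k 2 e = d := by
    rintro ⟨e', he'⟩
    obtain ⟨b₁, hb₁⟩ := exists_crW hF k (n := 1) (Or.inl rfl) (b - (trW hF k 2 y e' - e')) (by
      show crW hF k 2 (b - (trW hF k 2 y e' - e')) = 0
      rw [map_sub, map_sub, crW_trW, he', hd1, sub_self])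
    obtain ⟨c₁, hc₁⟩ := exists_crW hF k (n := 1) (Or.inl rfl) (c + (trW hF k 2 x e' - e')) (by
      show crW hF k 2 (c + (trW hF k 2 x e' - e')) = 0
      rw [map_add, map_sub, crW_trW, he', ← hd2, add_neg_cancel])
    have hXY : trW hF k 2 x (trW hF k 2 y e') = trW hF k 2 y (trW hF k 2 x e') := by
      rw [← trW_mul, ← trW_mul, hxy]
    have hb : b = (trW hF k 2 y e' - e') + crW hF k 1 b₁ := by
      rw [hb₁]
      abel
    have hc : c = -(trW hF k 2 x e' - e') + crW hF k 1 c₁ := by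
      rw [hc₁]
      abel
    have hcr : crW hF k 1 (a - (trW hF k 1 x b₁ - b₁) - (trW hF k 1 y c₁ - c₁)) = 0 := by
      rw [map_sub, map_sub, map_sub, map_sub, crW_trW, crW_trW, hbc, hb, hc]
      simp only [map_add, map_sub, map_neg]
      rw [hXY]
      abel
    obtain ⟨a₀, ha₀, ha₀'⟩ := h1 _ (a - (trW hF k 1 x b₁ - b₁) - (trW hF k 1 y c₁ - c₁)).2
      (congrArg Subtype.val hcr)
    have hav : ∀ (g : Γ) (f : DSub sm cusp k 1),
        avF hF (1 : Γ →* kˣ) 1 (trW hF k 1 g f - f) = 0 := by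
      intro g f
      rw [map_sub, avF_trW, MonoidHom.one_apply, inv_one, one_smul, sub_self]
    have h3 : crF hF (1 : Γ →* kˣ) 0 (avF hF (1 : Γ →* kˣ) 0 ⟨a₀, ha₀⟩) =
        avF hF (1 : Γ →* kˣ) 1 a := by
      rw [crF_avF]
      have h4 : crW hF k 0 ⟨a₀, ha₀⟩ = a - (trW hF k 1 x b₁ - b₁) - (trW hF k 1 y c₁ - c₁) :=
        Subtype.ext ha₀'
      rw [h4]
      show avF hF (1 : Γ →* kˣ) 1 (a - (trW hF k 1 x b₁ - b₁) - (trW hF k 1 y c₁ - c₁)) = _
      rw [map_sub, map_sub, hav, hav, sub_zero, sub_zero]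
    rw [ha] at h3
    exact cr_ind0_ne hF hne (avF hF (1 : Γ →* kˣ) 0 ⟨a₀, ha₀⟩) (congrArg Subtype.val h3)
  obtain ⟨t, e, hte⟩ := hz' d hd
  have ht : t ≠ 0 := by
    rintro rfl
    exact hnd ⟨e, by rw [hte, zero_smul, zero_add]⟩
  refine ⟨?_, ?_, ?_⟩
  · rintro ⟨e'', he''⟩
    exact hnd ⟨t • e'' + e, by rw [map_add, map_smul, he'', ← hte]⟩
  · refine ⟨t⁻¹ • (-c - (trW hF k 2 x e - e)), ?_⟩
    rw [map_smul]
    refine QOd_alg (trW hF k 3 x) ht hte ?_
    rw [map_sub, map_sub, map_neg, crW_trW, hd2]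
  · refine ⟨t⁻¹ • (b - (trW hF k 2 y e - e)), ?_⟩
    rw [map_smul]
    refine QOd_alg (trW hF k 3 y) ht hte ?_
    rw [map_sub, map_sub, crW_trW, hd1]

end Q62
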