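import Pool.Agent.W_04c03c_h62q.QOe

/-!
# The class in degree three over a field, for a torus cusp
-/

namespace Q62

open RCan MulAction

variable {Γ Ξ V : Type} [Group Γ] [MulAction Γ Ξ] [MulAction Γ V] {sm : V → V → Prop}
  {cusp : V → Option Ξ}

/-- The group elements which move the class `z` by a coboundary form a subgroup. -/
theorem QOe1_mem {N Ξ V : Type} [Group N] [MulAction N Ξ] [MulAction N V] {sm : V → V → Prop}
    {cusp : V → Option Ξ} (hF : WFace N Ξ V sm cusp) (k : Type) [Field k] {n : ℕ}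
    (z : DSub sm cusp k (n + 1)) {x y : N}
    (hgen : Subgroup.closure {x, y} = ⊤)
    (hx : ∃ e, crW hF k n e = trW hF k (n + 1) x z - z)
    (hy : ∃ e, crW hF k n e = trW hF k (n + 1) y z - z) (g : N) :
    ∃ e, crW hF k n e = trW hF k (n + 1) g z - z := by
  have hg : g ∈ Subgroup.closure {x, y} := by
    rw [hgen]
    exact Subgroup.mem_top g
  induction hg using Subgroup.closure_induction with
  | mem g hg =>
    rcases hg with rfl | hg
    · exact hx
    · have hg' : g = y := hg
      rw [hg']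
      exact hy
  | one => exact ⟨0, by rw [map_zero, trW_one, sub_self]⟩
  | mul g h _ _ hg hh =>
    obtain ⟨e, he⟩ := hg
    obtain ⟨e', he'⟩ := hh
    refine ⟨trW hF k n g e' + e, ?_⟩
    rw [map_add, crW_trW, he, he', map_sub, trW_mul]
    abel
  | inv g _ hg =>
    obtain ⟨e, he⟩ := hg
    refine ⟨-(trW hF k n g⁻¹ e), ?_⟩
    rw [map_neg, crW_trW, he, map_sub, ← trW_mul, inv_mul_cancel, trW_one]
    abel

/-- If the cusp `ξ` is full and its stabilizer is isomorphic to `ℤ²` then the class `z` is not a coboundary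
over `k` and the stabilizer acts trivially on it.

Proof. Let `K = stabilizer Γ ξ`, `hK = hF.sub K`, `TFree K` from `isTor_tfree`, `WFull K sm cusp ξ` by `WFull.stab`,
`k • ξ = ξ` for `k : K`. `exists_basis_of_Z2` (used in `W_04c03c_h62s/SMain.lean`, imported; see there)
gives `x y : K` with `x * y = y * x` and every `g : K` equal to `x ^ a * y ^ b`, and independence
(its last component; or take `x, y` to be the images of the two unit vectors under the inverse of the
isomorphism and prove everything by applying the isomorphism). Hence `Subgroup.closure {x, y} = ⊤`.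
`z' : DSub sm cusp k 3` is `⟨fun l => (z l : k), AlgJ1_cast hz⟩` (`AlgJ1.lean`), and `orient` for `K` with
this `z'` (`hz'` from `zg`: `f - c • z' = cr e`; `crW hK k 3 f = 0` means `cr sm f.1 = 0` (`crW_coe`)) gives
that `z'` is not `cr` of an `IsD 2` function, and `tr x z' - z'`, `tr y z' - z'` are coboundaries of such
functions (`trW hK k 3 x` is translation by `(x : Γ)`, definitionally). The set of the `g : Γ` for which
`tr g z' - z'` is `cr e` with `IsD sm cusp k 2 e` is closed under products and inverses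
(`tr (g * h) z' - z' = tr g (tr h z' - z') + (tr g z' - z')`, `cr_tr`, `IsD.tr`;
`tr g⁻¹ z' - z' = - tr g⁻¹ (tr g z' - z')`), so it contains all `g = x ^ a * y ^ b`
(it may be convenient to use that it contains the subgroup generated by `x, y`). -/
theorem z_torus (hF : WFace Γ Ξ V sm cusp) (k : Type) [Field k] {ξ η : Ξ}
    (hne : η ≠ ξ) (hfull : WFull Γ sm cusp ξ) (htor : IsTor Γ ξ)
    (h1 : ∀ f : List V → k, IsD sm cusp k 1 f → cr sm f = 0 →
      ∃ e, IsD sm cusp k 0 e ∧ cr sm e = f)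
    {z : List V → ℤ} (hz : IsD sm cusp ℤ 3 z)
    (zg : ∀ f : List V → k, IsD sm cusp k 3 f → cr sm f = 0 →
      ∃ (c : k) (e : List V → k), IsD sm cusp k 2 e ∧ (fun l => f l - c * (z l : k)) = cr sm e) :
    (¬ ∃ e : List V → k, IsD sm cusp k 2 e ∧ cr sm e = fun l => (z l : k)) ∧
    ∀ g ∈ stabilizer Γ ξ, ∃ e : List V → k, IsD sm cusp k 2 e ∧
      cr sm e = fun l => (z (l.map (fun x => g⁻¹ • x)) : k) - (z l : k) := by
  obtain ⟨x, y, hxy, hgen, hind⟩ := exists_basis_of_Z2 htor
  have hcl : Subgroup.closure {x, y} = ⊤ := by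
    rw [eq_top_iff]
    intro g _
    obtain ⟨a, b, rfl⟩ := hgen g
    have hx : x ∈ Subgroup.closure {x, y} := Subgroup.subset_closure (by simp)
    have hy : y ∈ Subgroup.closure {x, y} := Subgroup.subset_closure (by simp)
    exact mul_mem (zpow_mem hx a) (zpow_mem hy b)
  have hK : WFace (stabilizer Γ ξ) Ξ V sm cusp := hF.sub (stabilizer Γ ξ)
  have hTK : TFree (stabilizer Γ ξ) := isTor_tfree htor
  obtain ⟨z', hz'⟩ : ∃ z' : DSub sm cusp k 3, z' = ⟨fun l => ((z l : ℤ) : k), AlgJ1_cast hz⟩ :=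
    ⟨_, rfl⟩
  have hz1 : z'.1 = fun l => ((z l : ℤ) : k) := by rw [hz']
  have hzg : ∀ f : DSub sm cusp k 3, crW hK k 3 f = 0 → ∃ (c : k) (e : DSub sm cusp k 2),
      f = c • z' + crW hK k 2 e := by
    intro f hf
    have hf0 : cr sm f.1 = 0 := congrArg Subtype.val hf
    obtain ⟨c, e, he, h⟩ := zg f.1 f.2 hf0
    refine ⟨c, ⟨e, he⟩, ?_⟩
    apply Subtype.ext
    funext l
    have h1 := congrFun h l
    change f.1 l = c * (z'.1 l) + cr sm e l
    rw [hz1, ← h1]
    ring
  obtain ⟨h3, h4, h5⟩ := orient hK hTK hxy hcl hind hne hfull.stab (fun g => g.2) h1 z' hzg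
  refine ⟨?_, ?_⟩
  · rintro ⟨e, he, h⟩
    refine h3 ⟨⟨e, he⟩, ?_⟩
    apply Subtype.ext
    rw [crW_coe, hz1]
    exact h
  · intro g hg
    obtain ⟨e, he⟩ := QOe1_mem hK k z' hcl h4 h5 ⟨g, hg⟩
    refine ⟨e.1, e.2, ?_⟩
    have h6 : cr sm e.1 = (trW hK k 3 ⟨g, hg⟩ z' - z').1 := congrArg Subtype.val he
    rw [h6]
    funext l
    change z'.1 (l.map (fun x => (⟨g, hg⟩ : stabilizer Γ ξ)⁻¹ • x)) - z'.1 l = _
    rw [hz1]
    rfl

end Q62
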