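import Pool.Agent.W_04c03c_h62q.QOe1

/-!
# The orientation character on torus cusps
-/

namespace Q62

open RCan MulAction

variable {Γ Ξ V : Type} [Group Γ] [MulAction Γ Ξ] [MulAction Γ V] {sm : V → V → Prop}
  {cusp : V → Option Ξ}

/-- The character is trivial on the stabilizers of the torus cusps.

Proof. `D.full` and `isTor_virt` give `WFull Γ sm cusp ξ`; `z_torus` over `ℚ` (`D.two`, `D.h1 ℚ`, `D.zD`,
`D.zg ℚ`). For `g ∈ stabilizer Γ ξ`: `tr g z - z` and `tr g z - ε g * z` are coboundaries over `ℚ`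
(`AlgJ1_cr_cast`, `AlgJ1_cast`), so `(1 - ε g) * z` is one; if `ε g = -1` then `2 z` and so `z` is a coboundary
over `ℚ`, a contradiction. `Int.units_eq_one_or`. -/
theorem OrData.eps_stab {ε : Γ →* ℤˣ} {z : List V → ℤ} (D : OrData Γ Ξ V sm cusp ε z) (ξ : Ξ)
    (h : IsTor Γ ξ) : ∀ g ∈ stabilizer Γ ξ, ε g = 1 := by
  intro g hg
  obtain ⟨η, hη⟩ := D.two ξ
  obtain ⟨hno, hact⟩ := z_torus D.face ℚ hη (D.full ξ (isTor_virt h)) h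
    (fun f hf h0 => D.h1 ℚ f hf h0) D.zD (fun f hf h0 => D.zg ℚ f hf h0)
  rcases Int.units_eq_one_or (ε g) with h1 | h1
  · exact h1
  exfalso
  obtain ⟨e₁, he₁, h₁⟩ := hact g hg
  obtain ⟨e₂, he₂, h₂⟩ := D.ze g
  have hE : IsD sm cusp ℚ 2 (fun l => ((e₂ l : ℤ) : ℚ)) := AlgJ1_cast he₂
  have hcE : cr sm (fun l => ((e₂ l : ℤ) : ℚ)) = fun l =>
      (z (l.map (fun x => g⁻¹ • x)) : ℚ) + (z l : ℚ) := by
    rw [AlgJ1_cr_cast, ← h₂]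
    funext l
    rw [h1]
    push_cast
    simp
  obtain ⟨E₁, hE₁⟩ : ∃ E : DSub sm cusp ℚ 2, E = ⟨e₁, he₁⟩ := ⟨_, rfl⟩
  obtain ⟨E₂, hE₂⟩ : ∃ E : DSub sm cusp ℚ 2, E = ⟨fun l => ((e₂ l : ℤ) : ℚ), hE⟩ := ⟨_, rfl⟩
  apply hno
  refine ⟨((1 / 2 : ℚ) • (E₂ - E₁)).1, ((1 / 2 : ℚ) • (E₂ - E₁)).2, ?_⟩
  have h3 : (crW D.face ℚ 2 ((1 / 2 : ℚ) • (E₂ - E₁))).1 =
      (1 / 2 : ℚ) • ((crW D.face ℚ 2 E₂).1 - (crW D.face ℚ 2 E₁).1) := by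
    rw [map_smul, map_sub]
    rfl
  rw [crW_coe, crW_coe, crW_coe] at h3
  rw [h3, hE₁, hE₂]
  change (1 / 2 : ℚ) • (cr sm (fun l => ((e₂ l : ℤ) : ℚ)) - cr sm e₁) = _
  rw [hcE, h₁]
  funext l
  change (1 / 2 : ℚ) * (((z (l.map (fun x => g⁻¹ • x)) : ℚ) + (z l : ℚ)) -
    ((z (l.map (fun x => g⁻¹ • x)) : ℚ) - (z l : ℚ))) = (z l : ℚ)
  ring

end Q62
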