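import Pool.Agent.W_04c03c_h62q.QOe
import Pool.Agent.W_04c03c_h58.AlgK

/-!
# The orientation character
-/

namespace Q62

open RCan MulAction

variable {Γ Ξ V : Type} [Group Γ] [MulAction Γ Ξ] [MulAction Γ V] {sm : V → V → Prop}
  {cusp : V → Option Ξ}

theorem QOe2a_smulD {n : ℕ} (c : ℚ) {f : List V → ℚ} (hf : IsD sm cusp ℚ n f) :
    IsD sm cusp ℚ n (c • f) := by
  have hne : ∀ l, (c • f) l ≠ 0 → f l ≠ 0 := by
    intro l hl h0
    apply hl
    simp [h0]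
  refine ⟨?_, fun l hl => hf.len l (hne l hl), fun l hl => hf.rl l (hne l hl),
    hf.fin.subset fun l hl => hne l hl⟩
  exact Alt.hom (AddMonoidHom.mulLeft c) hf.alt

theorem QOe2a_smul {c : ℚ} {f : List V → ℚ} (h : ∃ e : List V → ℚ, IsD sm cusp ℚ 2 e ∧ cr sm e = f) :
    ∃ e : List V → ℚ, IsD sm cusp ℚ 2 e ∧ cr sm e = c • f := by
  obtain ⟨e, he, rfl⟩ := h
  exact ⟨c • e, QOe2a_smulD c he, AlgK_cr_smul c e⟩

theorem QOe2a_add {f f' : List V → ℚ} (h : ∃ e : List V → ℚ, IsD sm cusp ℚ 2 e ∧ cr sm e = f)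
    (h' : ∃ e : List V → ℚ, IsD sm cusp ℚ 2 e ∧ cr sm e = f') :
    ∃ e : List V → ℚ, IsD sm cusp ℚ 2 e ∧ cr sm e = f + f' := by
  obtain ⟨e, he, rfl⟩ := h
  obtain ⟨e', he', rfl⟩ := h'
  exact ⟨e + e', he.add he', cr_add e e'⟩

theorem QOe2a_tr (hF : WFace Γ Ξ V sm cusp) (g : Γ) {f : List V → ℚ}
    (h : ∃ e : List V → ℚ, IsD sm cusp ℚ 2 e ∧ cr sm e = f) :
    ∃ e : List V → ℚ, IsD sm cusp ℚ 2 e ∧ cr sm e = tr g f := by
  obtain ⟨e, he, rfl⟩ := h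
  exact ⟨tr g e, he.tr hF.smul_sm hF.cusp_smul g, cr_tr hF.smul_sm g e⟩

/-- The integral eigenvalues form a character with values `±1`.

Proof. For `g : Γ` let `m g : ℤ` be as in the hypothesis `hm`. Uniqueness: if `(m - m') * z` (over `ℚ`) is a
coboundary of an `IsD sm cusp ℚ 2` function then `m = m'`, since otherwise `z = (m - m')⁻¹ * ..` would be
one, contradicting `hnz` (`AlgK_cr_smul`-like linearity; `AlgJ1_cr_cast`, `AlgJ1_cast` for the cast to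
`ℚ`). Over `ℚ`: `tr (g * h) z = tr g (tr h z) = tr g (m h * z + cr e) = m h * m g * z + cr (..)` (`tr_mul`,
`cr_tr`, `IsD.tr`, `cr_add`, scalar multiples), so `m (g * h) = m g * m h`; `tr 1 z = z` gives `m 1 = 1`. Hence
`m g * m g⁻¹ = 1` and `m g` is a unit of `ℤ`; `ε g` = this unit, a homomorphism
(`MonoidHom.toHomUnits` of the monoid homomorphism `m : Γ →* ℤ`). The last claim is `hm` again. -/
theorem exists_eps (hF : WFace Γ Ξ V sm cusp) {z : List V → ℤ} (hz : IsD sm cusp ℤ 3 z)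
    (hnz : ¬ ∃ e : List V → ℚ, IsD sm cusp ℚ 2 e ∧ cr sm e = fun l => (z l : ℚ))
    (hm : ∀ g : Γ, ∃ (m : ℤ) (e : List V → ℤ), IsD sm cusp ℤ 2 e ∧
      (fun l => z (l.map (fun x => g⁻¹ • x)) - m * z l) = cr sm e) :
    ∃ ε : Γ →* ℤˣ, ∀ g : Γ, ∃ e : List V → ℤ, IsD sm cusp ℤ 2 e ∧
      (fun l => z (l.map (fun x => g⁻¹ • x)) - ((ε g : ℤˣ) : ℤ) * z l) = cr sm e := by
  choose m e he hme using hm
  obtain ⟨zq, hzq⟩ : ∃ zq : List V → ℚ, zq = fun l => (z l : ℚ) := ⟨_, rfl⟩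
  -- uniqueness
  have huniq : ∀ c : ℚ, (∃ e : List V → ℚ, IsD sm cusp ℚ 2 e ∧ cr sm e = c • zq) → c = 0 := by
    intro c hc
    by_contra hc0
    apply hnz
    have := QOe2a_smul (c := c⁻¹) hc
    rwa [smul_smul, inv_mul_cancel₀ hc0, one_smul, hzq] at this
  have hcob : ∀ g : Γ, ∃ e : List V → ℚ, IsD sm cusp ℚ 2 e ∧ cr sm e = tr g zq + (-(m g : ℚ)) • zq := by
    intro g
    refine ⟨fun l => ((e g l : ℤ) : ℚ), AlgJ1_cast (he g), ?_⟩
    rw [AlgJ1_cr_cast, ← hme g, hzq]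
    funext l
    simp only [tr_apply, Pi.add_apply, Pi.smul_apply, smul_eq_mul]
    push_cast
    ring
  have hmul : ∀ g h : Γ, m (g * h) = m g * m h := by
    intro g h
    have h1 := hcob (g * h)
    have h2 := QOe2a_tr hF g (hcob h)
    have h3 := QOe2a_smul (c := (m h : ℚ)) (hcob g)
    have h4 := QOe2a_add h2 h3
    have h5 := QOe2a_add h1 (QOe2a_smul (c := -1) h4)
    have h6 : tr (g * h) zq + -(m (g * h) : ℚ) • zq +
        (-1 : ℚ) • (tr g (tr h zq + -(m h : ℚ) • zq) + (m h : ℚ) • (tr g zq + -(m g : ℚ) • zq)) =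
        ((m g : ℚ) * (m h : ℚ) - (m (g * h) : ℚ)) • zq := by
      rw [tr_mul]
      funext l
      simp only [tr_apply, Pi.add_apply, Pi.smul_apply, smul_eq_mul]
      ring
    rw [h6] at h5
    have h7 := huniq _ h5
    have h8 : (m g : ℚ) * (m h : ℚ) = (m (g * h) : ℚ) := by linarith
    have h9 : ((m g * m h : ℤ) : ℚ) = ((m (g * h) : ℤ) : ℚ) := by
      push_cast
      exact h8
    exact (Int.cast_injective h9).symm
  have hone : m 1 = 1 := by
    have h1 := hcob 1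
    rw [tr_one] at h1
    have h2 : zq + -(m 1 : ℚ) • zq = (1 - (m 1 : ℚ)) • zq := by
      rw [sub_smul, one_smul, neg_smul, sub_eq_add_neg]
    rw [h2] at h1
    have h3 := huniq _ h1
    have h4 : ((m 1 : ℤ) : ℚ) = ((1 : ℤ) : ℚ) := by
      push_cast
      linarith
    exact Int.cast_injective h4
  let M : Γ →* ℤ := ⟨⟨m, hone⟩, hmul⟩
  refine ⟨M.toHomUnits, fun g => ⟨e g, he g, ?_⟩⟩
  rw [← hme g]
  rfl

end Q62
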