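import Pool.Agent.W_04c03c_h62q.QOe

/-!
# Virtually free abelian stabilizers and subgroups
-/

namespace Q62

open RCan MulAction

variable {Γ Ξ V : Type} [Group Γ] [MulAction Γ Ξ] [MulAction Γ V] {sm : V → V → Prop}
  {cusp : V → Option Ξ}

/-- Proof. Let `A ≤ stabilizer N ξ` be as in the hypothesis; `A' = A.map N.subtype ≤ stabilizer Γ ξ`,
`A' ≃* A` (`Subgroup.equivMapOfInjective`). Index: `A'.relIndex (stabilizer Γ ξ)` is the product of
`A'.relIndex B` and `B.relIndex (stabilizer Γ ξ)` with `B = (stabilizer N ξ).map N.subtype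
= N ⊓ stabilizer Γ ξ` (`Subgroup.relIndex_mul_relIndex`); the first is `A.relIndex (stabilizer N ξ) ≠ 0`
(`Subgroup.relIndex_map_map_of_injective`), the second is not zero because `N` has finite index
(`Subgroup.relIndex_inf_ne_zero`, or `Subgroup.relIndex_ne_zero ..`, or as in `finiteIndex_stab` in
`W_04c03c_h62s/SHom.lean`). -/
theorem virtZ2_of_res (N : Subgroup Γ) [N.FiniteIndex] {ξ : Ξ} (h : VirtZ2 (stabilizer N ξ)) :
    VirtZ2 (stabilizer Γ ξ) := by
  obtain ⟨A, hA1, hA2, hA3⟩ := h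
  have hB : (stabilizer N ξ).map N.subtype = N ⊓ stabilizer Γ ξ := by
    ext g
    rw [Subgroup.mem_map, Subgroup.mem_inf]
    constructor
    · rintro ⟨x, hx, rfl⟩
      exact ⟨x.2, hx⟩
    · rintro ⟨h1, h2⟩
      exact ⟨⟨g, h1⟩, h2, rfl⟩
  have hinj : Function.Injective N.subtype := Subtype.val_injective
  have hAB : A.map N.subtype ≤ (stabilizer N ξ).map N.subtype := Subgroup.map_mono hA1
  have hBC : (stabilizer N ξ).map N.subtype ≤ stabilizer Γ ξ := by
    rw [hB]
    exact inf_le_right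
  refine ⟨A.map N.subtype, hAB.trans hBC, ?_, ?_⟩
  · rw [← Subgroup.relIndex_mul_relIndex _ _ _ hAB hBC]
    refine Nat.mul_ne_zero ?_ ?_
    · rw [Subgroup.relIndex_map_map_of_injective _ _ hinj]
      exact hA2
    · rw [hB, Subgroup.inf_relIndex_right]
      intro h0
      exact Subgroup.FiniteIndex.index_ne_zero (H := N) (Subgroup.index_eq_zero_of_relIndex_eq_zero h0)
  · obtain ⟨e⟩ := hA3
    exact ⟨(A.equivMapOfInjective N.subtype hinj).symm.trans e⟩

end Q62
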