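import Pool.Agent.W_04c03c_h62q.QOe

/-!
# Full cusps and subgroups
-/

namespace Q62

open RCan MulAction

variable {Γ Ξ V : Type} [Group Γ] [MulAction Γ Ξ] [MulAction Γ V] {sm : V → V → Prop}
  {cusp : V → Option Ξ}

/-- Proof. Let `F` be the finite set of `h`. The subgroup `N.subgroupOf (stabilizer Γ ξ)` has finite index in
`stabilizer Γ ξ`: there is a finite set `T` of elements of `stabilizer Γ ξ` such that every
`b ∈ stabilizer Γ ξ` is `t * c` with `t ∈ T`, `c ∈ N`, `c • ξ = ξ`. If `l` is relative and touches `ξ`, `h` gives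
`b ∈ stabilizer Γ ξ` with `b • x ∈ F` for `x ∈ l`; `b = t * c`, so `c • x = t⁻¹ • (b • x) ∈ t⁻¹ • F`; the
finite set is the union of the `t⁻¹ • F`, `t ∈ T`. (Compare the proof of `Face.full` in
`W_04c03c_h58/WfA.lean`.) -/
theorem WFull_res {ξ : Ξ} (h : WFull Γ sm cusp ξ) (N : Subgroup Γ)
    (hi : (N.subgroupOf (stabilizer Γ ξ)).index ≠ 0) : WFull N sm cusp ξ := by
  classical
  obtain ⟨F, hFf, hFl⟩ := h
  have hfi : ((N.subgroupOf (stabilizer Γ ξ))).FiniteIndex := ⟨hi⟩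
  have hfq : Finite ((stabilizer Γ ξ) ⧸ (N.subgroupOf (stabilizer Γ ξ))) :=
    Subgroup.finite_quotient_of_finiteIndex
  refine ⟨⋃ q : (stabilizer Γ ξ) ⧸ (N.subgroupOf (stabilizer Γ ξ)),
    (fun x => ((q.out : stabilizer Γ ξ) : Γ)⁻¹ • x) '' F, ?_, ?_⟩
  · exact Set.finite_iUnion fun q => hFf.image _
  · intro l hl hlx
    obtain ⟨g, hg, hgF⟩ := hFl l hl hlx
    obtain ⟨b, hbdef⟩ : ∃ b : stabilizer Γ ξ, b = ⟨g, hg⟩ := ⟨_, rfl⟩
    obtain ⟨q, hq⟩ : ∃ q : (stabilizer Γ ξ) ⧸ (N.subgroupOf (stabilizer Γ ξ)), q = QuotientGroup.mk b :=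
      ⟨_, rfl⟩
    have hc : (q.out)⁻¹ * b ∈ N.subgroupOf (stabilizer Γ ξ) := by
      rw [← QuotientGroup.eq, QuotientGroup.out_eq', hq]
    rw [Subgroup.mem_subgroupOf] at hc
    have hcs : ((q.out)⁻¹ * b : stabilizer Γ ξ) • ξ = ξ := ((q.out)⁻¹ * b).2
    refine ⟨⟨_, hc⟩, ?_, ?_⟩
    · rw [mem_stabilizer_iff]
      exact hcs
    · intro x hx
      refine Set.mem_iUnion.2 ⟨q, ⟨g • x, hgF x hx, ?_⟩⟩
      show ((q.out : stabilizer Γ ξ) : Γ)⁻¹ • (g • x) = (((q.out)⁻¹ * b : stabilizer Γ ξ) : Γ) • x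
      rw [hbdef, ← mul_smul]
      rfl

end Q62
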