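import Pool.Agent.W_04c03c_h62q.QOe2
import Pool.Agent.W_04c03c_h62q.QOe3

/-!
# Restriction of the data to subgroups of finite index
-/

namespace Q62

open RCan MulAction

variable {Γ Ξ V : Type} [Group Γ] [MulAction Γ Ξ] [MulAction Γ V] {sm : V → V → Prop}
  {cusp : V → Option Ξ}

theorem finIndex_stab (N : Subgroup Γ) [hN : N.FiniteIndex] (ξ : Ξ) :
    (N.subgroupOf (stabilizer Γ ξ)).index ≠ 0 := by
  intro h0
  exact hN.index_ne_zero (Subgroup.index_eq_zero_of_relIndex_eq_zero h0)

/-- Restriction of the data to a subgroup of finite index. -/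
theorem OrData.sub {ε : Γ →* ℤˣ} {z : List V → ℤ} (D : OrData Γ Ξ V sm cusp ε z) (N : Subgroup Γ)
    (hN : N.FiniteIndex) : OrData N Ξ V sm cusp (ε.comp N.subtype) z where
  face := D.face.sub N
  h1 := D.h1
  two := D.two
  full := fun ξ h => WFull_res (D.full ξ (virtZ2_of_res N h)) N (finIndex_stab N ξ)
  zD := D.zD
  zc := D.zc
  zg := D.zg
  ze := fun g => D.ze (g : Γ)

end Q62
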