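import Pool.Agent.W_04c03c_h58.Def
import Pool.Agent.W_04c03c_h62s.SFullB
import Pool.Agent.W_04c03c_h62s.SZ2B

/-!
# Virtually `ℤ²` subgroups
-/

namespace Q62

open RCan MulAction

/-- A virtually `ℤ²` subgroup of a virtually `ℤ²` group has finite index.

Proof. Let `A ≤ K`, `A₁ ≤ B` be the subgroups isomorphic to `ℤ²` of finite index. `A.relIndex A₁ ≠ 0`, as
`A₁ ≤ K` (`Subgroup.relIndex_ne_zero_trans`, `Subgroup.relIndex_dvd_of_le_left`, ...; `A.relIndex K ≠ 0` gives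
`(A ⊓ A₁).relIndex A₁ ≠ 0`: `A.relIndex A₁` divides or is at most `A.relIndex K` for `A₁ ≤ K`,
`Subgroup.relIndex_ne_zero_of_le_right` or similar). So `A ⊓ A₁`, viewed as a subgroup of `A₁`, has finite index
and is isomorphic to `ℤ²` by `z2_of_index` (`W_04c03c_h62s/SZ2B.lean`); viewed as a subgroup of `A` it has
finite index by `index_of_z2`. So `(A ⊓ A₁).relIndex K = (A ⊓ A₁).relIndex A * A.relIndex K ≠ 0`
(`Subgroup.relIndex_mul_relIndex`), and `A ⊓ A₁ ≤ B` gives `B.relIndex K ≠ 0`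
(`Subgroup.relIndex_dvd_of_le_left` or `Subgroup.relIndex_ne_zero_of_le_left`). -/
theorem relIndex_of_virt {G : Type} [Group G] {B K : Subgroup G} (hB : VirtZ2 B) (hK : VirtZ2 K)
    (h : B ≤ K) : B.relIndex K ≠ 0 := by
  obtain ⟨A, hAK, hAi, eA⟩ := hK
  obtain ⟨A₁, hA₁B, -, eA₁⟩ := hB
  have hA₁K : A₁ ≤ K := hA₁B.trans h
  have h1 : A.relIndex A₁ ≠ 0 := fun h0 => hAi (Subgroup.relIndex_eq_zero_of_le_right hA₁K h0)
  have hfi : ((A ⊓ A₁).subgroupOf A₁).FiniteIndex := ⟨by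
    rw [Subgroup.inf_subgroupOf_right]
    exact h1⟩
  obtain ⟨e1⟩ := z2_of_index eA₁ ((A ⊓ A₁).subgroupOf A₁)
  let e2 : ((A ⊓ A₁).subgroupOf A) ≃* Multiplicative (ℤ × ℤ) :=
    ((Subgroup.subgroupOfEquivOfLe (inf_le_left : A ⊓ A₁ ≤ A)).trans
      (Subgroup.subgroupOfEquivOfLe (inf_le_right : A ⊓ A₁ ≤ A₁)).symm).trans e1
  have h2 : (A ⊓ A₁).relIndex A ≠ 0 :=
    (index_of_z2 eA ((A ⊓ A₁).subgroupOf A) ⟨e2⟩).index_ne_zero
  have h3 : (A ⊓ A₁).relIndex K ≠ 0 := Subgroup.relIndex_ne_zero_trans h2 hAi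
  have h4 : A ⊓ A₁ ≤ B := inf_le_right.trans hA₁B
  exact fun h0 => h3 (Nat.eq_zero_of_zero_dvd (h0 ▸ Subgroup.relIndex_dvd_of_le_left K h4))

/-- Conjugates of virtually `ℤ²` subgroups are virtually `ℤ²` (see `hV0` in `MnC.lean`), and images under
injective homomorphisms. -/
theorem virtZ2_map {G G' : Type} [Group G] [Group G'] (f : G →* G') (hf : Function.Injective f)
    {K : Subgroup G} (h : VirtZ2 K) : VirtZ2 (K.map f) := by
  obtain ⟨A, hA1, hA2, ⟨e⟩⟩ := h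
  refine ⟨A.map f, Subgroup.map_mono hA1, ?_, ⟨?_⟩⟩
  · rw [Subgroup.relIndex_map_map_of_injective _ _ hf]
    exact hA2
  · exact (Subgroup.equivMapOfInjective A _ hf).symm.trans e

theorem stab_map_eq {G Ξ : Type} [Group G] [MulAction G Ξ] (Γ : Subgroup G) (ξ : Ξ) :
    (stabilizer Γ ξ).map Γ.subtype = Γ ⊓ stabilizer G ξ := by
  ext g
  constructor
  · rintro ⟨g, hg, rfl⟩
    exact ⟨g.2, hg⟩
  · rintro ⟨h1, h2⟩
    exact ⟨⟨g, h1⟩, h2, rfl⟩

/-- If the stabilizers in `Γ` and in `G` are virtually `ℤ²` the first has finite index. -/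
theorem stab_index {G Ξ : Type} [Group G] [MulAction G Ξ] (Γ : Subgroup G) {ξ : Ξ}
    (h : VirtZ2 (stabilizer Γ ξ)) (h' : VirtZ2 (stabilizer G ξ)) :
    (Γ.subgroupOf (stabilizer G ξ)).index ≠ 0 := by
  have h1 : VirtZ2 (Γ ⊓ stabilizer G ξ) := by
    rw [← stab_map_eq]
    exact virtZ2_map _ Γ.subtype_injective h
  have h2 := relIndex_of_virt h1 h' inf_le_right
  rwa [Subgroup.inf_relIndex_right] at h2

end Q62
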