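import Pool.Agent.W_04c03c_h62q.QMain
import Pool.Agent.W_04c03c_h58.Def

/-!
# Torus cusps as subgroups
-/

namespace Q62

open RCan MulAction

/-- The peripheral subgroups of `G`: the conjugates of the `H i`. A torus cusp of the subgroup `Γ` is the
intersection of `Γ` with a peripheral subgroup of `G`, if it is isomorphic to `ℤ²`. -/
def TorusCusp {G : Type} [Group G] {ι : Type} (H : ι → Subgroup G) (Γ : Subgroup G)
    (L : Subgroup Γ) : Prop :=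
  Nonempty (L ≃* Multiplicative (ℤ × ℤ)) ∧
    ∃ (i : ι) (g : G), L = ((H i).map (MulAut.conj g).toMonoidHom).subgroupOf Γ

/-- `L'` is the conjugate of `L` by an element of `N`. -/
def ConjBy {Γ : Type} [Group Γ] (N L L' : Subgroup Γ) : Prop :=
  ∃ n ∈ N, L' = L.map (MulAut.conj n).toMonoidHom

/-- The points of the `G`-set `Ξ` correspond to the peripheral subgroups. -/
structure PerPts {G : Type} [Group G] {ι : Type} (H : ι → Subgroup G) (Ξ : Type)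
    [MulAction G Ξ] : Prop where
  per : ∀ K : Subgroup G, (∃ ξ : Ξ, stabilizer G ξ = K) ↔
    ∃ (i : ι) (g : G), K = (H i).map (MulAut.conj g).toMonoidHom
  fin : ∀ ξ ξ' : Ξ, ξ ≠ ξ' → {g : G | g • ξ = ξ ∧ g • ξ' = ξ'}.Finite

section
variable {G : Type} [Group G] {ι : Type} {H : ι → Subgroup G} {Ξ : Type} [MulAction G Ξ]

theorem stab_subgroupOf (Γ : Subgroup G) (ξ : Ξ) :
    stabilizer Γ ξ = (stabilizer G ξ).subgroupOf Γ := by
  ext g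
  exact Iff.rfl

theorem PerPts.tor_iff (h : PerPts H Ξ) (Γ : Subgroup G) (L : Subgroup Γ) :
    TorusCusp H Γ L ↔ ∃ ξ : Ξ, IsTor Γ ξ ∧ stabilizer Γ ξ = L := by
  constructor
  · rintro ⟨h1, i, g, h2⟩
    obtain ⟨ξ, hξ⟩ := (h.per _).2 ⟨i, g, rfl⟩
    have h3 : stabilizer Γ ξ = L := by
      rw [stab_subgroupOf, hξ, h2]
    refine ⟨ξ, ?_, h3⟩
    unfold IsTor
    rw [h3]
    exact h1
  · rintro ⟨ξ, h1, h2⟩
    obtain ⟨i, g, hK⟩ := (h.per (stabilizer G ξ)).1 ⟨ξ, rfl⟩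
    refine ⟨?_, i, g, ?_⟩
    · rw [← h2]
      exact h1
    · rw [← h2, stab_subgroupOf, hK]

theorem PerPts.eq_of_stab (h : PerPts H Ξ) (Γ : Subgroup G) {ξ ξ' : Ξ} (hξ : IsTor Γ ξ)
    (he : stabilizer Γ ξ = stabilizer Γ ξ') : ξ = ξ' := by
  by_contra hne
  have hf := h.fin ξ ξ' hne
  obtain ⟨e⟩ := hξ
  have hinf : Infinite (stabilizer Γ ξ) := by
    have : Infinite (Multiplicative (ℤ × ℤ)) := inferInstanceAs (Infinite (ℤ × ℤ))
    exact Infinite.of_injective e.symm e.symm.injective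
  refine Set.infinite_of_injective_forall_mem (s := {g : G | g • ξ = ξ ∧ g • ξ' = ξ'})
    (f := fun g : stabilizer Γ ξ => ((g : Γ) : G)) ?_ ?_ hf
  · intro a b hab
    exact Subtype.ext (Subtype.ext hab)
  · intro g
    refine ⟨g.2, ?_⟩
    have h1 : (g : Γ) ∈ stabilizer Γ ξ' := he ▸ g.2
    exact h1

theorem PerPts.conj_iff (h : PerPts H Ξ) (Γ : Subgroup G) (N : Subgroup Γ) {ξ ξ' : Ξ}
    (hξ : IsTor Γ ξ) :
    ConjBy N (stabilizer Γ ξ') (stabilizer Γ ξ) ↔ ξ ∈ orbit N ξ' := by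
  constructor
  · rintro ⟨n, hn, he⟩
    rw [← MulAction.stabilizer_smul_eq_stabilizer_map_conj] at he
    exact ⟨⟨n, hn⟩, (h.eq_of_stab Γ hξ he).symm⟩
  · rintro ⟨n, hn⟩
    refine ⟨n, n.2, ?_⟩
    rw [← MulAction.stabilizer_smul_eq_stabilizer_map_conj]
    have h1 : (n : Γ) • ξ' = ξ := hn
    rw [h1]

theorem orbit_top {Γ : Type} [Group Γ] [MulAction Γ Ξ] (ξ : Ξ) :
    orbit (⊤ : Subgroup Γ) ξ = orbit Γ ξ := by
  ext x
  constructor
  · rintro ⟨g, rfl⟩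
    exact ⟨g, rfl⟩
  · rintro ⟨g, rfl⟩
    exact ⟨⟨g, trivial⟩, rfl⟩

/-- The equivalences for a partial filling, in terms of subgroups. -/
theorem PerPts.tfae (h : PerPts H Ξ) (T : HT Ξ) (Γ : Subgroup G) {ε : Γ →* ℤˣ} (hT : T.P Γ ε)
    (Q : Type) [Group Q] (hfp : Group.IsFinitelyPresented Q) (π : Γ →* Q)
    (hπ : Function.Surjective π) {m : ℕ} (L : Fin m → Subgroup Γ) (R : Fin m → Γ)
    (hL : ∀ j, TorusCusp H Γ (L j)) (hR : ∀ j, R j ∈ L j)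
    (hne : ∀ j j', j ≠ j' → ¬ ConjBy ⊤ (L j) (L j'))
    (hker : π.ker = Subgroup.normalClosure (Set.range R)) (p : ℕ) [Fact p.Prime]
    (L₀ : Subgroup Γ) (hL₀ : TorusCusp H Γ L₀) (hun : ∀ j, ¬ ConjBy ⊤ (L j) L₀) :
    List.TFAE [IsLarge Q,
      ∃ N : Subgroup Q, N.FiniteIndex ∧ ∃ K : Fin 3 → Subgroup Γ, (∀ i, TorusCusp H Γ (K i)) ∧
        (∀ i j, ¬ ConjBy ⊤ (L j) (K i)) ∧
        ∀ i i', i ≠ i' → ¬ ConjBy (N.comap π) (K i) (K i'),
      ∃ N : Subgroup Q, N.FiniteIndex ∧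
        ∃ f : Fin 3 → (Additive N →+ ℚ), LinearIndependent ℚ f,
      ∃ N : Subgroup Q, N.FiniteIndex ∧
        ∃ f : Fin 4 → (Additive N →+ ZMod p), LinearIndependent (ZMod p) f,
      ∃ N : Subgroup Q, N.FiniteIndex ∧ ∃ K : Subgroup Γ,
        TorusCusp H Γ K ∧ (∀ j, ¬ ConjBy ⊤ (L j) K) ∧
        ∃ φ : Additive N →+ ℚ, φ ≠ 0 ∧
          ∀ k ∈ K, ∀ hk : π k ∈ N, φ (Additive.ofMul ⟨π k, hk⟩) = 0,
      HasRichQuotient Q] := by
  choose η hη1 hη2 using fun j => (h.tor_iff Γ (L j)).1 (hL j)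
  obtain ⟨ξ, hξ1, hξ2⟩ := (h.tor_iff Γ L₀).1 hL₀
  have hconj : ∀ (ζ : Ξ) (j : Fin m), IsTor Γ ζ → (ConjBy ⊤ (L j) (stabilizer Γ ζ) ↔
      ζ ∈ orbit Γ (η j)) := by
    intro ζ j hζ
    rw [← hη2 j, h.conj_iff Γ ⊤ hζ, orbit_top]
  let D : Fill Γ Ξ Q :=
    { J := Fin m
      fin := inferInstance
      η := η
      R := R
      π := π
      surj := hπ
      ineq := fun j j' hjj hc => hne j' j (Ne.symm hjj) (by
        rw [← hη2 j]
        exact (hconj (η j) j' (hη1 j)).2 hc)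
      fix := fun j => by
        have h1 : R j ∈ stabilizer Γ (η j) := by
          rw [hη2 j]
          exact hR j
        exact h1
      z2 := hη1
      ker := hker }
  have hun' : ∀ j, ξ ∉ orbit Γ (D.η j) := by
    intro j hc
    apply hun j
    rw [← hξ2]
    exact (hconj ξ j hξ1).2 hc
  have key := Fill.tfae hT D hfp p ξ hξ1 hun'
  have e2 : (∃ N : Subgroup Q, N.FiniteIndex ∧ ∃ x : Fin 3 → Ξ, (∀ i, IsTor Γ (x i)) ∧
        (∀ i j, x i ∉ orbit Γ (D.η j)) ∧ ∀ i i', i ≠ i' → x i ∉ orbit (N.comap D.π) (x i')) ↔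
      ∃ N : Subgroup Q, N.FiniteIndex ∧ ∃ K : Fin 3 → Subgroup Γ, (∀ i, TorusCusp H Γ (K i)) ∧
        (∀ i j, ¬ ConjBy ⊤ (L j) (K i)) ∧
        ∀ i i', i ≠ i' → ¬ ConjBy (N.comap π) (K i) (K i') := by
    constructor
    · rintro ⟨N, hN, x, hx, hxu, hxne⟩
      refine ⟨N, hN, fun i => stabilizer Γ (x i), fun i => (h.tor_iff Γ _).2 ⟨x i, hx i, rfl⟩,
        fun i j hc => hxu i j ((hconj (x i) j (hx i)).1 hc), fun i i' hii hc => ?_⟩
      exact hxne i' i (Ne.symm hii) ((h.conj_iff Γ _ (hx i')).1 hc)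
    · rintro ⟨N, hN, K, hK, hKu, hKne⟩
      choose x hx1 hx2 using fun i => (h.tor_iff Γ (K i)).1 (hK i)
      refine ⟨N, hN, x, hx1, fun i j hc => hKu i j ?_, fun i i' hii hc => hKne i' i (Ne.symm hii) ?_⟩
      · rw [← hx2 i]
        exact (hconj (x i) j (hx1 i)).2 hc
      · rw [← hx2 i, ← hx2 i']
        exact (h.conj_iff Γ _ (hx1 i)).2 hc
  have e5 : (∃ N : Subgroup Q, N.FiniteIndex ∧ ∃ ζ : Ξ,
        IsTor Γ ζ ∧ (∀ j, ζ ∉ orbit Γ (D.η j)) ∧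
        ∃ φ : Additive N →+ ℚ, φ ≠ 0 ∧
          ∀ (k : Γ) (hk : D.π k ∈ N), k • ζ = ζ → φ (Additive.ofMul ⟨D.π k, hk⟩) = 0) ↔
      ∃ N : Subgroup Q, N.FiniteIndex ∧ ∃ K : Subgroup Γ,
        TorusCusp H Γ K ∧ (∀ j, ¬ ConjBy ⊤ (L j) K) ∧
        ∃ φ : Additive N →+ ℚ, φ ≠ 0 ∧
          ∀ k ∈ K, ∀ hk : π k ∈ N, φ (Additive.ofMul ⟨π k, hk⟩) = 0 := by
    constructor
    · rintro ⟨N, hN, ζ, hζ, hζu, φ, hφ, hk⟩
      exact ⟨N, hN, stabilizer Γ ζ, (h.tor_iff Γ _).2 ⟨ζ, hζ, rfl⟩,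
        fun j hc => hζu j ((hconj ζ j hζ).1 hc), φ, hφ, fun k hkK hkN => hk k hkN hkK⟩
    · rintro ⟨N, hN, K, hK, hKu, φ, hφ, hk⟩
      obtain ⟨ζ, hζ1, hζ2⟩ := (h.tor_iff Γ K).1 hK
      refine ⟨N, hN, ζ, hζ1, fun j hc => hKu j ?_, φ, hφ, fun k hkN hkζ => hk k ?_ hkN⟩
      · rw [← hζ2]
        exact (hconj ζ j hζ1).2 hc
      · rw [← hζ2]
        exact hkζ
  tfae_have 1 ↔ 2 := (key.out 0 1).trans e2
  tfae_have 1 ↔ 3 := key.out 0 2
  tfae_have 1 ↔ 4 := key.out 0 3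
  tfae_have 1 ↔ 5 := (key.out 0 4).trans e5
  tfae_have 1 ↔ 6 := key.out 0 5
  tfae_finish

/-- The number of unfilled torus cusps is at most the number of generators of a filling. -/
theorem PerPts.le_rank (h : PerPts H Ξ) (T : HT Ξ) (Γ : Subgroup G) {ε : Γ →* ℤˣ} (hT : T.P Γ ε)
    (Q : Type) [Group Q] [Group.FG Q] (π : Γ →* Q)
    (hπ : Function.Surjective π) {m : ℕ} (L : Fin m → Subgroup Γ) (R : Fin m → Γ)
    (hL : ∀ j, TorusCusp H Γ (L j)) (hR : ∀ j, R j ∈ L j)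
    (hne : ∀ j j', j ≠ j' → ¬ ConjBy ⊤ (L j) (L j'))
    (hker : π.ker = Subgroup.normalClosure (Set.range R)) {r : ℕ} (K : Fin r → Subgroup Γ)
    (hK : ∀ i, TorusCusp H Γ (K i)) (hKne : ∀ i i', i ≠ i' → ¬ ConjBy ⊤ (K i) (K i'))
    (hKu : ∀ i j, ¬ ConjBy ⊤ (L j) (K i)) : r ≤ Group.rank Q := by
  choose η hη1 hη2 using fun j => (h.tor_iff Γ (L j)).1 (hL j)
  choose x hx1 hx2 using fun i => (h.tor_iff Γ (K i)).1 (hK i)
  have hconj : ∀ (ζ : Ξ) (j : Fin m), IsTor Γ ζ → (ConjBy ⊤ (L j) (stabilizer Γ ζ) ↔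
      ζ ∈ orbit Γ (η j)) := by
    intro ζ j hζ
    rw [← hη2 j, h.conj_iff Γ ⊤ hζ, orbit_top]
  let D : Fill Γ Ξ Q :=
    { J := Fin m
      fin := inferInstance
      η := η
      R := R
      π := π
      surj := hπ
      ineq := fun j j' hjj hc => hne j' j (Ne.symm hjj) (by
        rw [← hη2 j]
        exact (hconj (η j) j' (hη1 j)).2 hc)
      fix := fun j => by
        have h1 : R j ∈ stabilizer Γ (η j) := by
          rw [hη2 j]
          exact hR j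
        exact h1
      z2 := hη1
      ker := hker }
  refine Fill.le_rank hT D x hx1 (fun i i' hii hc => hKne i' i (Ne.symm hii) ?_)
    (fun i j hc => hKu i j ?_)
  · rw [← hx2 i, ← hx2 i']
    rw [h.conj_iff Γ ⊤ (hx1 i), orbit_top]
    exact hc
  · rw [← hx2 i]
    exact (hconj (x i) j (hx1 i)).2 hc

end

end Q62
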