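import Pool.Agent.W_04c03c_h62q.QPc

/-!
# Half lives in terms of subgroups
-/

namespace Q62

open RCan MulAction

/-- The dimension of the space of all restrictions of crossed homomorphisms `Γ → F_χ` to the
subgroups `L i`. -/
noncomputable def resRk {Γ : Type} [Group Γ] {F : Type} [Field F] (χ : Γ →* Fˣ) {I : Type}
    (L : I → Subgroup Γ) : ℕ :=
  Module.finrank F ((XHom χ).map (LinearMap.funLeft F F fun k : Σ i, L i => (k.2 : Γ)))

theorem resRank_eq_resRk {Γ : Type} [Group Γ] {F : Type} [Field F] {Ξ : Type} [MulAction Γ Ξ]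
    (χ : Γ →* Fˣ) {I : Type} (x : I → Ξ) :
    resRank χ x = resRk χ (fun i => stabilizer Γ (x i)) := rfl

theorem PerPts.half {G : Type} [Group G] {ι : Type} {H : ι → Subgroup G} {Ξ : Type}
    [MulAction G Ξ] (h : PerPts H Ξ) (T : HT Ξ) (Γ : Subgroup G) {ε : Γ →* ℤˣ} (hT : T.P Γ ε)
    (F : Type) [Field F] (χ : Γ →* Fˣ) (I : Type) [Finite I] (L : I → Subgroup Γ)
    (hL : ∀ i, TorusCusp H Γ (L i)) (hne : ∀ i j, i ≠ j → ¬ ConjBy ⊤ (L i) (L j))
    (hχ : ∀ i, ∀ k ∈ L i, χ k = 1) :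
    2 * Nat.card I ≤ resRk χ L + resRk (χ⁻¹ * sgnF ε F) L := by
  choose x hx1 hx2 using fun i => (h.tor_iff Γ (L i)).1 (hL i)
  have hL' : L = fun i => stabilizer Γ (x i) := funext fun i => (hx2 i).symm
  subst hL'
  rw [← resRank_eq_resRk, ← resRank_eq_resRk]
  refine T.half hT F χ I x hx1 (fun i j hij hc => hne j i (Ne.symm hij) ?_) hχ
  rw [h.conj_iff Γ ⊤ (hx1 i), orbit_top]
  exact hc

end Q62
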