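import Pool.Agent.W_04c03c_h62q.QPa
import Pool.Agent.W_04c03c_h62q.QPb
import Pool.Agent.W_04c03c_h62q.QPd
import Pool.Agent.W_04c03c_h58.WfH1b
import Pool.Agent.W_04c03c_h58.MnB

/-!
# The data of the groups with a sphere at infinity
-/

namespace Q62

open RCan MulAction
open scoped Pointwise

/-- The data of a group of the relative Cannon conjecture. -/
theorem q1_data {G : Type} [Group G] {ι : Type} (H : ι → Subgroup G) (hH : ∀ i, VirtZ2 (H i))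
    (hS : SphereRelHyp G H) : ∃ (Ξ : Type) (_ : MulAction G Ξ), PerPts H Ξ ∧
      ∀ (Γ : Subgroup G) (ξ : Ξ), IsTor Γ ξ → ∃ ε : Γ →* ℤˣ, (geoHT Ξ).P Γ ε := by
  obtain ⟨X, _, _, _, 𝓗, h1, h2, hC, h4, ⟨e⟩⟩ := hS
  obtain ⟨δ, hδ⟩ := exists_hyp4 h2
  letI : MulAction G 𝓗 := cuspAct hC
  have hst : ∀ B : 𝓗, stabilizer G B = stabilizer G B.1 := by
    intro B
    ext g
    exact mem_stab_cusp hC B g
  have hVG : ∀ B : 𝓗, VirtZ2 (stabilizer G B) := by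
    intro B
    rw [hst B]
    obtain ⟨i, g, hK⟩ := (h4 _).1 ⟨B.1, B.2, rfl⟩
    rw [hK]
    exact virtZ2_map _ (MulAut.conj g).injective (hH i)
  refine ⟨𝓗, cuspAct hC, ⟨?_, ?_⟩, ?_⟩
  · intro K
    rw [← h4 K]
    constructor
    · rintro ⟨B, hB⟩
      exact ⟨B.1, B.2, (hst B).symm.trans hB⟩
    · rintro ⟨B, hB, hK⟩
      exact ⟨⟨B, hB⟩, (hst ⟨B, hB⟩).trans hK⟩
  · intro B B' hne
    refine (finite_stab_two hδ h1 hC B.2 B'.2 (fun h => hne (Subtype.ext h))).subset ?_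
    rintro g ⟨hg, hg'⟩
    exact ⟨congrArg Subtype.val hg, congrArg Subtype.val hg'⟩
  · intro Γ ξ hξ
    obtain ⟨V, _, sm, cusp, hF, hH1, -⟩ := exists_face1 h1 h2 hC e
    have hunc : Uncountable (Bdry X) := by
      haveI : Uncountable S2 := uncountable_sphere
      exact e.toEquiv.symm.injective.uncountable
    obtain ⟨o, ho⟩ := RCan.exists_base hδ h1 hC inferInstance
    have two : ∀ B : 𝓗, ∃ B' : 𝓗, B' ≠ B := by
      intro B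
      have hinf := infinite_orbit hδ h1 hC ho hunc B.2
      obtain ⟨B', ⟨g, hg⟩, hne⟩ := hinf.exists_notMem_finset {B.1}
      refine ⟨⟨B', hg ▸ hC.inv g B.1 B.2⟩, fun h => hne ?_⟩
      rw [Finset.mem_singleton]
      exact congrArg Subtype.val h
    obtain ⟨ε, z, D⟩ := exists_orData hF hH1 two Γ
      (fun B hB => hF.full Γ B (stab_index Γ hB (hVG B))) ξ hξ
    exact ⟨ε, V, inferInstance, sm, cusp, z, D⟩

/-- The equivalences for the partial fillings of the subgroups. -/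
theorem q1_tfae {G : Type} [Group G] {ι : Type} (H : ι → Subgroup G) (hH : ∀ i, VirtZ2 (H i))
    (hS : SphereRelHyp G H) (Γ : Subgroup G)
    (Q : Type) [Group Q] (hfp : Group.IsFinitelyPresented Q) (π : Γ →* Q)
    (hπ : Function.Surjective π) {m : ℕ} (L : Fin m → Subgroup Γ) (R : Fin m → Γ)
    (hL : ∀ j, TorusCusp H Γ (L j)) (hR : ∀ j, R j ∈ L j)
    (hne : ∀ j j', j ≠ j' → ¬ ConjBy ⊤ (L j) (L j'))
    (hker : π.ker = Subgroup.normalClosure (Set.range R)) (p : ℕ) [Fact p.Prime]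
    (L₀ : Subgroup Γ) (hL₀ : TorusCusp H Γ L₀) (hun : ∀ j, ¬ ConjBy ⊤ (L j) L₀) :
    List.TFAE [IsLarge Q,
      ∃ N : Subgroup Q, N.FiniteIndex ∧ ∃ K : Fin 3 → Subgroup Γ, (∀ i, TorusCusp H Γ (K i)) ∧
        (∀ i j, ¬ ConjBy ⊤ (L j) (K i)) ∧
        ∀ i i', i ≠ i' → ¬ ConjBy (N.comap π) (K i) (K i'),
      ∃ N : Subgroup Q, N.FiniteIndex ∧
        ∃ f : Fin 3 → (Additive N →+ ℚ), LinearIndependent ℚ f,
      ∃ N : Subgroup Q, N.FiniteIndex ∧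
        ∃ f : Fin 4 → (Additive N →+ ZMod p), LinearIndependent (ZMod p) f,
      ∃ N : Subgroup Q, N.FiniteIndex ∧ ∃ K : Subgroup Γ,
        TorusCusp H Γ K ∧ (∀ j, ¬ ConjBy ⊤ (L j) K) ∧
        ∃ φ : Additive N →+ ℚ, φ ≠ 0 ∧
          ∀ k ∈ K, ∀ hk : π k ∈ N, φ (Additive.ofMul ⟨π k, hk⟩) = 0,
      HasRichQuotient Q] := by
  obtain ⟨Ξ, _, hP, hG⟩ := q1_data H hH hS
  obtain ⟨ξ, hξ, -⟩ := (hP.tor_iff Γ L₀).1 hL₀
  obtain ⟨ε, hT⟩ := hG Γ ξ hξ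
  exact hP.tfae (geoHT Ξ) Γ hT Q hfp π hπ L R hL hR hne hker p L₀ hL₀ hun

/-- Half lives for the subgroups. -/
theorem q1_half {G : Type} [Group G] {ι : Type} (H : ι → Subgroup G) (hH : ∀ i, VirtZ2 (H i))
    (hS : SphereRelHyp G H) (Γ : Subgroup G) :
    ∃ ε : Γ →* ℤˣ, (∀ L : Subgroup Γ, TorusCusp H Γ L → ∀ g ∈ L, ε g = 1) ∧
      ∀ (F : Type) [Field F] (χ : Γ →* Fˣ) (I : Type) [Finite I] (L : I → Subgroup Γ),
        (∀ i, TorusCusp H Γ (L i)) → (∀ i j, i ≠ j → ¬ ConjBy ⊤ (L i) (L j)) →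
        (∀ i, ∀ g ∈ L i, χ g = 1) →
        2 * Nat.card I ≤ resRk χ L + resRk (χ⁻¹ * sgnF ε F) L := by
  obtain ⟨Ξ, _, hP, hG⟩ := q1_data H hH hS
  by_cases hex : ∃ L : Subgroup Γ, TorusCusp H Γ L
  · obtain ⟨L₀, hL₀⟩ := hex
    obtain ⟨ξ, hξ, -⟩ := (hP.tor_iff Γ L₀).1 hL₀
    obtain ⟨ε, hT⟩ := hG Γ ξ hξ
    refine ⟨ε, ?_, fun F _ χ I _ L hL hne hχ => hP.half (geoHT Ξ) Γ hT F χ I L hL hne hχ⟩
    intro L hL g hg
    obtain ⟨ζ, hζ, hζL⟩ := (hP.tor_iff Γ L).1 hL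
    rw [← hζL] at hg
    exact (geoHT Ξ).stab hT ζ hζ g hg
  · push Not at hex
    refine ⟨1, fun L hL => absurd hL (hex L), fun F _ χ I _ L hL _ _ => ?_⟩
    have : IsEmpty I := ⟨fun i => hex _ (hL i)⟩
    rw [Nat.card_of_isEmpty]
    exact Nat.zero_le _

/-- The number of unfilled torus cusps. -/
theorem q1_rank {G : Type} [Group G] {ι : Type} (H : ι → Subgroup G) (hH : ∀ i, VirtZ2 (H i))
    (hS : SphereRelHyp G H) (Γ : Subgroup G)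
    (Q : Type) [Group Q] [Group.FG Q] (π : Γ →* Q) (hπ : Function.Surjective π) {m : ℕ}
    (L : Fin m → Subgroup Γ) (R : Fin m → Γ)
    (hL : ∀ j, TorusCusp H Γ (L j)) (hR : ∀ j, R j ∈ L j)
    (hne : ∀ j j', j ≠ j' → ¬ ConjBy ⊤ (L j) (L j'))
    (hker : π.ker = Subgroup.normalClosure (Set.range R)) {r : ℕ} (K : Fin r → Subgroup Γ)
    (hK : ∀ i, TorusCusp H Γ (K i)) (hKne : ∀ i i', i ≠ i' → ¬ ConjBy ⊤ (K i) (K i'))
    (hKu : ∀ i j, ¬ ConjBy ⊤ (L j) (K i)) : r ≤ Group.rank Q := by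
  obtain ⟨Ξ, _, hP, hG⟩ := q1_data H hH hS
  rcases Nat.eq_zero_or_pos r with h0 | h0
  · omega
  obtain ⟨ξ, hξ, -⟩ := (hP.tor_iff Γ (K ⟨0, h0⟩)).1 (hK ⟨0, h0⟩)
  obtain ⟨ε, hT⟩ := hG Γ ξ hξ
  exact hP.le_rank (geoHT Ξ) Γ hT Q π hπ L R hL hR hne hker K hK hKne hKu

end Q62
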