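import Pool.Agent.W_04c03c_h62q.QPo

/-!
# The number of unfilled torus cusps
-/

namespace Q62

open RCan MulAction

section
variable {Γ : Type} [Group Γ] {Ξ : Type} [MulAction Γ Ξ] {Q : Type} [Group Q] {ε : Γ →* ℤˣ}
  {T : HT Ξ}

/-- Homomorphisms of the subgroups of a partial filling from its unfilled points. -/
theorem Fill.homsF (hT : T.P Γ ε) (D : Fill Γ Ξ Q) (F : Type) [Field F] (N : Subgroup Q)
    [N.FiniteIndex] (hor : N.comap D.π ≤ ε.ker ∨ CharP F 2) (r : ℕ) (x : Fin r → Ξ)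
    (hxz : ∀ i, IsTor Γ (x i)) (hxne : ∀ i i', i ≠ i' → x i ∉ orbit (N.comap D.π) (x i'))
    (hun : ∀ i j, x i ∉ orbit Γ (D.η j)) :
    ∃ f : Fin r → (Additive N →+ F), LinearIndependent F f := by
  obtain ⟨D', -, hD'⟩ := D.sub N
  have hM := finiteIndex_comap D.π D.surj N
  have he : sgnF (ε.comp (N.comap D.π).subtype) F = 1 := by
    rcases hor with hle | hc
    · refine MonoidHom.ext fun g => sgnF_one ?_
      exact hle g.2
    · exact sgnF_two _ F
  have hsm2 : ∀ a b : Ξ, a ∈ orbit (N.comap D.π) b → a ∈ orbit Γ b := by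
    rintro a b ⟨g, hg⟩
    exact ⟨g.1, hg⟩
  have := D'.fin
  obtain ⟨f, hf, hfR⟩ := (T.half (T.sub hT _ hM)).exists_homs he D'.η D'.R D'.fix D'.z2
    D'.ineq x (fun i => isTor_res (hxz i) _) hxne (by
      intro i j' h
      obtain ⟨j, hj⟩ := hD' j'
      obtain ⟨g, hg⟩ := hsm2 _ _ h
      obtain ⟨g', hg'⟩ := hj
      refine hun i j ⟨g * g', ?_⟩
      simp only at hg hg' ⊢
      rw [mul_smul, hg', hg])
  exact descend_homs D'.π D'.surj D'.R D'.ker f hf hfR

end

section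
variable {G : Type} [Group G] {ι : Type} {H : ι → Subgroup G} {Ξ : Type} [MulAction G Ξ]

/-- The number of unfilled torus cusps, in terms of subgroups. -/
theorem PerPts.homsF (h : PerPts H Ξ) (T : HT Ξ) (Γ : Subgroup G) {ε : Γ →* ℤˣ} (hT : T.P Γ ε)
    (Q : Type) [Group Q] (π : Γ →* Q)
    (hπ : Function.Surjective π) {m : ℕ} (L : Fin m → Subgroup Γ) (R : Fin m → Γ)
    (hL : ∀ j, TorusCusp H Γ (L j)) (hR : ∀ j, R j ∈ L j)
    (hne : ∀ j j', j ≠ j' → ¬ ConjBy ⊤ (L j) (L j'))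
    (hker : π.ker = Subgroup.normalClosure (Set.range R))
    (F : Type) [Field F] (N : Subgroup Q) (hN : N.FiniteIndex)
    (hor : N.comap π ≤ ε.ker ∨ CharP F 2) (r : ℕ) (K : Fin r → Subgroup Γ)
    (hK : ∀ i, TorusCusp H Γ (K i)) (hKu : ∀ i j, ¬ ConjBy ⊤ (L j) (K i))
    (hKne : ∀ i i', i ≠ i' → ¬ ConjBy (N.comap π) (K i) (K i')) :
    ∃ f : Fin r → (Additive N →+ F), LinearIndependent F f := by
  choose η hη1 hη2 using fun j => (h.tor_iff Γ (L j)).1 (hL j)
  have hconj : ∀ (ζ : Ξ) (j : Fin m), IsTor Γ ζ → (ConjBy ⊤ (L j) (stabilizer Γ ζ) ↔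
      ζ ∈ orbit Γ (η j)) := by
    intro ζ j hζ
    rw [← hη2 j, h.conj_iff Γ ⊤ hζ, orbit_top]
  let D : Fill Γ Ξ Q :=
    { J := Fin m
      fin := inferInstance
      η := η
      R := R
      π := π
      surj := hπ
      ineq := fun j j' hjj hc => hne j' j (Ne.symm hjj) (by
        rw [← hη2 j]
        exact (hconj (η j) j' (hη1 j)).2 hc)
      fix := fun j => by
        have h1 : R j ∈ stabilizer Γ (η j) := by
          rw [hη2 j]
          exact hR j
        exact h1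
      z2 := hη1
      ker := hker }
  choose x hx1 hx2 using fun i => (h.tor_iff Γ (K i)).1 (hK i)
  refine Fill.homsF hT D F N hor r x hx1 (fun i i' hii hc => hKne i' i (Ne.symm hii) ?_)
    (fun i j hc => hKu i j ?_)
  · rw [← hx2 i, ← hx2 i']
    exact (h.conj_iff Γ _ (hx1 i)).2 hc
  · rw [← hx2 i]
    exact (hconj (x i) j (hx1 i)).2 hc

/-- The number of unfilled torus cusps of the subgroups of finite index of a partial filling. -/
theorem q1_count (hH : ∀ i, VirtZ2 (H i)) (hS : SphereRelHyp G H) :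
    ∃ G' : Subgroup G, G'.index ≠ 0 ∧ G'.index ≤ 2 ∧
      ∀ (Γ : Subgroup G) (Q : Type) [Group Q] (π : Γ →* Q), Function.Surjective π →
      ∀ (m : ℕ) (L : Fin m → Subgroup Γ) (R : Fin m → Γ),
        (∀ j, TorusCusp H Γ (L j)) → (∀ j, R j ∈ L j) →
        (∀ j j', j ≠ j' → ¬ ConjBy ⊤ (L j) (L j')) →
        π.ker = Subgroup.normalClosure (Set.range R) →
      ∀ (F : Type) [Field F] (N : Subgroup Q), N.FiniteIndex →
        (N.comap π ≤ G'.subgroupOf Γ ∨ CharP F 2) →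
      ∀ (r : ℕ) (K : Fin r → Subgroup Γ), (∀ i, TorusCusp H Γ (K i)) →
        (∀ i j, ¬ ConjBy ⊤ (L j) (K i)) →
        (∀ i i', i ≠ i' → ¬ ConjBy (N.comap π) (K i) (K i')) →
        ∃ f : Fin r → (Additive N →+ F), LinearIndependent F f := by
  rcases isEmpty_or_nonempty ι with he | hne
  · refine ⟨⊤, by simp, by simp, ?_⟩
    intro Γ Q _ π hπ m L R hL hR hne hker F _ N hN hor r K hK hKu hKne
    rcases Nat.eq_zero_or_pos r with h0 | h0
    · subst h0
      exact ⟨Fin.elim0, linearIndependent_empty_type⟩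
    · obtain ⟨-, i, -⟩ := hK ⟨0, h0⟩
      exact he.elim i
  · obtain ⟨Ξ, _, w, hP, hG⟩ := q1_orient H hH hS
    refine ⟨w.ker, ?_, ?_, ?_⟩
    · rw [Subgroup.index_ker]
      exact Nat.card_pos.ne'
    · rw [Subgroup.index_ker]
      have h1 : Nat.card w.range ≤ Nat.card ℤˣ := Finite.card_subtype_le _
      have h2 : Nat.card ℤˣ = 2 := by
        rw [Nat.card_eq_fintype_card]
        rfl
      omega
    intro Γ Q _ π hπ m L R hL hR hne hker F _ N hN hor r K hK hKu hKne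
    exact hP.homsF (geoHT Ξ) Γ (hG Γ) Q π hπ L R hL hR hne hker F N hN hor r K hK hKu hKne

end

end Q62
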