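import Pool.Agent.W_04c03c_h62q.QPe
import Pool.Agent.W_04c03c_h62q.QLe

/-!
# Linear representations in the equivalences
-/

namespace Q62

open RCan MulAction

/-- The equivalences for the partial fillings of the subgroups, with linear representations. -/
theorem q1_tfae' {G : Type} [Group G] {ι : Type} (H : ι → Subgroup G) (hH : ∀ i, VirtZ2 (H i))
    (hS : SphereRelHyp G H) (Γ : Subgroup G)
    (Q : Type) [Group Q] (hfp : Group.IsFinitelyPresented Q) (π : Γ →* Q)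
    (hπ : Function.Surjective π) {m : ℕ} (L : Fin m → Subgroup Γ) (R : Fin m → Γ)
    (hL : ∀ j, TorusCusp H Γ (L j)) (hR : ∀ j, R j ∈ L j)
    (hne : ∀ j j', j ≠ j' → ¬ ConjBy ⊤ (L j) (L j'))
    (hker : π.ker = Subgroup.normalClosure (Set.range R)) (p : ℕ) [Fact p.Prime]
    (L₀ : Subgroup Γ) (hL₀ : TorusCusp H Γ L₀) (hun : ∀ j, ¬ ConjBy ⊤ (L j) L₀) :
    List.TFAE [IsLarge Q,
      ∃ N : Subgroup Q, N.FiniteIndex ∧ ∃ K : Fin 3 → Subgroup Γ, (∀ i, TorusCusp H Γ (K i)) ∧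
        (∀ i j, ¬ ConjBy ⊤ (L j) (K i)) ∧
        ∀ i i', i ≠ i' → ¬ ConjBy (N.comap π) (K i) (K i'),
      ∃ N : Subgroup Q, N.FiniteIndex ∧
        ∃ f : Fin 3 → (Additive N →+ ℚ), LinearIndependent ℚ f,
      ∃ N : Subgroup Q, N.FiniteIndex ∧
        ∃ f : Fin 4 → (Additive N →+ ZMod p), LinearIndependent (ZMod p) f,
      ∃ N : Subgroup Q, N.FiniteIndex ∧ ∃ K : Subgroup Γ,
        TorusCusp H Γ K ∧ (∀ j, ¬ ConjBy ⊤ (L j) K) ∧
        ∃ φ : Additive N →+ ℚ, φ ≠ 0 ∧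
          ∀ k ∈ K, ∀ hk : π k ∈ N, φ (Additive.ofMul ⟨π k, hk⟩) = 0,
      HasRichQuotient Q,
      RichRep Q] := by
  have key := q1_tfae H hH hS Γ Q hfp π hπ L R hL hR hne hker p L₀ hL₀ hun
  have hfg : Group.FG Q := by
    have h1 := FG_of_FP hfp (⊤ : Subgroup Q)
    exact Group.fg_of_surjective (f := (⊤ : Subgroup Q).subtype)
      (fun q => ⟨⟨q, trivial⟩, rfl⟩)
  tfae_have 1 ↔ 2 := key.out 0 1
  tfae_have 1 ↔ 3 := key.out 0 2
  tfae_have 1 ↔ 4 := key.out 0 3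
  tfae_have 1 ↔ 5 := key.out 0 4
  tfae_have 1 ↔ 6 := key.out 0 5
  tfae_have 6 → 7 := fun h => (richRep_iff Q).2 (rep_of_rich h)
  tfae_have 7 → 6 := fun h => rich_of_rep ((richRep_iff Q).1 h)
  tfae_finish

end Q62
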