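import Pool.Agent.W_04c03c_h62q.QPo

/-!
# Half lives for torsion-free cusps
-/

namespace Q62

open RCan MulAction

/-- The dimension of the space of families of homomorphisms from the subgroups `L i` to `F`. -/
noncomputable def homRk {Γ : Type} [Group Γ] (F : Type) [Field F] {I : Type}
    (L : I → Subgroup Γ) : ℕ :=
  Module.finrank F (∀ i, Additive (L i) →+ F)

/-- The peripheral subgroups of `G`: the conjugates of the `H i`. A torsion-free cusp of the subgroup
`Γ` is the intersection of `Γ` with a peripheral subgroup of `G`, if it is torsion-free and virtually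
`ℤ²`. -/
def TFreeCusp {G : Type} [Group G] {ι : Type} (H : ι → Subgroup G) (Γ : Subgroup G)
    (L : Subgroup Γ) : Prop :=
  VirtZ2 L ∧ TFree L ∧ ∃ (i : ι) (g : G), L = ((H i).map (MulAut.conj g).toMonoidHom).subgroupOf Γ

section
variable {Γ Ξ V : Type} [Group Γ] [MulAction Γ Ξ] [MulAction Γ V] {sm : V → V → Prop}
  {cusp : V → Option Ξ} {ε : Γ →* ℤˣ} {z : List V → ℤ}

theorem OrData.halfG (D : OrData Γ Ξ V sm cusp ε z) (F : Type) [Field F] (χ : Γ →* Fˣ) (I : Type)
    [Finite I] (x : I → Ξ) (hv : ∀ i, VirtZ2 (stabilizer Γ (x i)))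
    (hT : ∀ i, TFree (stabilizer Γ (x i))) (hne : ∀ i j, i ≠ j → x i ∉ orbit Γ (x j))
    (hχ : ∀ i, ∀ g ∈ stabilizer Γ (x i), χ g = 1)
    (hω : ∀ i, ∀ g ∈ stabilizer Γ (x i), sgnF ε F g = 1) :
    homRank Γ F x ≤ resRank χ x + resRank (χ⁻¹ * sgnF ε F) x :=
  half_homRankP D.face χ (sgnF ε F) (sgnF_sq ε F) (D.zF F) (D.zF_cocycle F) (D.zF_gen F)
    (D.zF_eig F) x (fun i => D.full _ (hv i)) hT hne hχ hω

end

section
variable {G : Type} [Group G] {ι : Type} {H : ι → Subgroup G}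

/-- Half lives for all subgroups, with one orientation character for all. -/
theorem q1_half' (hH : ∀ i, VirtZ2 (H i)) (hS : SphereRelHyp G H) :
    ∃ w : G →* ℤˣ,
      (∀ (Γ : Subgroup G) (L : Subgroup Γ), TorusCusp H Γ L → ∀ g ∈ L, w g = 1) ∧
      ∀ (Γ : Subgroup G) (F : Type) [Field F] (χ : Γ →* Fˣ) (I : Type) [Finite I]
        (L : I → Subgroup Γ),
        (∀ i, TFreeCusp H Γ (L i)) → (∀ i j, i ≠ j → ¬ ConjBy ⊤ (L i) (L j)) →
        (∀ i, ∀ g ∈ L i, χ g = 1) → (∀ i, ∀ g ∈ L i, sgnF (w.comp Γ.subtype) F g = 1) →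
        homRk F L ≤ resRk χ L + resRk (χ⁻¹ * sgnF (w.comp Γ.subtype) F) L := by
  rcases isEmpty_or_nonempty ι with he | hne
  · refine ⟨1, ?_, ?_⟩
    · rintro Γ L ⟨-, i, -⟩
      exact he.elim i
    · intro Γ F _ χ I _ L hL _ _ _
      have : IsEmpty I := ⟨fun i => by
        obtain ⟨-, -, j, -⟩ := hL i
        exact he.elim j⟩
      unfold homRk
      rw [Module.finrank_zero_of_subsingleton]
      exact Nat.zero_le _
  · obtain ⟨Ξ, _, w, hP, hG⟩ := q1_orient H hH hS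
    refine ⟨w, ?_, ?_⟩
    · intro Γ L hL g hg
      obtain ⟨ζ, hζ, hζL⟩ := (hP.tor_iff Γ L).1 hL
      rw [← hζL] at hg
      exact (geoHT Ξ).stab (hG Γ) ζ hζ g hg
    · intro Γ F _ χ I _ L hL hne hχ hω
      have hpt : ∀ i, ∃ ξ : Ξ, stabilizer Γ ξ = L i := by
        intro i
        obtain ⟨-, -, j, g, hLi⟩ := hL i
        obtain ⟨ξ, hξ⟩ := (hP.per _).2 ⟨j, g, rfl⟩
        exact ⟨ξ, by rw [stab_subgroupOf, hξ, hLi]⟩
      choose x hx using hpt
      have hL' : L = fun i => stabilizer Γ (x i) := funext fun i => (hx i).symm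
      subst hL'
      obtain ⟨V, _, sm, cusp, z, D⟩ := hG Γ
      refine D.halfG F χ I x (fun i => (hL i).1) (fun i => (hL i).2.1) ?_ hχ hω
      rintro i j hij ⟨g, hg⟩
      refine hne j i (Ne.symm hij) ⟨g, trivial, ?_⟩
      rw [← MulAction.stabilizer_smul_eq_stabilizer_map_conj]
      have h1 : g • x j = x i := hg
      rw [h1]

end

end Q62
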