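import Pool.Agent.W_04c03c_h62q.QPe

/-!
# The orientation character of the whole group
-/

namespace Q62

open RCan MulAction
open scoped Pointwise

/-- If there is a peripheral subgroup then the whole group has an orientation character, and its
restrictions serve for all subgroups. -/
theorem q1_orient {G : Type} [Group G] {ι : Type} [Nonempty ι] (H : ι → Subgroup G)
    (hH : ∀ i, VirtZ2 (H i)) (hS : SphereRelHyp G H) :
    ∃ (Ξ : Type) (_ : MulAction G Ξ) (w : G →* ℤˣ), PerPts H Ξ ∧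
      ∀ Γ : Subgroup G, (geoHT Ξ).P Γ (w.comp Γ.subtype) := by
  obtain ⟨X, _, _, _, 𝓗, h1, h2, hC, h4, ⟨e⟩⟩ := hS
  obtain ⟨δ, hδ⟩ := exists_hyp4 h2
  letI : MulAction G 𝓗 := cuspAct hC
  have hst : ∀ B : 𝓗, stabilizer G B = stabilizer G B.1 := by
    intro B
    ext g
    exact mem_stab_cusp hC B g
  have hVG : ∀ B : 𝓗, VirtZ2 (stabilizer G B) := by
    intro B
    rw [hst B]
    obtain ⟨i, g, hK⟩ := (h4 _).1 ⟨B.1, B.2, rfl⟩
    rw [hK]
    exact virtZ2_map _ (MulAut.conj g).injective (hH i)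
  have hunc : Uncountable (Bdry X) := by
    haveI : Uncountable S2 := uncountable_sphere
    exact e.toEquiv.symm.injective.uncountable
  obtain ⟨o, ho⟩ := RCan.exists_base hδ h1 hC inferInstance
  have two : ∀ B : 𝓗, ∃ B' : 𝓗, B' ≠ B := by
    intro B
    have hinf := infinite_orbit hδ h1 hC ho hunc B.2
    obtain ⟨B', ⟨g, hg⟩, hne⟩ := hinf.exists_notMem_finset {B.1}
    refine ⟨⟨B', hg ▸ hC.inv g B.1 B.2⟩, fun h => hne ?_⟩
    rw [Finset.mem_singleton]
    exact congrArg Subtype.val h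
  obtain ⟨V, _, sm, cusp, hF, hH1, -⟩ := exists_face1 h1 h2 hC e
  have hfull : ∀ (Γ : Subgroup G) (B : 𝓗), VirtZ2 (stabilizer Γ B) → WFull Γ sm cusp B :=
    fun Γ B hB => hF.full Γ B (stab_index Γ hB (hVG B))
  have hW := hF.toW (⊤ : Subgroup G)
  obtain ⟨z, zD, zc, zg, ze⟩ := hW.h3
  have hnz : ¬ ∃ e : List V → ℚ, IsD sm cusp ℚ 2 e ∧ cr sm e = fun l => (z l : ℚ) := by
    obtain ⟨B, hB⟩ : ∃ B : 𝓗, stabilizer G B = H (Classical.arbitrary ι) := by
      obtain ⟨B, hB, hBi⟩ := (h4 (H (Classical.arbitrary ι))).2 ⟨Classical.arbitrary ι, 1, by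
        ext g
        rw [Subgroup.mem_map]
        constructor
        · intro hg
          exact ⟨g, hg, by simp⟩
        · rintro ⟨g', hg', rfl⟩
          simpa using hg'⟩
      exact ⟨⟨B, hB⟩, (hst ⟨B, hB⟩).trans hBi⟩
    obtain ⟨A, hA1, hA2, ⟨eA⟩⟩ := hVG B
    have hstA : stabilizer A B = ⊤ := by
      rw [eq_top_iff]
      rintro a -
      exact hA1 a.2
    have htor : IsTor A B := by
      unfold IsTor
      rw [hstA]
      exact ⟨Subgroup.topEquiv.trans eA⟩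
    obtain ⟨B', hB'⟩ := two B
    exact (z_torus (hF.toW A) ℚ hB' (hfull A B (isTor_virt htor)) htor (hH1 ℚ) zD (zg ℚ)).1
  obtain ⟨ε, hε⟩ := exists_eps hW zD hnz ze
  refine ⟨𝓗, cuspAct hC, ε.comp (Subgroup.topEquiv (G := G)).symm.toMonoidHom, ⟨?_, ?_⟩, ?_⟩
  · intro K
    rw [← h4 K]
    constructor
    · rintro ⟨B, hB⟩
      exact ⟨B.1, B.2, (hst B).symm.trans hB⟩
    · rintro ⟨B, hB, hK⟩
      exact ⟨⟨B, hB⟩, (hst ⟨B, hB⟩).trans hK⟩
  · intro B B' hne
    refine (finite_stab_two hδ h1 hC B.2 B'.2 (fun h => hne (Subtype.ext h))).subset ?_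
    rintro g ⟨hg, hg'⟩
    exact ⟨congrArg Subtype.val hg, congrArg Subtype.val hg'⟩
  · intro Γ
    refine ⟨V, inferInstance, sm, cusp, z, ⟨hF.toW Γ, hH1, two, hfull Γ, zD, zc, zg, ?_⟩⟩
    intro g
    exact hε ⟨(g : G), trivial⟩

end Q62
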